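import Pool.Agent.Y966.LD.Size

/-!
The exponents: choice of the tilt, unions of level sets, elementary estimates.
-/

set_option autoImplicit false
set_option linter.unusedVariables false

namespace Pool.Agent.Y966.LD

open Finset Filter Topology Pool.Agent.H395R2.G3

/-- the exponent given by the tilt `z` at the odd frequency `ρ` -/
noncomputable def phi (ρ z : ℝ) : ℝ := -Real.log z + ρ * (-Real.log (3 * (1 - z) / z))

theorem phi_eq {ρ : ℝ} (h0 : 0 < ρ) (h1 : ρ < 1) : phi ρ (1 - ρ) = FF ρ := by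
  have h2 : 0 < 1 - ρ := by linarith
  unfold phi FF Real.binEntropy
  have e1 : 3 * (1 - (1 - ρ)) / (1 - ρ) = 3 * ρ / (1 - ρ) := by ring_nf
  rw [e1, Real.log_div (by positivity) h2.ne', Real.log_mul (by norm_num) h0.ne', Real.log_inv,
    Real.log_inv]
  ring

theorem phi_cont {ρ z₀ : ℝ} (h0 : 0 < z₀) (h1 : z₀ < 1) : ContinuousAt (phi ρ) z₀ := by
  have h2 : 3 * (1 - z₀) / z₀ ≠ 0 := by
    have : 0 < 1 - z₀ := by linarith
    positivity
  unfold phi
  refine ContinuousAt.add (Real.continuousAt_log h0.ne').neg ?_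
  refine ContinuousAt.mul continuousAt_const ?_
  refine ContinuousAt.neg ?_
  refine ContinuousAt.log ?_ h2
  refine ContinuousAt.div ?_ continuousAt_id h0.ne'
  fun_prop

/-- choice of the tilt -/
theorem exists_z {ρ : ℝ} (h0 : 0 < ρ) (h1 : ρ ≤ 1 / 3) {ε : ℝ} (hε : 0 < ε) :
    ∃ z : ℝ, 2 / 3 < z ∧ z < 1 ∧ phi ρ z ≤ FF ρ + ε ∧ (1 / 4 ≤ ρ → z ≤ 3 / 4) ∧
      (ρ ≤ 1 / 4 → 3 / 4 ≤ z) := by
  rcases lt_or_eq_of_le h1 with h | h
  · refine ⟨1 - ρ, by linarith, by linarith, ?_, fun _ => by linarith, fun _ => by linarith⟩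
    rw [phi_eq h0 (by linarith)]
    linarith
  · subst h
    have hc := phi_cont (ρ := 1 / 3) (z₀ := 2 / 3) (by norm_num) (by norm_num)
    have he : phi (1 / 3) (2 / 3) = FF (1 / 3) := by
      have := phi_eq (ρ := 1 / 3) (by norm_num) (by norm_num)
      rwa [show (1 : ℝ) - 1 / 3 = 2 / 3 by norm_num] at this
    have h2 : ∀ᶠ z in 𝓝[>] (2 / 3 : ℝ), phi (1 / 3) z < FF (1 / 3) + ε := by
      refine (hc.mono_left nhdsWithin_le_nhds).eventually (gt_mem_nhds ?_)
      rw [he]
      linarith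
    have h3 : ∀ᶠ z in 𝓝[>] (2 / 3 : ℝ), z < 3 / 4 :=
      (gt_mem_nhds (by norm_num : (2 / 3 : ℝ) < 3 / 4)).filter_mono nhdsWithin_le_nhds
    obtain ⟨z, hz1, hz2, hz3⟩ := (h2.and (h3.and self_mem_nhdsWithin)).exists
    exact ⟨z, hz3, by linarith, hz1.le, fun _ => hz2.le, fun h => by norm_num at h⟩

/-- cardinality of a finite union -/
theorem ncard_le_sum {ι : Type*} [DecidableEq ι] (F : Finset ι) (S : ι → Set ℕ)
    (hfin : ∀ i ∈ F, (S i).Finite) :
    ∀ A : Set ℕ, (∀ a ∈ A, ∃ i ∈ F, a ∈ S i) → A.Finite ∧ A.ncard ≤ ∑ i ∈ F, (S i).ncard := by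
  induction F using Finset.induction_on with
  | empty =>
    intro A hA
    have : A = ∅ := by
      ext a
      simp only [Set.mem_empty_iff_false, iff_false]
      intro ha
      obtain ⟨i, hi, _⟩ := hA a ha
      simp at hi
    rw [this]
    simp
  | insert i F hi ih =>
    intro A hA
    have ih' := ih (fun j hj => hfin j (mem_insert_of_mem hj)) {a ∈ A | a ∉ S i} (by
      rintro a ⟨ha, hna⟩
      obtain ⟨j, hj, haj⟩ := hA a ha
      rcases mem_insert.1 hj with rfl | hj'
      · exact absurd haj hna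
      · exact ⟨j, hj', haj⟩)
    have hfi := hfin i (mem_insert_self i F)
    have hsub : A ⊆ S i ∪ {a ∈ A | a ∉ S i} := by
      intro a ha
      by_cases h : a ∈ S i
      · exact Or.inl h
      · exact Or.inr ⟨ha, h⟩
    refine ⟨(hfi.union ih'.1).subset hsub, ?_⟩
    rw [sum_insert hi]
    calc A.ncard ≤ (S i ∪ {a ∈ A | a ∉ S i}).ncard :=
          Set.ncard_le_ncard hsub (hfi.union ih'.1)
      _ ≤ (S i).ncard + {a ∈ A | a ∉ S i}.ncard := Set.ncard_union_le _ _
      _ ≤ _ := Nat.add_le_add_left ih'.2 _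

/-- `log (t + 1)` is smaller than any linear function, up to a constant -/
theorem log_lin {c : ℝ} (hc : 0 < c) : ∃ K : ℝ, 0 ≤ K ∧ ∀ t : ℝ, 0 ≤ t → Real.log (t + 1) ≤ c * t + K := by
  refine ⟨|c - 1 - Real.log c|, abs_nonneg _, fun t ht => ?_⟩
  have h1 := Real.log_le_sub_one_of_pos (mul_pos hc (show (0 : ℝ) < t + 1 by linarith))
  rw [Real.log_mul hc.ne' (by linarith)] at h1
  have h2 := le_abs_self (c - 1 - Real.log c)
  linarith

/-- facts on the parameters of a tilt -/
theorem tilt_facts {z : ℝ} (h0 : 2 / 3 < z) (h1 : z < 1) :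
    0 < -Real.log z ∧ Real.log z ≤ -Real.log (3 * (1 - z) / z) := by
  have hz0 : 0 < z := by linarith
  have h2 : 0 < 1 - z := by linarith
  constructor
  · have := Real.log_neg hz0 h1
    linarith
  · rw [Real.log_div (by positivity) hz0.ne']
    have : Real.log (3 * (1 - z)) ≤ 0 := Real.log_nonpos (by positivity) (by linarith)
    linarith

/-- the linear function is bounded on the triangle -/
theorem linear_bound {z α : ℝ} (h0 : 2 / 3 < z) (h1 : z < 1) (hα : 1 / Real.log 2 < α)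
    {k o : ℝ} (hk : 0 ≤ k) (hY : k ≤ α * (k * Real.log 2 - o * Real.log 3)) :
    k * (-Real.log z) + o * (-Real.log (3 * (1 - z) / z)) ≤
      α * phi (rr α) z * (k * Real.log 2 - o * Real.log 3) ∧ 0 ≤ α * phi (rr α) z := by
  have hl2 : 0 < Real.log 2 := Real.log_pos (by norm_num)
  have hl3 : 0 < Real.log 3 := Real.log_pos (by norm_num)
  have hl23 : Real.log 2 < Real.log 3 := Real.log_lt_log (by norm_num) (by norm_num)
  have hα0 : 0 < α := lt_trans (by positivity) hα
  obtain ⟨ha, hb⟩ := tilt_facts h0 h1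
  have hr0 := rr_pos hα
  have hr1 := rr_lt_one hα0
  have hspec := rr_spec α
  unfold phi
  set a : ℝ := -Real.log z with hadef
  set b : ℝ := -Real.log (3 * (1 - z) / z) with hbdef
  have hb' : -a ≤ b := by rw [hadef]; linarith
  set ρ := rr α with hρ
  have h1α : α * (Real.log 2 - ρ * Real.log 3) = 1 := by
    rw [← hspec]
    field_simp
  have hU : 0 ≤ a + ρ * b := by
    have : ρ * (-a) ≤ ρ * b := mul_le_mul_of_nonneg_left hb' hr0.le
    nlinarith
  refine ⟨?_, by positivity⟩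
  -- `o = ρ k - t`, `t ≥ 0`
  have ht : 0 ≤ ρ * k - o := by
    have h2 : k * (α * (Real.log 2 - ρ * Real.log 3)) ≤
        α * (k * Real.log 2 - o * Real.log 3) := by rw [h1α, mul_one]; exact hY
    have h3 : 0 ≤ α * Real.log 3 * (ρ * k - o) := by nlinarith
    exact nonneg_of_mul_nonneg_right h3 (by positivity)
  have hkey : α * (a + ρ * b) * (k * Real.log 2 - o * Real.log 3) - (k * a + o * b) =
      (ρ * k - o) * (α * (a * Real.log 3 + b * Real.log 2)) +
      (α * (Real.log 2 - ρ * Real.log 3) - 1) * (k * (a + ρ * b) - (ρ * k - o) * b) := by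
    ring
  rw [h1α, sub_self, zero_mul, add_zero] at hkey
  have h4 : 0 ≤ a * Real.log 3 + b * Real.log 2 := by
    have : -a * Real.log 2 ≤ b * Real.log 2 := mul_le_mul_of_nonneg_right hb' hl2.le
    nlinarith
  have h5 : 0 ≤ (ρ * k - o) * (α * (a * Real.log 3 + b * Real.log 2)) := by positivity
  linarith

end Pool.Agent.Y966.LD
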