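import Pool.Agent.Y966.LD.Level

/-!
Heights of odd integers: the accelerated map and the map `T`.
-/

set_option autoImplicit false
set_option linter.unusedVariables false

namespace Pool.Agent.Y966.LD

open Finset Filter Topology Pool.Agent.H395R2.G3

/-- the accelerated map -/
def Cm (m : ℕ) : ℕ := (3 * m + 1) / 2 ^ padicValNat 2 (3 * m + 1)

/-- `h` is the height of `m` -/
def IsHeight (m h : ℕ) : Prop := IsLeast {k : ℕ | 1 ≤ k ∧ Cm^[k] m = 1} h

/-- one letter -/
theorem Cm_letter {m e c : ℕ} (he : 1 ≤ e) (hc : c % 2 = 1) (h : 3 * m + 1 = 2 ^ e * c) :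
    Cm m = c := by
  unfold Cm
  have h1 : padicValNat 2 (3 * m + 1) = e := by
    rw [h, padicValNat.mul (by positivity) (by omega), padicValNat.prime_pow,
      padicValNat.eq_zero_of_not_dvd (by omega), add_zero]
  rw [h1, h]
  exact Nat.mul_div_cancel_left c (by positivity)

theorem exists_letter {m : ℕ} (hm : m % 2 = 1) : ∃ e : ℕ, 1 ≤ e ∧ 3 * m + 1 = 2 ^ e * Cm m ∧
    Cm m % 2 = 1 := by
  obtain ⟨e, c, hc, h⟩ := Nat.exists_eq_two_pow_mul_odd (n := 3 * m + 1) (by omega)
  have hc' : c % 2 = 1 := Nat.odd_iff.1 hc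
  have he : 1 ≤ e := by
    rcases Nat.eq_zero_or_pos e with rfl | h'
    · rw [pow_zero, one_mul] at h
      omega
    · exact h'
  have := Cm_letter he hc' h
  rw [this]
  exact ⟨e, he, h, hc'⟩

/-- the part of the trajectory of `T` during one letter -/
theorem letter_path {m e c : ℕ} (he : 1 ≤ e) (hc : c % 2 = 1) (h : 3 * m + 1 = 2 ^ e * c) :
    fT^[e] m = c ∧ oN e m = 1 ∧ (∀ j : ℕ, 1 ≤ j → j < e → fT^[j] m ≠ 1) := by
  have hz : 3 * (m : ℤ) + 1 = 2 ^ e * (c : ℤ) := by exact_mod_cast h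
  obtain ⟨h1, h2, _⟩ := TZ_letter he hz
  refine ⟨fT_letter he h, ?_, ?_⟩
  · rw [oN_eq, h2]
  · intro j hj hje
    obtain ⟨i, rfl⟩ : ∃ i, e = j + (i + 1) := ⟨e - j - 1, by omega⟩
    have h3 : fT^[j] m = 2 ^ (i + 1) * c := fT_letter hj (by rw [h, pow_add]; ring)
    rw [h3, pow_succ]
    intro h4
    have : 2 ^ i * 2 * c = 2 * (2 ^ i * c) := by ring
    omega

theorem height_one {m : ℕ} (h : Cm m = 1) : IsHeight m 1 :=
  ⟨⟨le_rfl, h⟩, fun k hk => hk.1⟩

theorem height_succ {m h : ℕ} (h1 : Cm m ≠ 1) (hh : IsHeight (Cm m) h) : IsHeight m (h + 1) := by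
  refine ⟨⟨by omega, ?_⟩, ?_⟩
  · rw [Function.iterate_succ_apply]
    exact hh.1.2
  · rintro k ⟨hk1, hk2⟩
    cases k with
    | zero => omega
    | succ k =>
      rw [Function.iterate_succ_apply] at hk2
      cases k with
      | zero => exact absurd hk2 h1
      | succ k =>
        have := hh.2 (show k + 1 ∈ {k : ℕ | 1 ≤ k ∧ Cm^[k] (Cm m) = 1} from ⟨by omega, hk2⟩)
        omega

theorem height_pred {m h : ℕ} (h1 : Cm m ≠ 1) (hh : IsHeight m h) :
    ∃ h' : ℕ, h = h' + 1 ∧ IsHeight (Cm m) h' := by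
  obtain ⟨⟨hh1, hh2⟩, hh3⟩ := hh
  obtain ⟨h', rfl⟩ : ∃ h', h = h' + 1 := ⟨h - 1, by omega⟩
  rw [Function.iterate_succ_apply] at hh2
  refine ⟨h', rfl, ⟨?_, hh2⟩, ?_⟩
  · rcases Nat.eq_zero_or_pos h' with rfl | h4
    · exact absurd hh2 h1
    · exact h4
  · rintro k ⟨hk1, hk2⟩
    have := hh3 (show k + 1 ∈ {k : ℕ | 1 ≤ k ∧ Cm^[k] m = 1} from
      ⟨by omega, by rw [Function.iterate_succ_apply]; exact hk2⟩)
    omega

theorem ht_of_lev (s : ℕ) : ∀ m : ℕ, m % 2 = 1 → m ≠ 1 → IsLeast {j : ℕ | fT^[j] m = 1} s →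
    IsHeight m (oN s m) := by
  induction s using Nat.strong_induction_on with
  | _ s ih =>
    intro m hm hm1 hs
    obtain ⟨e, he, heq, hc⟩ := exists_letter hm
    obtain ⟨p1, p2, p3⟩ := letter_path he hc heq
    have hse : e ≤ s := by
      by_contra hlt
      have hs0 : fT^[s] m = 1 := hs.1
      rcases Nat.eq_zero_or_pos s with rfl | h0
      · exact hm1 hs0
      · exact p3 s h0 (by omega) hs0
    obtain ⟨t, rfl⟩ : ∃ t, s = e + t := ⟨s - e, by omega⟩
    rw [oN_add, p1, p2]
    by_cases h1 : Cm m = 1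
    · have ht : t = 0 := by
        have := hs.2 (show e ∈ {j : ℕ | fT^[j] m = 1} by
          change fT^[e] m = 1
          rw [p1, h1])
        omega
      subst ht
      rw [oN_zero, add_zero]
      exact height_one h1
    · have hleast : IsLeast {j : ℕ | fT^[j] (Cm m) = 1} t := by
        refine ⟨?_, ?_⟩
        · have : fT^[e + t] m = 1 := hs.1
          rw [add_comm, Function.iterate_add_apply, p1] at this
          exact this
        · intro j hj
          have hj' : fT^[j] (Cm m) = 1 := hj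
          have := hs.2 (show e + j ∈ {j : ℕ | fT^[j] m = 1} by
            change fT^[e + j] m = 1
            rw [add_comm, Function.iterate_add_apply, p1]
            exact hj')
          omega
      have := ih t (by omega) (Cm m) hc h1 hleast
      rw [add_comm]
      exact height_succ h1 this

theorem lev_of_ht (h : ℕ) : ∀ m : ℕ, m % 2 = 1 → m ≠ 1 → IsHeight m h →
    ∃ s : ℕ, IsLeast {j : ℕ | fT^[j] m = 1} s ∧ oN s m = h := by
  induction h with
  | zero =>
    intro m hm hm1 hh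
    have := hh.1.1
    omega
  | succ h ih =>
    intro m hm hm1 hh
    obtain ⟨e, he, heq, hc⟩ := exists_letter hm
    obtain ⟨p1, p2, p3⟩ := letter_path he hc heq
    by_cases h1 : Cm m = 1
    · have hh1 : h + 1 = 1 := by
        have := hh.2 (show 1 ∈ {k : ℕ | 1 ≤ k ∧ Cm^[k] m = 1} from ⟨le_rfl, h1⟩)
        omega
      refine ⟨e, ⟨by rw [Set.mem_setOf_eq, p1, h1], ?_⟩, by rw [p2, hh1]⟩
      intro j hj
      by_contra hlt
      rcases Nat.eq_zero_or_pos j with rfl | h0
      · exact hm1 hj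
      · exact p3 j h0 (by omega) hj
    · obtain ⟨h', hh', hht⟩ := height_pred h1 hh
      have : h' = h := by omega
      subst this
      obtain ⟨s, hs, ho⟩ := ih (Cm m) hc h1 hht
      refine ⟨e + s, ⟨?_, ?_⟩, by rw [oN_add, p1, p2, ho, add_comm]⟩
      · change fT^[e + s] m = 1
        rw [add_comm, Function.iterate_add_apply, p1]
        exact hs.1
      · intro j hj
        by_contra hlt
        rcases Nat.lt_or_ge j e with h2 | h2
        · rcases Nat.eq_zero_or_pos j with rfl | h0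
          · exact hm1 hj
          · exact p3 j h0 h2 hj
        · obtain ⟨i, rfl⟩ : ∃ i, j = e + i := ⟨j - e, by omega⟩
          have hj' : fT^[e + i] m = 1 := hj
          rw [add_comm, Function.iterate_add_apply, p1] at hj'
          have := hs.2 (show i ∈ {j : ℕ | fT^[j] (Cm m) = 1} from hj')
          omega

/-- every height occurs -/
theorem exists_height (k : ℕ) : ∃ m : ℕ, m % 2 = 1 ∧ m ≠ 1 ∧ m % 3 ≠ 0 ∧ IsHeight m (k + 1) := by
  induction k with
  | zero => exact ⟨5, rfl, by norm_num, by norm_num,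
      height_one (Cm_letter (e := 4) (by norm_num) rfl (by norm_num))⟩
  | succ k ih =>
    obtain ⟨m, h1, h2, h3, h4⟩ := ih
    have key : ∃ e : ℕ, 1 ≤ e ∧ (2 ^ e * m % 9 = 4 ∨ 2 ^ e * m % 9 = 7) := by
      have h9 : m % 9 = 1 ∨ m % 9 = 2 ∨ m % 9 = 4 ∨ m % 9 = 5 ∨ m % 9 = 7 ∨ m % 9 = 8 := by omega
      rcases h9 with h | h | h | h | h | h
      · exact ⟨2, by norm_num, by omega⟩
      · exact ⟨1, by norm_num, by omega⟩
      · exact ⟨6, by norm_num, by omega⟩
      · exact ⟨3, by norm_num, by omega⟩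
      · exact ⟨4, by norm_num, by omega⟩
      · exact ⟨1, by norm_num, by omega⟩
    obtain ⟨e, he, hmod⟩ := key
    obtain ⟨e', rfl⟩ : ∃ e', e = e' + 1 := ⟨e - 1, by omega⟩
    have hev : 2 ^ (e' + 1) * m = 2 * (2 ^ e' * m) := by ring
    have hpos : 1 ≤ 2 ^ e' * m := by
      have : 0 < 2 ^ e' * m := Nat.mul_pos (by positivity) (by omega)
      omega
    set N : ℕ := 2 ^ (e' + 1) * m with hN
    have hb : 3 * ((N - 1) / 3) + 1 = N := by omega
    have hC : Cm ((N - 1) / 3) = m := Cm_letter (e := e' + 1) (by omega) h1 (by rw [hb])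
    refine ⟨(N - 1) / 3, by omega, ?_, by omega, ?_⟩
    · intro h5
      rw [h5] at hC
      have : Cm 1 = 1 := Cm_letter (e := 2) (by norm_num) rfl (by norm_num)
      rw [this] at hC
      exact h2 hC.symm
    · apply height_succ
      · rw [hC]
        exact h2
      · rw [hC]
        exact h4

end Pool.Agent.Y966.LD
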