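import Pool.Agent.Y966.LD.Main1

/-!
The level sets of the total stopping time: lower bounds.
-/

set_option autoImplicit false
set_option linter.unusedVariables false

namespace Pool.Agent.Y966.LD

open Finset Filter Topology Pool.Agent.H395R2.G3

theorem lev_double {k o n : ℕ} (h : n ∈ Lv k o) : 2 * n ∈ Lv (k + 1) o := by
  obtain ⟨h1, h2, h3⟩ := h
  refine ⟨by omega, ⟨?_, ?_⟩, ?_⟩
  · change fT^[k + 1] (2 * n) = 1
    rw [Function.iterate_succ_apply, fT_double]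
    exact h2.1
  · intro j hj
    have hj' : fT^[j] (2 * n) = 1 := hj
    cases j with
    | zero =>
      simp only [Function.iterate_zero, id] at hj'
      omega
    | succ j =>
      rw [Function.iterate_succ_apply, fT_double] at hj'
      have := h2.2 (show j ∈ {j : ℕ | fT^[j] n = 1} from hj')
      omega
  · rw [oN_succ', fT_double, h3, if_neg (by omega), zero_add]

theorem Lv_succ (k o : ℕ) : (Lv k o).ncard ≤ (Lv (k + 1) o).ncard := by
  refine Set.ncard_le_ncard_of_injOn (fun m : ℕ => 2 * m) (fun m hm => lev_double hm) ?_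
    (Lv_fin _ _).1
  intro a _ b _ h
  have h' : 2 * a = 2 * b := h
  omega

theorem Lv_mono {k k' o : ℕ} (h : k ≤ k') : (Lv k o).ncard ≤ (Lv k' o).ncard := by
  induction k', h using Nat.le_induction with
  | base => exact le_rfl
  | succ k' _ ih => exact ih.trans (Lv_succ k' o)

/-- odd nodes of the tree above `8` -/
theorem eight_lower {r : ℝ} (h0 : 0 < r) (h1 : r < 1) (hF : 0 < FF r) {δ : ℝ} (hδ : 0 < δ) :
    ∃ n₀ : ℕ, ∀ n : ℕ, n₀ ≤ n → ∃ s : ℕ, |(s : ℝ) - n / r| ≤ δ * n ∧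
      Real.exp ((FF r / r - δ) * n) ≤ ({m : ℕ | m ∈ Lv (s + 3) n ∧ m % 2 = 1}.ncard : ℝ) := by
  obtain ⟨n₀, hn₀⟩ := joint_lower h0 h1 hF hδ
  refine ⟨n₀, fun n hn => ?_⟩
  obtain ⟨s, hs1, hs2⟩ := hn₀ n hn 8 (by norm_num)
  refine ⟨s, hs1, hs2.trans ?_⟩
  have hfin : {m : ℕ | m ∈ Lv (s + 3) n ∧ m % 2 = 1}.Finite :=
    (Lv_fin (s + 3) n).1.subset fun m hm => hm.1
  have := Set.ncard_le_ncard_of_injOn (s := {m : ℤ | TZ^[s] m = 8 ∧ oc s m = n ∧ m % 2 = 1 ∧
      ¬ (3 : ℤ) ∣ m ∧ (0 < (8 : ℤ) → 0 < m) ∧ ((8 : ℤ) < 0 → m < 0)})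
    (t := {m : ℕ | m ∈ Lv (s + 3) n ∧ m % 2 = 1}) Int.toNat (by
      rintro m ⟨g1, g2, g3, g4, g5, g6⟩
      have hm : 0 < m := g5 (by norm_num)
      obtain ⟨m', rfl⟩ : ∃ m' : ℕ, m = (m' : ℤ) := ⟨m.toNat, by omega⟩
      rw [Int.toNat_natCast]
      have e1 : fT^[s] m' = 8 := by
        have := cast_fT_iter s m'
        rw [g1] at this
        exact_mod_cast this
      refine ⟨⟨by omega, least_of_eight e1, ?_⟩, by omega⟩
      rw [oN_add, e1, oN_eq, g2]
      have : oN 3 8 = 0 := by decide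
      rw [this, add_zero]) (by
      rintro a ⟨_, _, _, _, g5, _⟩ b ⟨_, _, _, _, g5', _⟩ hab
      have h1 := g5 (by norm_num)
      have h2 := g5' (by norm_num)
      omega) hfin
  exact_mod_cast this

/-- LOWER BOUND FOR THE LEVELS -/
theorem level_lower {r : ℝ} (h0 : 0 < r) (h1 : r < 1) (hF : 0 < FF r) {δ : ℝ} (hδ : 0 < δ) :
    ∃ k₀ : ℕ, ∀ k : ℕ, k₀ ≤ k → ∃ o : ℕ, |(o : ℝ) - r * k| ≤ δ * k ∧
      Real.exp ((FF r - δ) * k) ≤ ((Lv k o).ncard : ℝ) := by
  set G : ℝ := FF r / r with hG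
  have hG0 : 0 < G := div_pos hF h0
  set δ₁ : ℝ := δ / (2 * (G + 1)) with hδ₁
  have hδ₁0 : 0 < δ₁ := by positivity
  have hδ₁' : δ₁ ≤ δ / 2 := by
    rw [hδ₁]
    apply div_le_div_of_nonneg_left hδ.le (by norm_num) (by linarith)
  obtain ⟨n₀, hn₀⟩ := eight_lower h0 h1 hF hδ₁0
  set c : ℝ := 1 / r + δ₁ with hc
  have hc1 : 1 ≤ c := by
    have : 1 ≤ 1 / r := by
      rw [le_div_iff₀ h0]
      linarith
    linarith
  have hc0 : 0 < c := by linarith
  obtain ⟨k₁, hk₁⟩ := exists_nat_ge (max (c * (n₀ + 4)) (max (8 / δ) (max (8 * G / δ) 3)))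
  refine ⟨k₁, fun k hk => ?_⟩
  have hk' : (k₁ : ℝ) ≤ k := by exact_mod_cast hk
  have hka : c * (n₀ + 4) ≤ k := (le_max_left _ _).trans (hk₁.trans hk')
  have hkb : 8 / δ ≤ k := ((le_max_left _ _).trans (le_max_right _ _)).trans (hk₁.trans hk')
  have hkc : 8 * G / δ ≤ k := (((le_max_left _ _).trans (le_max_right _ _)).trans
    (le_max_right _ _)).trans (hk₁.trans hk')
  have hkd : (3 : ℝ) ≤ k := (((le_max_right _ _).trans (le_max_right _ _)).trans
    (le_max_right _ _)).trans (hk₁.trans hk')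
  have hk0 : (0 : ℝ) ≤ k := by linarith
  set n : ℕ := ⌊((k : ℝ) - 3) / c⌋₊ with hn
  have hq0 : 0 ≤ ((k : ℝ) - 3) / c := div_nonneg (by linarith) hc0.le
  have hn1 : (n : ℝ) ≤ (k - 3) / c := Nat.floor_le hq0
  have hn2 : ((k : ℝ) - 3) / c < n + 1 := Nat.lt_floor_add_one _
  have hn1' : (n : ℝ) * c ≤ k - 3 := by rwa [← le_div_iff₀ hc0]
  have hn2' : (k : ℝ) - 3 < (n + 1) * c := by rwa [← div_lt_iff₀ hc0]
  have hn3 : (n₀ : ℝ) ≤ n := by
    have h5 : c * (n₀ + 4) - 3 < (n + 1) * c := by linarith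
    have h6 : c * (n₀ + 4) - 3 * c < (n + 1) * c := by linarith
    have h7 : ((n₀ : ℝ) + 1) * c < (n + 1) * c := by linarith
    have := lt_of_mul_lt_mul_right h7 hc0.le
    linarith
  have hn3' : n₀ ≤ n := by exact_mod_cast hn3
  obtain ⟨s, hs1, hs2⟩ := hn₀ n hn3'
  have hnn : (0 : ℝ) ≤ n := Nat.cast_nonneg n
  have hs3 : (s : ℝ) + 3 ≤ k := by
    have h5 := (abs_le.1 hs1).2
    have h6 : (n : ℝ) * c = n / r + δ₁ * n := by
      rw [hc]
      ring
    linarith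
  have hs3' : s + 3 ≤ k := by exact_mod_cast hs3
  -- comparison of `n` and `r k`
  have hrc : r * c = 1 + r * δ₁ := by
    rw [hc]
    field_simp
  have hup : (n : ℝ) ≤ r * k := by
    have h5 : (n : ℝ) * c * r ≤ (k - 3) * r := mul_le_mul_of_nonneg_right hn1' h0.le
    have h6 : (n : ℝ) * c * r = n + n * (r * δ₁) := by
      rw [mul_assoc, mul_comm c r, hrc]
      ring
    have h7 : 0 ≤ (n : ℝ) * (r * δ₁) := by positivity
    nlinarith
  have hlow : r * k - δ₁ * k - 4 ≤ n := by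
    have h5 : (k : ℝ) / c < n + 4 := by
      rw [div_lt_iff₀ hc0]
      nlinarith
    have h6 : r * k - k / c ≤ δ₁ * k := by
      have h7 : r * k - k / c = (r * c - 1) / c * k := by
        field_simp
      rw [h7, hrc]
      apply mul_le_mul_of_nonneg_right _ hk0
      rw [div_le_iff₀ hc0]
      have h8 : r * δ₁ ≤ 1 * δ₁ := mul_le_mul_of_nonneg_right h1.le hδ₁0.le
      have h9 : δ₁ * 1 ≤ δ₁ * c := mul_le_mul_of_nonneg_left hc1 hδ₁0.le
      linarith
    linarith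
  have hb4 : 8 ≤ δ * k := by
    rw [div_le_iff₀ hδ] at hkb
    linarith
  have hb5 : 8 * G ≤ δ * k := by
    rw [div_le_iff₀ hδ] at hkc
    linarith
  have hδ₁k : δ₁ * k ≤ δ / 2 * k := mul_le_mul_of_nonneg_right hδ₁' hk0
  refine ⟨n, ?_, ?_⟩
  · rw [abs_le]
    constructor
    · linarith
    · have : 0 ≤ δ * k := by positivity
      linarith
  · have hsub : ({m : ℕ | m ∈ Lv (s + 3) n ∧ m % 2 = 1}.ncard : ℝ) ≤ ((Lv k n).ncard : ℝ) := by
      have h5 : {m : ℕ | m ∈ Lv (s + 3) n ∧ m % 2 = 1}.ncard ≤ (Lv (s + 3) n).ncard :=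
        Set.ncard_le_ncard (fun m hm => hm.1) (Lv_fin _ _).1
      exact_mod_cast h5.trans (Lv_mono hs3')
    refine le_trans (Real.exp_le_exp.2 ?_) (hs2.trans hsub)
    rw [← hG]
    have hGr : G * r = FF r := by
      rw [hG]
      field_simp
    have h5 : G * (r * k - δ₁ * k - 4) ≤ G * n := mul_le_mul_of_nonneg_left hlow hG0.le
    have h6 : G * (r * k - δ₁ * k - 4) = FF r * k - δ₁ * G * k - 4 * G := by
      rw [← hGr]
      ring
    have h7 : δ₁ * n ≤ δ₁ * k := by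
      apply mul_le_mul_of_nonneg_left _ hδ₁0.le
      have : r * k ≤ 1 * k := mul_le_mul_of_nonneg_right h1.le hk0
      linarith
    have h8 : δ₁ * (G + 1) * k = δ / 2 * k := by
      rw [hδ₁]
      field_simp
    nlinarith

end Pool.Agent.Y966.LD
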