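import Pool.Agent.Y966.LD.Up
import Pool.Agent.H395R2.G3.Count

/-!
Lower bound for the number of integers which reach `x` in exactly `s` steps of the `3x+1` map, `n`
of them at odd numbers, uniformly in `x` prime to `3`, for every frequency `r = n / s` with
`H(r) > r log 3`; and elementary facts on the trajectories.
-/

set_option autoImplicit false
set_option linter.unusedVariables false

namespace Pool.Agent.Y966.LD

open Finset Pool.Agent.H412R2 Pool.Agent.H395R2.G3 Pool.Agent.H422R2.QA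

theorem TZ_double (x : ℤ) : TZ (2 * x) = x := by
  unfold TZ
  rw [if_pos (by omega)]
  omega

theorem TZ_pow (e : ℕ) (x : ℤ) : TZ^[e] (2 ^ e * x) = x ∧ oc e (2 ^ e * x) = 0 := by
  induction e with
  | zero => simp [oc_zero]
  | succ e ih =>
    have h : (2 : ℤ) ^ (e + 1) * x = 2 * (2 ^ e * x) := by ring
    rw [h, Function.iterate_succ_apply, oc_succ', TZ_double]
    refine ⟨ih.1, ?_⟩
    rw [ih.2, if_neg (by omega)]

theorem TZ_letter {e : ℕ} {x b : ℤ} (he : 1 ≤ e) (hb : 3 * b + 1 = 2 ^ e * x) :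
    TZ^[e] b = x ∧ oc e b = 1 ∧ b % 2 = 1 := by
  obtain ⟨e', rfl⟩ : ∃ e', e = e' + 1 := ⟨e - 1, by omega⟩
  have h1 : (2 : ℤ) ^ (e' + 1) * x = 2 * (2 ^ e' * x) := by ring
  rw [h1] at hb
  have hodd : b % 2 = 1 := by omega
  have h2 : TZ b = 2 ^ e' * x := by
    unfold TZ
    rw [if_neg (by omega)]
    omega
  obtain ⟨h3, h4⟩ := TZ_pow e' x
  rw [Function.iterate_succ_apply, oc_succ', h2, h3, h4, if_pos hodd]
  exact ⟨rfl, rfl, hodd⟩

/-- the nodes of the backward tree -/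
theorem tr_node {E : ℕ} (n : ℕ) : ∀ (s : ℕ) (x z : ℤ), z ∈ tr 3 E n s x →
    TZ^[s] z = x ∧ oc s z = n ∧ (1 ≤ n → z % 2 = 1) ∧ (0 < x → 0 < z) ∧ (x < 0 → z < 0) := by
  induction n with
  | zero =>
    intro s x z hz
    rw [mem_tr_zero] at hz
    obtain ⟨rfl, rfl⟩ := hz
    exact ⟨rfl, oc_zero _, by omega, id, id⟩
  | succ n ih =>
    intro s x z hz
    obtain ⟨e, b, he1, _, he3, hb, hz'⟩ := (mem_tr_succ (by norm_num)).1 hz
    push_cast at hb
    obtain ⟨h1, h2, h3⟩ := TZ_letter he1 hb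
    obtain ⟨g1, g2, g3, g4, g5⟩ := ih (s - e) b z hz'
    have hs : s = (s - e) + e := by omega
    have hpow : (0 : ℤ) < 2 ^ e := by positivity
    refine ⟨?_, ?_, ?_, ?_, ?_⟩
    · rw [hs, add_comm, Function.iterate_add_apply, g1, h1]
    · rw [hs, oc_add, g2, g1, h2]
    · intro _
      rcases Nat.eq_zero_or_pos n with rfl | hn
      · rw [mem_tr_zero] at hz'
        rw [hz'.2]
        exact h3
      · exact g3 hn
    · intro hx
      apply g4
      have : 0 < 2 ^ e * x := mul_pos hpow hx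
      omega
    · intro hx
      apply g5
      have : 2 ^ e * x < 0 := mul_neg_of_pos_of_neg hpow hx
      omega

/-- JOINT LOWER BOUND, uniformly in `x` prime to `3` -/
theorem joint_lower {r : ℝ} (h0 : 0 < r) (h1 : r < 1) (hF : 0 < FF r) {δ : ℝ} (hδ : 0 < δ) :
    ∃ n₀ : ℕ, ∀ n : ℕ, n₀ ≤ n → ∀ x : ℤ, ¬ (3 : ℤ) ∣ x → ∃ s : ℕ, |(s : ℝ) - n / r| ≤ δ * n ∧
      Real.exp ((FF r / r - δ) * n) ≤
        ({m : ℤ | TZ^[s] m = x ∧ oc s m = n ∧ m % 2 = 1 ∧ ¬ (3 : ℤ) ∣ m ∧ (0 < x → 0 < m) ∧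
          (x < 0 → m < 0)}.ncard : ℝ) := by
  have hFr : 0 < FF r / r := div_pos hF h0
  obtain ⟨E, hE, ha, hG⟩ := exists_cap h0 h1 (δ := min (δ / 2) (FF r / r / 2))
    (lt_min (by positivity) (by positivity))
  have ha' := ha.trans (min_le_left _ _)
  have hG' := hG.trans (min_le_left _ _)
  have hG'' := hG.trans (min_le_right _ _)
  have hGpos : 0 < Gz 3 (1 - r) E := by
    have := (abs_le.1 hG'').1
    linarith
  have hPr := main (q := 3) Nat.prime_three (by norm_num) prim_three (E := E) (m := 3) (C := 16)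
    (by omega) (conn_three hE) (z := 1 - r) (by linarith) hGpos
  obtain ⟨n₀, hn₀⟩ := hPr (δ / 2) (by positivity)
  refine ⟨max n₀ 1, fun n hn x hx => ?_⟩
  have hn0 : n₀ ≤ n := (le_max_left _ _).trans hn
  have hn1 : 1 ≤ n := (le_max_right _ _).trans hn
  obtain ⟨s, hs1, hs2⟩ := hn₀ n hn0 x (by exact_mod_cast hx)
  have hn' : (0 : ℝ) ≤ n := Nat.cast_nonneg _
  refine ⟨s, ?_, ?_⟩
  · have h2 : (s : ℝ) - n / r = (s - az (1 - r) E * n) + (az (1 - r) E - 1 / r) * n := by ring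
    rw [h2]
    calc |(s - az (1 - r) E * n) + (az (1 - r) E - 1 / r) * n|
        ≤ |s - az (1 - r) E * n| + |(az (1 - r) E - 1 / r) * n| := abs_add_le _ _
      _ ≤ δ / 2 * n + δ / 2 * n := by
          apply add_le_add hs1
          rw [abs_mul, abs_of_nonneg hn']
          exact mul_le_mul_of_nonneg_right ha' hn'
      _ = δ * n := by ring
  · have hfin : {m : ℤ | TZ^[s] m = x ∧ oc s m = n ∧ m % 2 = 1 ∧ ¬ (3 : ℤ) ∣ m ∧
        (0 < x → 0 < m) ∧ (x < 0 → m < 0)}.Finite :=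
      (ncard_le_WO s n x).1.subset fun m hm => ⟨hm.1, hm.2.1⟩
    have h2 : (Nq 3 E n s x : ℝ) ≤ ({m : ℤ | TZ^[s] m = x ∧ oc s m = n ∧ m % 2 = 1 ∧
        ¬ (3 : ℤ) ∣ m ∧ (0 < x → 0 < m) ∧ (x < 0 → m < 0)}.ncard : ℝ) := by
      rw [Nq_eq Nat.prime_three (by norm_num), ← Set.ncard_coe_finset]
      have : (((tr 3 E n s x).filter (fun z => ¬ ((3 : ℕ) : ℤ) ∣ z) : Finset ℤ) : Set ℤ) ⊆
          {m : ℤ | TZ^[s] m = x ∧ oc s m = n ∧ m % 2 = 1 ∧ ¬ (3 : ℤ) ∣ m ∧
            (0 < x → 0 < m) ∧ (x < 0 → m < 0)} := by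
        intro z hz
        rw [mem_coe, mem_filter] at hz
        obtain ⟨g1, g2, g3, g4, g5⟩ := tr_node n s x z hz.1
        exact ⟨g1, g2, g3 hn1, by exact_mod_cast hz.2, g4, g5⟩
      exact_mod_cast Set.ncard_le_ncard this hfin
    refine le_trans (Real.exp_le_exp.2 ?_) (hs2.trans h2)
    have := (abs_le.1 hG').1
    apply mul_le_mul_of_nonneg_right _ hn'
    linarith

end Pool.Agent.Y966.LD
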