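import Pool.Agent.Y966.LD.Tilt
import Pool.Agent.H395R2.G3.Main

/-!
The lower tail of the total stopping time.
-/

set_option autoImplicit false
set_option linter.unusedVariables false

namespace Pool.Agent.Y966.LD

open Finset Filter Topology Pool.Agent.H395R2.G3

/-- the numbers `2 ≤ n ≤ x` whose total stopping time is finite and at most `α log n` -/
def SetLow (α x : ℝ) : Set ℕ :=
  {n : ℕ | 2 ≤ n ∧ (n : ℝ) ≤ x ∧ ∃ k : ℕ, IsLeast {j : ℕ | fT^[j] n = 1} k ∧ (k : ℝ) ≤ α * Real.log n}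

theorem SetLow_finite (α x : ℝ) : (SetLow α x).Finite := by
  apply (Set.finite_Iic ⌊x⌋₊).subset
  rintro m ⟨_, hm, _⟩
  exact Nat.le_floor hm

theorem upper_core {α z : ℝ} (hα : 1 / Real.log 2 < α) (h0 : 2 / 3 < z) (h1 : z < 1)
    {ε : ℝ} (hε : 0 < ε) :
    ∃ X₀ : ℝ, 1 ≤ X₀ ∧ ∀ x : ℝ, X₀ ≤ x →
      ((SetLow α x).ncard : ℝ) ≤ x ^ (α * phi (rr α) z + ε) := by
  have hl2 : 0 < Real.log 2 := Real.log_pos (by norm_num)
  have hl3 : 0 < Real.log 3 := Real.log_pos (by norm_num)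
  have hα0 : 0 < α := lt_trans (by positivity) hα
  have hU0 : 0 ≤ α * phi (rr α) z :=
    (linear_bound (k := 0) (o := 0) h0 h1 hα le_rfl (by simp)).2
  set U : ℝ := α * phi (rr α) z with hU
  obtain ⟨C, hC, hup⟩ := Lv_upper h0 h1 (show 0 < ε / (3 * α) by positivity)
  obtain ⟨K', hK'0, hK'⟩ := log_lin (show 0 < ε / (3 * ((2 + U) * α)) by positivity)
  set L₀ : ℝ := 3 * ((2 + U) * K' + |Real.log C|) / ε with hL₀
  have hL₀0 : 0 ≤ L₀ := by positivity
  refine ⟨Real.exp L₀, Real.one_le_exp hL₀0, fun x hx => ?_⟩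
  have hx0 : 0 < x := lt_of_lt_of_le (Real.exp_pos _) hx
  have hL : L₀ ≤ Real.log x := by
    rw [Real.le_log_iff_exp_le hx0]
    exact hx
  set L : ℝ := Real.log x with hLdef
  have hLn : 0 ≤ L := hL₀0.trans hL
  set K : ℕ := ⌊α * L⌋₊ with hK
  have hKle : (K : ℝ) ≤ α * L := Nat.floor_le (by positivity)
  have hlK : 0 ≤ Real.log ((K : ℝ) + 1) := Real.log_nonneg (by
    have : (0 : ℝ) ≤ K := Nat.cast_nonneg _
    linarith)
  classical
  set F : Finset (ℕ × ℕ) := ((range (K + 1)) ×ˢ (range (K + 1))).filter fun q =>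
    (q.1 : ℝ) ≤ α * (q.1 * Real.log 2 - q.2 * Real.log 3) ∧
    (q.1 : ℝ) * Real.log 2 - q.2 * Real.log 3 ≤ L + Real.log ((K : ℝ) + 1) with hF
  have hcov : ∀ n ∈ SetLow α x, ∃ q ∈ F, n ∈ Lv q.1 q.2 := by
    rintro n ⟨hn2, hnx, k, hk, hkα⟩
    have hn1 : 1 ≤ n := by omega
    have hn0 : (0 : ℝ) < n := by exact_mod_cast hn1
    have hlog : Real.log n ≤ L := Real.log_le_log hn0 hnx
    obtain ⟨hs1, hs2⟩ := log_size hn1 hk
    have hkK : k ≤ K := by
      apply Nat.le_floor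
      exact hkα.trans (mul_le_mul_of_nonneg_left hlog hα0.le)
    have hoK : oN k n ≤ K := (oN_le k n).trans hkK
    refine ⟨(k, oN k n), ?_, hn1, hk, rfl⟩
    rw [hF, mem_filter, mem_product, mem_range, mem_range]
    refine ⟨⟨by omega, by omega⟩, ?_, ?_⟩
    · exact hkα.trans (mul_le_mul_of_nonneg_left hs1 hα0.le)
    · refine hs2.trans ?_
      have h5 : Real.log ((oN k n : ℝ) + 1) ≤ Real.log ((K : ℝ) + 1) := by
        apply Real.log_le_log (by positivity)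
        have : (oN k n : ℝ) ≤ K := by exact_mod_cast hoK
        linarith
      linarith
  have hncard := (ncard_le_sum F (fun q => Lv q.1 q.2) (fun q _ => (Lv_fin q.1 q.2).1)
    (SetLow α x) hcov).2
  have hncard' : ((SetLow α x).ncard : ℝ) ≤ ∑ q ∈ F, ((Lv q.1 q.2).ncard : ℝ) := by
    exact_mod_cast hncard
  set B : ℝ := C * Real.exp (ε / (3 * α) * K + U * (L + Real.log ((K : ℝ) + 1))) with hB
  have hB0 : 0 ≤ B := by positivity
  have hterm : ∀ q ∈ F, ((Lv q.1 q.2).ncard : ℝ) ≤ B := by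
    intro q hq
    rw [hF, mem_filter, mem_product, mem_range, mem_range] at hq
    obtain ⟨⟨hq1, hq2⟩, hq3, hq4⟩ := hq
    refine (hup q.1 q.2).trans ?_
    apply mul_le_mul_of_nonneg_left _ hC.le
    apply Real.exp_le_exp.2
    have h6 := (linear_bound h0 h1 hα (Nat.cast_nonneg q.1) hq3).1
    have h7 : U * ((q.1 : ℝ) * Real.log 2 - q.2 * Real.log 3) ≤ U * (L + Real.log ((K : ℝ) + 1)) :=
      mul_le_mul_of_nonneg_left hq4 hU0
    have h8 : (q.1 : ℝ) ≤ K := by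
      have : q.1 ≤ K := by omega
      exact_mod_cast this
    have h9 : ε / (3 * α) * (q.1 : ℝ) ≤ ε / (3 * α) * K :=
      mul_le_mul_of_nonneg_left h8 (by positivity)
    linarith
  have hsum : ∑ q ∈ F, ((Lv q.1 q.2).ncard : ℝ) ≤ ((K : ℝ) + 1) ^ 2 * B := by
    calc ∑ q ∈ F, ((Lv q.1 q.2).ncard : ℝ) ≤ ∑ q ∈ F, B := sum_le_sum hterm
      _ = F.card * B := by rw [sum_const, nsmul_eq_mul]
      _ ≤ ((K : ℝ) + 1) ^ 2 * B := by
          apply mul_le_mul_of_nonneg_right _ hB0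
          have : F.card ≤ (K + 1) * (K + 1) := by
            refine (card_filter_le _ _).trans ?_
            rw [card_product, card_range]
          have h' : (F.card : ℝ) ≤ ((K + 1) * (K + 1) : ℕ) := by exact_mod_cast this
          push_cast at h'
          linarith [h', sq ((K : ℝ) + 1)]
  refine hncard'.trans (hsum.trans ?_)
  have hK1 : (0 : ℝ) < (K : ℝ) + 1 := by positivity
  have e1 : ((K : ℝ) + 1) ^ 2 = Real.exp (2 * Real.log ((K : ℝ) + 1)) := by
    rw [show (2 : ℝ) * Real.log ((K : ℝ) + 1) = ((2 : ℕ) : ℝ) * Real.log ((K : ℝ) + 1) by norm_num,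
      Real.exp_nat_mul, Real.exp_log hK1]
  have e2 : C = Real.exp (Real.log C) := (Real.exp_log hC).symm
  rw [hB, e1, e2, ← Real.exp_add, ← Real.exp_add, Real.rpow_def_of_pos hx0]
  apply Real.exp_le_exp.2
  rw [← hLdef]
  have h10 := hK' K (Nat.cast_nonneg _)
  have h11 : ε / (3 * ((2 + U) * α)) * K ≤ ε / (3 * ((2 + U) * α)) * (α * L) :=
    mul_le_mul_of_nonneg_left hKle (by positivity)
  have h12 : ε / (3 * ((2 + U) * α)) * (α * L) * (2 + U) = ε / 3 * L := by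
    field_simp
  have h13 : (2 + U) * Real.log ((K : ℝ) + 1) ≤ ε / 3 * L + (2 + U) * K' := by
    have : (2 + U) * Real.log ((K : ℝ) + 1) ≤
        (2 + U) * (ε / (3 * ((2 + U) * α)) * (α * L) + K') :=
      mul_le_mul_of_nonneg_left (by linarith) (by positivity)
    linarith
  have h14 : ε / (3 * α) * K ≤ ε / 3 * L := by
    calc ε / (3 * α) * K ≤ ε / (3 * α) * (α * L) := mul_le_mul_of_nonneg_left hKle (by positivity)
      _ = ε / 3 * L := by field_simp
  have h15 : (2 + U) * K' + |Real.log C| ≤ ε / 3 * L := by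
    rw [hL₀, div_le_iff₀ hε] at hL
    linarith
  have h16 := le_abs_self (Real.log C)
  nlinarith

theorem log83 : Real.log (8 / 3) = 3 * Real.log 2 - Real.log 3 := by
  rw [Real.log_div (by norm_num) (by norm_num), show (8 : ℝ) = 2 ^ 3 by norm_num, Real.log_pow]
  norm_num

theorem log32 : Real.log (3 / 2) = Real.log 3 - Real.log 2 := by
  rw [Real.log_div (by norm_num) (by norm_num)]

theorem rr_le_third {α : ℝ} (hα : 1 / Real.log 2 < α) (h : α ≤ 3 / Real.log (8 / 3)) :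
    rr α ≤ 1 / 3 := by
  have hl2 : 0 < Real.log 2 := Real.log_pos (by norm_num)
  have hl3 : 0 < Real.log 3 := Real.log_pos (by norm_num)
  have hα0 : 0 < α := lt_trans (by positivity) hα
  have h83 : 0 < Real.log (8 / 3) := Real.log_pos (by norm_num)
  have h1 : Real.log (8 / 3) / 3 ≤ 1 / α := by
    rw [le_div_iff₀ h83] at h
    rw [div_le_div_iff₀ (by norm_num) hα0]
    linarith
  rw [log83] at h1
  unfold rr
  rw [div_le_iff₀ hl3]
  linarith

/-- the upper half of the law -/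
theorem low_upper {α : ℝ} (hα : 1 / Real.log 2 < α) (h : α ≤ 3 / Real.log (8 / 3))
    {ε : ℝ} (hε : 0 < ε) :
    ∃ X₀ : ℝ, 1 ≤ X₀ ∧ ∀ x : ℝ, X₀ ≤ x →
      ((SetLow α x).ncard : ℝ) ≤ x ^ (1 - α * rate (1 / α) + ε) := by
  have hl2 : 0 < Real.log 2 := Real.log_pos (by norm_num)
  have hα0 : 0 < α := lt_trans (by positivity) hα
  obtain ⟨z, hz0, hz1, hz2, _⟩ := exists_z (rr_pos hα) (rr_le_third hα h)
    (show 0 < ε / (2 * α) by positivity)
  obtain ⟨X₀, hX1, hX₀⟩ := upper_core hα hz0 hz1 (show 0 < ε / 2 by positivity)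
  refine ⟨X₀, hX1, fun x hx => (hX₀ x hx).trans ?_⟩
  apply Real.rpow_le_rpow_of_exponent_le (hX1.trans hx)
  rw [expo_eq hα]
  have h1 : α * phi (rr α) z ≤ α * (FF (rr α) + ε / (2 * α)) := mul_le_mul_of_nonneg_left hz2 hα0.le
  have h2 : α * (FF (rr α) + ε / (2 * α)) = α * FF (rr α) + ε / 2 := by
    field_simp
  linarith

/-- power saving for larger `α` -/
theorem low_upper2 {α : ℝ} (hα : 1 / Real.log 2 < α) {ε : ℝ} (hε : 0 < ε) :
    ∃ X₀ : ℝ, 1 ≤ X₀ ∧ ∀ x : ℝ, X₀ ≤ x →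
      ((SetLow α x).ncard : ℝ) ≤
        x ^ (Real.log (3 / 2) / Real.log 3 * (α * Real.log (3 / 2) + 1) + ε) := by
  have hl2 : 0 < Real.log 2 := Real.log_pos (by norm_num)
  have hl3 : 0 < Real.log 3 := Real.log_pos (by norm_num)
  have hα0 : 0 < α := lt_trans (by positivity) hα
  have hc : ContinuousAt (phi (rr α)) (2 / 3) := phi_cont (by norm_num) (by norm_num)
  have hval : α * phi (rr α) (2 / 3) =
      Real.log (3 / 2) / Real.log 3 * (α * Real.log (3 / 2) + 1) := by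
    unfold phi
    have e1 : (3 : ℝ) * (1 - 2 / 3) / (2 / 3) = 3 / 2 := by norm_num
    have e2 : -Real.log (2 / 3 : ℝ) = Real.log (3 / 2) := by
      rw [← Real.log_inv]
      norm_num
    rw [e1, e2, log32]
    unfold rr
    field_simp
    ring
  have h2 : ∀ᶠ z in 𝓝[>] (2 / 3 : ℝ), phi (rr α) z < phi (rr α) (2 / 3) + ε / (2 * α) := by
    refine (hc.mono_left nhdsWithin_le_nhds).eventually (gt_mem_nhds ?_)
    have : 0 < ε / (2 * α) := by positivity
    linarith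
  have h3 : ∀ᶠ z in 𝓝[>] (2 / 3 : ℝ), z < 1 :=
    (gt_mem_nhds (by norm_num : (2 / 3 : ℝ) < 1)).filter_mono nhdsWithin_le_nhds
  obtain ⟨z, hz1, hz2, hz3⟩ := (h2.and (h3.and self_mem_nhdsWithin)).exists
  obtain ⟨X₀, hX1, hX₀⟩ := upper_core hα hz3 hz2 (show 0 < ε / 2 by positivity)
  refine ⟨X₀, hX1, fun x hx => (hX₀ x hx).trans ?_⟩
  apply Real.rpow_le_rpow_of_exponent_le (hX1.trans hx)
  have h1 : α * phi (rr α) z ≤ α * (phi (rr α) (2 / 3) + ε / (2 * α)) :=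
    mul_le_mul_of_nonneg_left hz1.le hα0.le
  have h4 : α * (phi (rr α) (2 / 3) + ε / (2 * α)) = α * phi (rr α) (2 / 3) + ε / 2 := by
    field_simp
  linarith

theorem third_lt : (1 : ℝ) / 3 < 4771 / 7833 := by norm_num

/-- the lower half of the law -/
theorem low_lower {α : ℝ} (hα : 1 / Real.log 2 < α) (h : α ≤ 3 / Real.log (8 / 3))
    {ε : ℝ} (hε : 0 < ε) :
    ∃ X₀ : ℝ, 1 ≤ X₀ ∧ ∀ x : ℝ, X₀ ≤ x →
      x ^ (1 - α * rate (1 / α) - ε) ≤ ((SetLow α x).ncard : ℝ) := by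
  have hl2 : 0 < Real.log 2 := Real.log_pos (by norm_num)
  have hα0 : 0 < α := lt_trans (by positivity) hα
  -- choose a smaller `α'`
  have hc : ContinuousAt (fun a => a * FF (rr a)) α := by
    have h1 : ContinuousAt rr α := by
      unfold rr
      have : α ≠ 0 := hα0.ne'
      fun_prop (disch := assumption)
    exact continuousAt_id.mul (FF_cont.continuousAt.comp h1)
  have h2 : ∀ᶠ a in 𝓝[<] α, α * FF (rr α) - ε / 2 < a * FF (rr a) := by
    refine (hc.mono_left nhdsWithin_le_nhds).eventually (lt_mem_nhds ?_)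
    linarith
  have h3 : ∀ᶠ a in 𝓝[<] α, 1 / Real.log 2 < a :=
    (lt_mem_nhds hα).filter_mono nhdsWithin_le_nhds
  obtain ⟨a, ha1, ha2, ha3⟩ := (h2.and (h3.and self_mem_nhdsWithin)).exists
  have ha3' : a < α := ha3
  have hFpos : 0 < FF (rr a) := FF_pos_of (rr_pos ha2)
    (lt_of_le_of_lt (rr_le_third ha2 (ha3'.le.trans h)) third_lt) (by norm_num) FF_low.le
  obtain ⟨X₀, hX₀⟩ := count ha2 hFpos (show 0 < min (ε / 2) (α - a) from
    lt_min (by positivity) (by linarith))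
  refine ⟨max X₀ 1, le_max_right _ _, fun x hx => ?_⟩
  have hx1 : 1 ≤ x := (le_max_right _ _).trans hx
  have h5 := hX₀ x ((le_max_left _ _).trans hx)
  rw [expo_eq ha2] at h5
  rw [expo_eq hα]
  refine (Real.rpow_le_rpow_of_exponent_le hx1 ?_).trans (h5.trans ?_)
  · have := min_le_left (ε / 2) (α - a)
    linarith
  · have hsub : SetLD a (min (ε / 2) (α - a)) x ⊆ SetLow α x := by
      rintro m ⟨hm2, hmx, k, hk1, hk2⟩
      refine ⟨hm2, hmx, k, hk1, ?_⟩
      have hlog : 0 < Real.log m := Real.log_pos (by exact_mod_cast hm2)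
      have h6 := (abs_le.1 hk2).2
      have h7 := min_le_right (ε / 2) (α - a)
      have h8 : (k : ℝ) / Real.log m ≤ α := by linarith
      rwa [div_le_iff₀ hlog] at h8
    exact_mod_cast Set.ncard_le_ncard hsub (SetLow_finite α x)

/-- the law of the lower tail -/
theorem main_low :
    (∀ α : ℝ, 1 / Real.log 2 < α → α ≤ 3 / Real.log (8 / 3) → ∀ ε : ℝ, 0 < ε →
      ∃ X₀ : ℝ, ∀ x : ℝ, X₀ ≤ x →
        x ^ (1 - α * rate (1 / α) - ε) ≤ ((SetLow α x).ncard : ℝ) ∧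
        ((SetLow α x).ncard : ℝ) ≤ x ^ (1 - α * rate (1 / α) + ε)) ∧
    (∀ α : ℝ, 1 / Real.log 2 < α → ∀ ε : ℝ, 0 < ε → ∃ X₀ : ℝ, ∀ x : ℝ, X₀ ≤ x →
      ((SetLow α x).ncard : ℝ) ≤
        x ^ (Real.log (3 / 2) / Real.log 3 * (α * Real.log (3 / 2) + 1) + ε)) := by
  constructor
  · intro α hα h ε hε
    obtain ⟨X₀, _, hX₀⟩ := low_lower hα h hε
    obtain ⟨X₁, _, hX₁⟩ := low_upper hα h hε
    exact ⟨max X₀ X₁, fun x hx => ⟨hX₀ x ((le_max_left _ _).trans hx),
      hX₁ x ((le_max_right _ _).trans hx)⟩⟩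
  · intro α hα ε hε
    obtain ⟨X₀, _, hX₀⟩ := low_upper2 hα hε
    exact ⟨X₀, hX₀⟩

end Pool.Agent.Y966.LD
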