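import Pool.Agent.Y966.LD.Level

/-!
The level sets of the total stopping time: sizes of their members.
-/

set_option autoImplicit false
set_option linter.unusedVariables false

namespace Pool.Agent.Y966.LD

open Finset Filter Topology Pool.Agent.H395R2.G3

theorem pos_of_least {n k : ℕ} (h : IsLeast {j : ℕ | fT^[j] n = 1} k) : 1 ≤ n := by
  rcases Nat.eq_zero_or_pos n with rfl | h'
  · exfalso
    have h1 : fT^[k] 0 = 1 := h.1
    have h2 : ∀ j : ℕ, fT^[j] 0 = 0 := by
      intro j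
      induction j with
      | zero => rfl
      | succ j ih => rw [Function.iterate_succ_apply', ih]; rfl
    rw [h2] at h1
    omega
  · exact h'

/-- the numbers with total stopping time `k` -/
def Lev (k : ℕ) : Set ℕ := {n : ℕ | IsLeast {j : ℕ | fT^[j] n = 1} k}

theorem mem_Lv_of_lev {n k : ℕ} (h : n ∈ Lev k) : n ∈ Lv k (oN k n) :=
  ⟨pos_of_least h, h, rfl⟩

theorem Lev_finite (k : ℕ) : (Lev k).Finite := by
  refine (ncard_le_sum (range (k + 1)) (fun o => Lv k o) (fun o _ => (Lv_fin k o).1) (Lev k) ?_).1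
  intro n hn
  exact ⟨oN k n, mem_range.2 (by have := oN_le k n; omega), mem_Lv_of_lev hn⟩

/-- the general upper bound -/
theorem core2 {ρ z : ℝ} (h0 : 2 / 3 < z) (h1 : z < 1) {c₀ : ℝ} (hc₀ : 0 ≤ c₀) {ε : ℝ} (hε : 0 < ε) :
    ∃ k₀ : ℕ, ∀ k : ℕ, k₀ ≤ k → ∀ S : Set ℕ, (∀ n ∈ S, n ∈ Lev k ∧
      (oN k n : ℝ) * (-Real.log (3 * (1 - z) / z)) ≤
        ρ * k * (-Real.log (3 * (1 - z) / z)) + c₀ * Real.log (k + 1)) →
      (S.ncard : ℝ) ≤ Real.exp ((phi ρ z + ε) * k) := by
  obtain ⟨C, hC, hup⟩ := Lv_upper h0 h1 (show 0 < ε / 3 by positivity)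
  obtain ⟨K', hK'0, hK'⟩ := log_lin (show 0 < ε / (3 * (1 + c₀)) by positivity)
  obtain ⟨k₀, hk₀⟩ := exists_nat_ge (3 * ((1 + c₀) * K' + |Real.log C|) / ε)
  refine ⟨k₀, fun k hk S hS => ?_⟩
  have hk' : 3 * ((1 + c₀) * K' + |Real.log C|) / ε ≤ k := hk₀.trans (by exact_mod_cast hk)
  have hkn : (0 : ℝ) ≤ k := Nat.cast_nonneg k
  set b : ℝ := -Real.log (3 * (1 - z) / z) with hb
  classical
  set F : Finset ℕ := (range (k + 1)).filter fun o =>
    (o : ℝ) * b ≤ ρ * k * b + c₀ * Real.log (k + 1) with hF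
  have hcov : ∀ n ∈ S, ∃ o ∈ F, n ∈ Lv k o := by
    intro n hn
    obtain ⟨hn1, hn2⟩ := hS n hn
    refine ⟨oN k n, ?_, mem_Lv_of_lev hn1⟩
    rw [hF, mem_filter, mem_range]
    exact ⟨by have := oN_le k n; omega, hn2⟩
  have hncard := (ncard_le_sum F (fun o => Lv k o) (fun o _ => (Lv_fin k o).1) S hcov).2
  have hncard' : (S.ncard : ℝ) ≤ ∑ o ∈ F, ((Lv k o).ncard : ℝ) := by exact_mod_cast hncard
  set B : ℝ := C * Real.exp (ε / 3 * k + k * (-Real.log z) + (ρ * k * b + c₀ * Real.log (k + 1)))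
    with hB
  have hB0 : 0 ≤ B := by positivity
  have hterm : ∀ o ∈ F, ((Lv k o).ncard : ℝ) ≤ B := by
    intro o ho
    rw [hF, mem_filter, mem_range] at ho
    refine (hup k o).trans ?_
    apply mul_le_mul_of_nonneg_left _ hC.le
    apply Real.exp_le_exp.2
    linarith [ho.2]
  have hsum : ∑ o ∈ F, ((Lv k o).ncard : ℝ) ≤ ((k : ℝ) + 1) * B := by
    calc ∑ o ∈ F, ((Lv k o).ncard : ℝ) ≤ ∑ o ∈ F, B := sum_le_sum hterm
      _ = F.card * B := by rw [sum_const, nsmul_eq_mul]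
      _ ≤ ((k : ℝ) + 1) * B := by
          apply mul_le_mul_of_nonneg_right _ hB0
          have : F.card ≤ k + 1 := by
            refine (card_filter_le _ _).trans ?_
            rw [card_range]
          exact_mod_cast this
  refine hncard'.trans (hsum.trans ?_)
  have hK1 : (0 : ℝ) < (k : ℝ) + 1 := by positivity
  have e1 : ((k : ℝ) + 1) = Real.exp (Real.log ((k : ℝ) + 1)) := (Real.exp_log hK1).symm
  have e2 : C = Real.exp (Real.log C) := (Real.exp_log hC).symm
  have e3 : ((k : ℝ) + 1) * B = Real.exp (Real.log ((k : ℝ) + 1) + (Real.log C +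
      (ε / 3 * k + k * (-Real.log z) + (ρ * k * b + c₀ * Real.log (k + 1))))) := by
    rw [Real.exp_add, Real.exp_add, Real.exp_log hK1, Real.exp_log hC, hB]
  rw [e3]
  apply Real.exp_le_exp.2
  have h10 := hK' k hkn
  have h13 : (1 + c₀) * Real.log ((k : ℝ) + 1) ≤ ε / 3 * k + (1 + c₀) * K' := by
    have h11 : (1 + c₀) * Real.log ((k : ℝ) + 1) ≤ (1 + c₀) * (ε / (3 * (1 + c₀)) * k + K') :=
      mul_le_mul_of_nonneg_left h10 (by positivity)
    have h12 : (1 + c₀) * (ε / (3 * (1 + c₀)) * k + K') = ε / 3 * k + (1 + c₀) * K' := by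
      field_simp
    linarith
  have h15 : (1 + c₀) * K' + |Real.log C| ≤ ε / 3 * k := by
    rw [div_le_iff₀ hε] at hk'
    linarith
  have h16 := le_abs_self (Real.log C)
  have h17 : phi ρ z = -Real.log z + ρ * b := rfl
  rw [h17]
  nlinarith

/-- the members of level `k` with `log n ≤ (log 2 - ρ log 3) k` -/
def Small (k : ℕ) (t : ℝ) : Set ℕ := {n : ℕ | IsLeast {j : ℕ | fT^[j] n = 1} k ∧ Real.log n ≤ t * k}

/-- the members of level `k` with `log n ≥ (log 2 - ρ log 3) k` -/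
def Large (k : ℕ) (t : ℝ) : Set ℕ := {n : ℕ | IsLeast {j : ℕ | fT^[j] n = 1} k ∧ t * k ≤ Real.log n}

theorem small_upper {ρ : ℝ} (h0 : 1 / 4 ≤ ρ) (h1 : ρ ≤ 1 / 3) {ε : ℝ} (hε : 0 < ε) :
    ∃ k₀ : ℕ, ∀ k : ℕ, k₀ ≤ k → ((Small k (Real.log 2 - ρ * Real.log 3)).ncard : ℝ) ≤
      Real.exp ((FF ρ + ε) * k) := by
  have hl3 : 0 < Real.log 3 := Real.log_pos (by norm_num)
  obtain ⟨z, hz0, hz1, hz2, hz3, _⟩ := exists_z (show 0 < ρ by linarith) h1
    (show 0 < ε / 2 by positivity)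
  have hz34 : z ≤ 3 / 4 := hz3 h0
  set b : ℝ := -Real.log (3 * (1 - z) / z) with hb
  have hb0 : b ≤ 0 := by
    have : 0 ≤ Real.log (3 * (1 - z) / z) := by
      apply Real.log_nonneg
      rw [le_div_iff₀ (by linarith)]
      linarith
    linarith
  obtain ⟨k₀, hk₀⟩ := core2 (ρ := ρ) hz0 hz1 (c₀ := -b / Real.log 3)
    (div_nonneg (by linarith) hl3.le) (show 0 < ε / 2 by positivity)
  refine ⟨k₀, fun k hk => (hk₀ k hk _ ?_).trans ?_⟩
  · rintro n ⟨hn1, hn2⟩
    refine ⟨hn1, ?_⟩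
    have hkn : (0 : ℝ) ≤ k := Nat.cast_nonneg k
    obtain ⟨hs1, hs2⟩ := log_size (pos_of_least hn1) hn1
    rw [← hb]
    have h5 : Real.log ((oN k n : ℝ) + 1) ≤ Real.log ((k : ℝ) + 1) := by
      apply Real.log_le_log (by positivity)
      have : (oN k n : ℝ) ≤ k := by exact_mod_cast oN_le k n
      linarith
    have h6 : ρ * k * Real.log 3 - Real.log ((k : ℝ) + 1) ≤ oN k n * Real.log 3 := by linarith
    have h7 : ρ * k - Real.log ((k : ℝ) + 1) / Real.log 3 ≤ oN k n := by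
      have : (ρ * k - Real.log ((k : ℝ) + 1) / Real.log 3) * Real.log 3 ≤
          oN k n * Real.log 3 := by
        have e : (ρ * k - Real.log ((k : ℝ) + 1) / Real.log 3) * Real.log 3 =
            ρ * k * Real.log 3 - Real.log ((k : ℝ) + 1) := by
          field_simp
        rw [e]
        exact h6
      exact le_of_mul_le_mul_right this hl3
    have h8 := mul_le_mul_of_nonpos_right h7 hb0
    have h9 : (ρ * k - Real.log ((k : ℝ) + 1) / Real.log 3) * b =
        ρ * k * b + -b / Real.log 3 * Real.log ((k : ℝ) + 1) := by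
      ring
    linarith
  · apply Real.exp_le_exp.2
    apply mul_le_mul_of_nonneg_right _ (Nat.cast_nonneg k)
    linarith

theorem large_upper {ρ : ℝ} (h0 : 0 < ρ) (h1 : ρ ≤ 1 / 4) {ε : ℝ} (hε : 0 < ε) :
    ∃ k₀ : ℕ, ∀ k : ℕ, k₀ ≤ k → ((Large k (Real.log 2 - ρ * Real.log 3)).ncard : ℝ) ≤
      Real.exp ((FF ρ + ε) * k) := by
  have hl3 : 0 < Real.log 3 := Real.log_pos (by norm_num)
  obtain ⟨z, hz0, hz1, hz2, _, hz3⟩ := exists_z h0 (show ρ ≤ 1 / 3 by linarith)
    (show 0 < ε / 2 by positivity)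
  have hz34 : 3 / 4 ≤ z := hz3 h1
  set b : ℝ := -Real.log (3 * (1 - z) / z) with hb
  have hb0 : 0 ≤ b := by
    have : Real.log (3 * (1 - z) / z) ≤ 0 := by
      have h5 : 0 < 1 - z := by linarith
      apply Real.log_nonpos (by positivity)
      rw [div_le_iff₀ (by linarith)]
      linarith
    linarith
  obtain ⟨k₀, hk₀⟩ := core2 (ρ := ρ) hz0 hz1 (c₀ := 0) le_rfl (show 0 < ε / 2 by positivity)
  refine ⟨k₀, fun k hk => (hk₀ k hk _ ?_).trans ?_⟩
  · rintro n ⟨hn1, hn2⟩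
    refine ⟨hn1, ?_⟩
    obtain ⟨hs1, hs2⟩ := log_size (pos_of_least hn1) hn1
    rw [← hb]
    have h6 : oN k n * Real.log 3 ≤ ρ * k * Real.log 3 := by linarith
    have h7 : (oN k n : ℝ) ≤ ρ * k := le_of_mul_le_mul_right h6 hl3
    have h8 := mul_le_mul_of_nonneg_right h7 hb0
    linarith
  · apply Real.exp_le_exp.2
    apply mul_le_mul_of_nonneg_right _ (Nat.cast_nonneg k)
    linarith

theorem small_lower {ρ : ℝ} (h0 : 1 / 4 ≤ ρ) (h1 : ρ ≤ 1 / 3) {ε : ℝ} (hε : 0 < ε) :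
    ∃ k₀ : ℕ, ∀ k : ℕ, k₀ ≤ k → Real.exp ((FF ρ - ε) * k) ≤
      ((Small k (Real.log 2 - ρ * Real.log 3)).ncard : ℝ) := by
  have hl3 : 0 < Real.log 3 := Real.log_pos (by norm_num)
  have h2 : ∀ᶠ r in 𝓝[>] ρ, FF ρ - ε / 2 < FF r :=
    (FF_cont.continuousAt.mono_left nhdsWithin_le_nhds).eventually (lt_mem_nhds (by linarith))
  have h3 : ∀ᶠ r in 𝓝[>] ρ, r < 4771 / 7833 :=
    (gt_mem_nhds (lt_of_le_of_lt h1 third_lt)).filter_mono nhdsWithin_le_nhds
  obtain ⟨r, hr1, hr2, hr3⟩ := (h2.and (h3.and self_mem_nhdsWithin)).exists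
  have hr3' : ρ < r := hr3
  have hr0 : 0 < r := by linarith
  have hFr : 0 < FF r := FF_pos_of hr0 hr2 (by norm_num) FF_low.le
  obtain ⟨k₀, hk₀⟩ := level_lower hr0 (by norm_num at hr2; linarith) hFr
    (show 0 < min (r - ρ) (ε / 2) from lt_min (by linarith) (by positivity))
  refine ⟨k₀, fun k hk => ?_⟩
  have hkn : (0 : ℝ) ≤ k := Nat.cast_nonneg k
  obtain ⟨o, ho1, ho2⟩ := hk₀ k hk
  have h4 := (abs_le.1 ho1).1
  have h5 : min (r - ρ) (ε / 2) * k ≤ (r - ρ) * k :=
    mul_le_mul_of_nonneg_right (min_le_left _ _) hkn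
  have h6 : ρ * k ≤ o := by linarith
  have hsub : Lv k o ⊆ Small k (Real.log 2 - ρ * Real.log 3) := by
    rintro n ⟨hn1, hn2, hn3⟩
    refine ⟨hn2, ?_⟩
    obtain ⟨hs1, hs2⟩ := log_size hn1 hn2
    rw [hn3] at hs1
    have h7 : ρ * k * Real.log 3 ≤ o * Real.log 3 := mul_le_mul_of_nonneg_right h6 hl3.le
    linarith
  have hfin : (Small k (Real.log 2 - ρ * Real.log 3)).Finite :=
    (Lev_finite k).subset fun n hn => hn.1
  have h8 : ((Lv k o).ncard : ℝ) ≤ ((Small k (Real.log 2 - ρ * Real.log 3)).ncard : ℝ) := by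
    exact_mod_cast Set.ncard_le_ncard hsub hfin
  refine le_trans (Real.exp_le_exp.2 ?_) (ho2.trans h8)
  apply mul_le_mul_of_nonneg_right _ hkn
  have := min_le_right (r - ρ) (ε / 2)
  linarith

theorem large_lower {ρ : ℝ} (h0 : 0 < ρ) (h1 : ρ ≤ 1 / 4) {ε : ℝ} (hε : 0 < ε) :
    ∃ k₀ : ℕ, ∀ k : ℕ, k₀ ≤ k → Real.exp ((FF ρ - ε) * k) ≤
      ((Large k (Real.log 2 - ρ * Real.log 3)).ncard : ℝ) := by
  have hl3 : 0 < Real.log 3 := Real.log_pos (by norm_num)
  have h2 : ∀ᶠ r in 𝓝[<] ρ, FF ρ - ε / 2 < FF r :=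
    (FF_cont.continuousAt.mono_left nhdsWithin_le_nhds).eventually (lt_mem_nhds (by linarith))
  have h3 : ∀ᶠ r in 𝓝[<] ρ, 0 < r :=
    (lt_mem_nhds h0).filter_mono nhdsWithin_le_nhds
  obtain ⟨r, hr1, hr2, hr3⟩ := (h2.and (h3.and self_mem_nhdsWithin)).exists
  have hr3' : r < ρ := hr3
  have hFr : 0 < FF r := FF_pos_of hr2 (lt_trans hr3' (lt_of_le_of_lt (by linarith) third_lt))
    (by norm_num) FF_low.le
  obtain ⟨k₀, hk₀⟩ := level_lower hr2 (by linarith) hFr
    (show 0 < min ((ρ - r) / 2) (ε / 2) from lt_min (by linarith) (by positivity))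
  obtain ⟨k₁, hk₁⟩ := log_small (show 0 < (ρ - r) / 2 * Real.log 3 from
    mul_pos (by linarith) hl3) 0
  refine ⟨max k₀ k₁, fun k hk => ?_⟩
  have hkn : (0 : ℝ) ≤ k := Nat.cast_nonneg k
  obtain ⟨o, ho1, ho2⟩ := hk₀ k ((le_max_left _ _).trans hk)
  have hlog := hk₁ k ((le_max_right _ _).trans hk)
  have h4 := (abs_le.1 ho1).2
  have h5 : min ((ρ - r) / 2) (ε / 2) * k ≤ (ρ - r) / 2 * k :=
    mul_le_mul_of_nonneg_right (min_le_left _ _) hkn
  have h6 : (o : ℝ) ≤ ρ * k - (ρ - r) / 2 * k := by linarith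
  have hsub : Lv k o ⊆ Large k (Real.log 2 - ρ * Real.log 3) := by
    rintro n ⟨hn1, hn2, hn3⟩
    refine ⟨hn2, ?_⟩
    obtain ⟨hs1, hs2⟩ := log_size hn1 hn2
    rw [hn3] at hs2
    have hok : (o : ℝ) ≤ k := by
      rw [← hn3]
      exact_mod_cast oN_le k n
    have h9 : Real.log ((o : ℝ) + 1) ≤ Real.log ((k : ℝ) + 1) :=
      Real.log_le_log (by positivity) (by linarith)
    have h7 : (o : ℝ) * Real.log 3 ≤ (ρ * k - (ρ - r) / 2 * k) * Real.log 3 :=
      mul_le_mul_of_nonneg_right h6 hl3.le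
    nlinarith
  have hfin : (Large k (Real.log 2 - ρ * Real.log 3)).Finite :=
    (Lev_finite k).subset fun n hn => hn.1
  have h8 : ((Lv k o).ncard : ℝ) ≤ ((Large k (Real.log 2 - ρ * Real.log 3)).ncard : ℝ) := by
    exact_mod_cast Set.ncard_le_ncard hsub hfin
  refine le_trans (Real.exp_le_exp.2 ?_) (ho2.trans h8)
  apply mul_le_mul_of_nonneg_right _ hkn
  have := min_le_right ((ρ - r) / 2) (ε / 2)
  linarith

theorem FF_quarter : FF (1 / 4) = Real.log (4 / 3) := by
  unfold FF Real.binEntropy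
  rw [show (1 : ℝ) - 1 / 4 = 3 / 4 by norm_num, Real.log_inv, Real.log_inv,
    Real.log_div (by norm_num) (by norm_num), Real.log_div (by norm_num) (by norm_num),
    Real.log_div (by norm_num) (by norm_num), Real.log_one]
  ring

theorem FF_lt {ρ : ℝ} (h0 : 0 < ρ) (h1 : ρ < 1) (hne : ρ ≠ 1 / 4) : FF ρ < Real.log (4 / 3) := by
  have h2 : 0 < 1 - ρ := by linarith
  have e4 : Real.log (4 / 3) = Real.log 4 - Real.log 3 := Real.log_div (by norm_num) (by norm_num)
  have e1 : Real.log (1 / 4 / ρ) = -Real.log 4 - Real.log ρ := by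
    rw [Real.log_div (by norm_num) h0.ne', Real.log_div (by norm_num) (by norm_num), Real.log_one]
    ring
  have e2 : Real.log (3 / 4 / (1 - ρ)) = Real.log 3 - Real.log 4 - Real.log (1 - ρ) := by
    rw [Real.log_div (by norm_num) h2.ne', Real.log_div (by norm_num) (by norm_num)]
  have i1 : Real.log (1 / 4 / ρ) < 1 / 4 / ρ - 1 := by
    apply Real.log_lt_sub_one_of_pos (by positivity)
    intro h
    rw [div_eq_one_iff_eq h0.ne'] at h
    exact hne h.symm
  have i2 := Real.log_le_sub_one_of_pos (show 0 < 3 / 4 / (1 - ρ) by positivity)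
  have j1 : ρ * Real.log (1 / 4 / ρ) < ρ * (1 / 4 / ρ - 1) := mul_lt_mul_of_pos_left i1 h0
  have j2 := mul_le_mul_of_nonneg_left i2 h2.le
  have k1 : ρ * (1 / 4 / ρ - 1) = 1 / 4 - ρ := by field_simp
  have k2 : (1 - ρ) * (3 / 4 / (1 - ρ) - 1) = 3 / 4 - (1 - ρ) := by field_simp
  rw [e1, k1] at j1
  rw [e2, k2] at j2
  unfold FF Real.binEntropy
  rw [Real.log_inv, Real.log_inv, e4]
  nlinarith

/-- concentration -/
theorem concentration {η : ℝ} (hη : 0 < η) : ∃ c : ℝ, 0 < c ∧ ∃ k₀ : ℕ, ∀ k : ℕ, k₀ ≤ k →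
    ({n : ℕ | IsLeast {j : ℕ | fT^[j] n = 1} k ∧
      η < |(k : ℝ) / Real.log n - 4 / Real.log (16 / 3)|}.ncard : ℝ) ≤
      Real.exp (-(c * k)) * ({n : ℕ | IsLeast {j : ℕ | fT^[j] n = 1} k}.ncard : ℝ) := by
  have hl3 : 0 < Real.log 3 := Real.log_pos (by norm_num)
  have hl2 : 0 < Real.log 2 := Real.log_pos (by norm_num)
  have hl23 : Real.log 2 < Real.log 3 := Real.log_lt_log (by norm_num) (by norm_num)
  have e16 : Real.log (16 / 3) = 4 * Real.log 2 - Real.log 3 := by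
    rw [Real.log_div (by norm_num) (by norm_num), show (16 : ℝ) = 2 ^ 4 by norm_num, Real.log_pow]
    norm_num
  have h16 : 0 < Real.log (16 / 3) := Real.log_pos (by norm_num)
  set a : ℝ := 4 / Real.log (16 / 3) with ha
  have ha0 : 0 < a := by positivity
  -- the typical ratio
  set t : ℝ := Real.log 2 - 1 / 4 * Real.log 3 with ht
  have hta : a * t = 1 := by
    rw [ha, ht, e16]
    rw [e16] at h16
    field_simp
  have ht0 : 0 < t := by
    rw [ht]
    rw [e16] at h16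
    linarith
  -- the deviation of the frequency
  set κ : ℝ := η * t / (a + η) with hκ
  have hκ0 : 0 < κ := by positivity
  set d : ℝ := min (κ / Real.log 3) (1 / 12) with hd
  have hd0 : 0 < d := lt_min (by positivity) (by norm_num)
  have hd1 : d * Real.log 3 ≤ κ := by
    have : d ≤ κ / Real.log 3 := min_le_left _ _
    rwa [le_div_iff₀ hl3] at this
  have hd2 : d ≤ 1 / 12 := min_le_right _ _
  set M : ℝ := max (FF (1 / 4 + d)) (FF (1 / 4 - d)) with hM
  have hMlt : M < Real.log (4 / 3) := max_lt (FF_lt (by linarith) (by linarith) (by linarith))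
    (FF_lt (by linarith) (by linarith) (by linarith))
  set g : ℝ := (Real.log (4 / 3) - M) / 4 with hg
  have hg0 : 0 < g := by
    rw [hg]
    linarith
  obtain ⟨k₁, hk₁⟩ := small_upper (show 1 / 4 ≤ 1 / 4 + d by linarith) (by linarith) hg0
  obtain ⟨k₂, hk₂⟩ := large_upper (show 0 < 1 / 4 - d by linarith) (by linarith) hg0
  obtain ⟨k₃, hk₃⟩ := level_lower (r := 1 / 4) (by norm_num) (by norm_num) (by
    rw [FF_quarter]
    exact Real.log_pos (by norm_num)) hg0
  obtain ⟨k₄, hk₄⟩ := exists_nat_ge (Real.log 2 / g)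
  refine ⟨g, hg0, max 1 (max k₁ (max k₂ (max k₃ k₄))), fun k hk => ?_⟩
  have hkk1 : 1 ≤ k := (le_max_left _ _).trans hk
  have hkk2 : k₁ ≤ k := ((le_max_left _ _).trans (le_max_right _ _)).trans hk
  have hkk3 : k₂ ≤ k := (((le_max_left _ _).trans (le_max_right _ _)).trans
    (le_max_right _ _)).trans hk
  have hkk4 : k₃ ≤ k := ((((le_max_left _ _).trans (le_max_right _ _)).trans
    (le_max_right _ _)).trans (le_max_right _ _)).trans hk
  have hkk5 : k₄ ≤ k := ((((le_max_right _ _).trans (le_max_right _ _)).trans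
    (le_max_right _ _)).trans (le_max_right _ _)).trans hk
  have hkn : (1 : ℝ) ≤ k := by exact_mod_cast hkk1
  have hkn0 : (0 : ℝ) ≤ k := by linarith
  have hu1 := hk₁ k hkk2
  have hu2 := hk₂ k hkk3
  obtain ⟨o, _, hl⟩ := hk₃ k hkk4
  rw [FF_quarter] at hl
  have hlog2 : Real.log 2 ≤ g * k := by
    have : Real.log 2 / g ≤ k := hk₄.trans (by exact_mod_cast hkk5)
    rw [div_le_iff₀ hg0] at this
    linarith
  have hlev : Real.exp ((Real.log (4 / 3) - g) * k) ≤
      ({n : ℕ | IsLeast {j : ℕ | fT^[j] n = 1} k}.ncard : ℝ) := by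
    refine hl.trans ?_
    have hsub0 : Lv k o ⊆ {n : ℕ | IsLeast {j : ℕ | fT^[j] n = 1} k} := fun n hn => hn.2.1
    exact_mod_cast Set.ncard_le_ncard hsub0 (Lev_finite k)
  set S : Set ℕ := {n : ℕ | IsLeast {j : ℕ | fT^[j] n = 1} k ∧
      η < |(k : ℝ) / Real.log n - a|} with hS
  have hsub : S ⊆ Small k (Real.log 2 - (1 / 4 + d) * Real.log 3) ∪
      Large k (Real.log 2 - (1 / 4 - d) * Real.log 3) := by
    rintro n ⟨hn1, hn2⟩
    have hn0 := pos_of_least hn1
    have hn3 : 2 ≤ n := by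
      by_contra hlt
      have h1 : n = 1 := by omega
      subst h1
      have := hn1.2 (show (0 : ℕ) ∈ {j : ℕ | fT^[j] 1 = 1} from rfl)
      omega
    have hlog : 0 < Real.log n := Real.log_pos (by exact_mod_cast hn3)
    rcases lt_abs.1 hn2 with h | h
    · -- `k` is large compared with `log n`
      left
      refine ⟨hn1, ?_⟩
      have h5 : (a + η) * Real.log n < k := by
        have : a + η < (k : ℝ) / Real.log n := by linarith
        rwa [lt_div_iff₀ hlog] at this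
      have h6 : (t - κ) * (a + η) = 1 := by
        rw [hκ]
        have : a + η ≠ 0 := by positivity
        field_simp
        linarith
      have h7 : Real.log n ≤ (t - κ) * k := by
        have h8 : Real.log n * (a + η) ≤ (t - κ) * k * (a + η) := by
          have : (t - κ) * k * (a + η) = k * ((t - κ) * (a + η)) := by ring
          rw [this, h6]
          linarith
        exact le_of_mul_le_mul_right h8 (by positivity)
      have h9 : (t - κ) * k ≤ (Real.log 2 - (1 / 4 + d) * Real.log 3) * k := by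
        apply mul_le_mul_of_nonneg_right _ hkn0
        rw [ht]
        linarith
      linarith
    · right
      refine ⟨hn1, ?_⟩
      have h5 : (k : ℝ) < (a - η) * Real.log n := by
        have : (k : ℝ) / Real.log n < a - η := by linarith
        rwa [div_lt_iff₀ hlog] at this
      have haη : 0 < a - η := by
        by_contra hcon
        have : (a - η) * Real.log n ≤ 0 := mul_nonpos_of_nonpos_of_nonneg (not_lt.1 hcon) hlog.le
        linarith
      have h6 : (t + κ) * (a - η) ≤ 1 := by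
        have e : (t + κ) * (a - η) = a * t - η * t + κ * (a - η) := by ring
        rw [e, hta]
        have h7 : κ * (a - η) ≤ κ * (a + η) := mul_le_mul_of_nonneg_left (by linarith) hκ0.le
        have h8 : κ * (a + η) = η * t := by
          rw [hκ]
          have : a + η ≠ 0 := by positivity
          field_simp
        linarith
      have h7 : (t + κ) * k ≤ Real.log n := by
        have h8 : (t + κ) * k ≤ (t + κ) * ((a - η) * Real.log n) :=
          mul_le_mul_of_nonneg_left h5.le (by positivity)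
        have h9 : (t + κ) * ((a - η) * Real.log n) = (t + κ) * (a - η) * Real.log n := by ring
        have h10 : (t + κ) * (a - η) * Real.log n ≤ 1 * Real.log n :=
          mul_le_mul_of_nonneg_right h6 hlog.le
        linarith
      have h9 : (Real.log 2 - (1 / 4 - d) * Real.log 3) * k ≤ (t + κ) * k := by
        apply mul_le_mul_of_nonneg_right _ hkn0
        rw [ht]
        linarith
      linarith
  have hfin1 : (Small k (Real.log 2 - (1 / 4 + d) * Real.log 3)).Finite :=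
    (Lev_finite k).subset fun n hn => hn.1
  have hfin2 : (Large k (Real.log 2 - (1 / 4 - d) * Real.log 3)).Finite :=
    (Lev_finite k).subset fun n hn => hn.1
  have hcard : (S.ncard : ℝ) ≤ Real.exp ((M + g) * k) + Real.exp ((M + g) * k) := by
    have h5 : S.ncard ≤ (Small k (Real.log 2 - (1 / 4 + d) * Real.log 3)).ncard +
        (Large k (Real.log 2 - (1 / 4 - d) * Real.log 3)).ncard :=
      (Set.ncard_le_ncard hsub (hfin1.union hfin2)).trans (Set.ncard_union_le _ _)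
    have h6 : (S.ncard : ℝ) ≤ ((Small k (Real.log 2 - (1 / 4 + d) * Real.log 3)).ncard : ℝ) +
        ((Large k (Real.log 2 - (1 / 4 - d) * Real.log 3)).ncard : ℝ) := by exact_mod_cast h5
    refine h6.trans (add_le_add (hu1.trans ?_) (hu2.trans ?_))
    · apply Real.exp_le_exp.2
      apply mul_le_mul_of_nonneg_right _ hkn0
      have : FF (1 / 4 + d) ≤ M := le_max_left _ _
      linarith
    · apply Real.exp_le_exp.2
      apply mul_le_mul_of_nonneg_right _ hkn0
      have : FF (1 / 4 - d) ≤ M := le_max_right _ _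
      linarith
  refine hcard.trans (le_trans ?_ (mul_le_mul_of_nonneg_left hlev (Real.exp_pos _).le))
  rw [← Real.exp_add]
  have h20 : Real.exp ((M + g) * k) + Real.exp ((M + g) * k) =
      Real.exp (Real.log 2 + (M + g) * k) := by
    rw [Real.exp_add, Real.exp_log (by norm_num)]
    ring
  rw [h20]
  apply Real.exp_le_exp.2
  have h21 : Real.log (4 / 3) = M + 4 * g := by
    rw [hg]
    ring
  rw [h21]
  nlinarith

/-- all the results on the levels -/
theorem main_levels :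
    (∀ t : ℝ, Real.log (8 / 3) / 3 ≤ t → t ≤ Real.log (16 / 3) / 4 → ∀ ε : ℝ, 0 < ε →
      ∃ k₀ : ℕ, ∀ k : ℕ, k₀ ≤ k →
        Real.exp ((t - rate t - ε) * k) ≤ ((Small k t).ncard : ℝ) ∧
        ((Small k t).ncard : ℝ) ≤ Real.exp ((t - rate t + ε) * k)) ∧
    (∀ t : ℝ, Real.log (16 / 3) / 4 ≤ t → t < Real.log 2 → ∀ ε : ℝ, 0 < ε →
      ∃ k₀ : ℕ, ∀ k : ℕ, k₀ ≤ k →
        Real.exp ((t - rate t - ε) * k) ≤ ((Large k t).ncard : ℝ) ∧
        ((Large k t).ncard : ℝ) ≤ Real.exp ((t - rate t + ε) * k)) := by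
  have hl3 : 0 < Real.log 3 := Real.log_pos (by norm_num)
  have e16 : Real.log (16 / 3) = 4 * Real.log 2 - Real.log 3 := by
    rw [Real.log_div (by norm_num) (by norm_num), show (16 : ℝ) = 2 ^ 4 by norm_num, Real.log_pow]
    norm_num
  have key : ∀ t : ℝ, ∃ ρ : ℝ, t = Real.log 2 - ρ * Real.log 3 := by
    intro t
    refine ⟨(Real.log 2 - t) / Real.log 3, ?_⟩
    field_simp
    ring
  have key2 : ∀ ρ : ℝ, 0 < ρ → ρ < 1 → (Real.log 2 - ρ * Real.log 3) -
      rate (Real.log 2 - ρ * Real.log 3) = FF ρ := by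
    intro ρ h0 h1
    rw [rate_eq h0 h1]
    unfold FF
    ring
  constructor
  · intro t h1 h2 ε hε
    obtain ⟨ρ, rfl⟩ := key t
    have hρ1 : ρ ≤ 1 / 3 := by
      rw [log83] at h1
      have : ρ * Real.log 3 ≤ 1 / 3 * Real.log 3 := by linarith
      exact le_of_mul_le_mul_right this hl3
    have hρ0 : 1 / 4 ≤ ρ := by
      rw [e16] at h2
      have : 1 / 4 * Real.log 3 ≤ ρ * Real.log 3 := by linarith
      exact le_of_mul_le_mul_right this hl3
    rw [key2 ρ (by linarith) (by linarith)]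
    obtain ⟨k₁, hk₁⟩ := small_lower hρ0 hρ1 hε
    obtain ⟨k₂, hk₂⟩ := small_upper hρ0 hρ1 hε
    exact ⟨max k₁ k₂, fun k hk => ⟨hk₁ k ((le_max_left _ _).trans hk),
      hk₂ k ((le_max_right _ _).trans hk)⟩⟩
  · intro t h1 h2 ε hε
    obtain ⟨ρ, rfl⟩ := key t
    have hρ0 : 0 < ρ := by
      have : 0 < ρ * Real.log 3 := by linarith
      exact pos_of_mul_pos_left this hl3.le
    have hρ1 : ρ ≤ 1 / 4 := by
      rw [e16] at h1
      have : ρ * Real.log 3 ≤ 1 / 4 * Real.log 3 := by linarith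
      exact le_of_mul_le_mul_right this hl3
    rw [key2 ρ hρ0 (by linarith)]
    obtain ⟨k₁, hk₁⟩ := large_lower hρ0 hρ1 hε
    obtain ⟨k₂, hk₂⟩ := large_upper hρ0 hρ1 hε
    exact ⟨max k₁ k₂, fun k hk => ⟨hk₁ k ((le_max_left _ _).trans hk),
      hk₂ k ((le_max_right _ _).trans hk)⟩⟩

end Pool.Agent.Y966.LD
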