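import Pool.Agent.Y966.LD.Main2

/-!
The level sets of the number of steps of the Collatz map (`3 n + 1` or `n / 2`).
-/

set_option autoImplicit false
set_option linter.unusedVariables false

namespace Pool.Agent.Y966.LD

open Finset Filter Topology Pool.Agent.H395R2.G3

/-- the Collatz map -/
def fC (n : ℕ) : ℕ := if n % 2 = 0 then n / 2 else 3 * n + 1

theorem isLeast_succ (f : ℕ → ℕ) (n L : ℕ) : IsLeast {j : ℕ | f^[j] n = 1} (L + 1) ↔
    n ≠ 1 ∧ IsLeast {j : ℕ | f^[j] (f n) = 1} L := by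
  constructor
  · intro h
    refine ⟨?_, ?_, ?_⟩
    · rintro rfl
      have := h.2 (show (0 : ℕ) ∈ {j : ℕ | f^[j] 1 = 1} from rfl)
      omega
    · have h1 : f^[L + 1] n = 1 := h.1
      rwa [Function.iterate_succ_apply] at h1
    · intro j hj
      have h1 : f^[j + 1] n = 1 := by
        rw [Function.iterate_succ_apply]
        exact hj
      have := h.2 (show j + 1 ∈ {j : ℕ | f^[j] n = 1} from h1)
      omega
  · rintro ⟨hn, h⟩
    refine ⟨?_, ?_⟩
    · change f^[L + 1] n = 1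
      rw [Function.iterate_succ_apply]
      exact h.1
    · intro j hj
      have hj' : f^[j] n = 1 := hj
      cases j with
      | zero => exact absurd hj' hn
      | succ j =>
        rw [Function.iterate_succ_apply] at hj'
        have := h.2 (show j ∈ {j : ℕ | f^[j] (f n) = 1} from hj')
        omega

theorem isLeast_zero (f : ℕ → ℕ) (n : ℕ) : IsLeast {j : ℕ | f^[j] n = 1} 0 ↔ n = 1 := by
  constructor
  · intro h
    exact h.1
  · rintro rfl
    exact ⟨rfl, fun j _ => Nat.zero_le j⟩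

theorem fC_even {n : ℕ} (h : n % 2 = 0) : fC n = fT n := by
  unfold fC fT
  rw [if_pos h, if_pos h]

theorem fC_odd {n : ℕ} (h : n % 2 = 1) : fC n = 3 * n + 1 ∧ fC (3 * n + 1) = fT n := by
  unfold fC fT
  rw [if_neg (by omega), if_pos (by omega), if_neg (by omega)]
  exact ⟨rfl, rfl⟩

theorem C_of_T (k : ℕ) : ∀ n : ℕ, IsLeast {j : ℕ | fT^[j] n = 1} k →
    IsLeast {j : ℕ | fC^[j] n = 1} (k + oN k n) := by
  induction k with
  | zero =>
    intro n h
    rw [isLeast_zero] at h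
    rw [oN_zero, Nat.add_zero, isLeast_zero]
    exact h
  | succ k ih =>
    intro n h
    rw [isLeast_succ] at h
    obtain ⟨hn, h⟩ := h
    have h1 := ih _ h
    rw [oN_succ']
    rcases Nat.mod_two_eq_zero_or_one n with he | ho
    · rw [if_neg (by omega), show k + 1 + (0 + oN k (fT n)) = (k + oN k (fT n)) + 1 by ring,
        isLeast_succ, fC_even he]
      exact ⟨hn, h1⟩
    · obtain ⟨h2, h3⟩ := fC_odd ho
      rw [if_pos ho, show k + 1 + (1 + oN k (fT n)) = (k + oN k (fT n)) + 1 + 1 by ring,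
        isLeast_succ, h2, isLeast_succ, h3]
      exact ⟨hn, by omega, h1⟩

theorem T_of_C (L : ℕ) : ∀ n : ℕ, IsLeast {j : ℕ | fC^[j] n = 1} L →
    ∃ k : ℕ, IsLeast {j : ℕ | fT^[j] n = 1} k ∧ k + oN k n = L := by
  induction L using Nat.strong_induction_on with
  | _ L ih =>
    intro n h
    cases L with
    | zero =>
      rw [isLeast_zero] at h
      exact ⟨0, (isLeast_zero _ _).2 h, by rw [oN_zero]⟩
    | succ L =>
      rw [isLeast_succ] at h
      obtain ⟨hn, h⟩ := h
      rcases Nat.mod_two_eq_zero_or_one n with he | ho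
      · rw [fC_even he] at h
        obtain ⟨k, hk, hL⟩ := ih L (by omega) _ h
        refine ⟨k + 1, (isLeast_succ _ _ _).2 ⟨hn, hk⟩, ?_⟩
        rw [oN_succ', if_neg (by omega)]
        omega
      · obtain ⟨h2, h3⟩ := fC_odd ho
        rw [h2] at h
        cases L with
        | zero =>
          rw [isLeast_zero] at h
          omega
        | succ L =>
          rw [isLeast_succ, h3] at h
          obtain ⟨k, hk, hL⟩ := ih L (by omega) _ h.2
          refine ⟨k + 1, (isLeast_succ _ _ _).2 ⟨hn, hk⟩, ?_⟩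
          rw [oN_succ', if_pos ho]
          omega

/-- the numbers with exactly `L` Collatz steps before reaching `1` -/
def CL (L : ℕ) : Set ℕ := {n : ℕ | IsLeast {j : ℕ | fC^[j] n = 1} L}

theorem mem_CL {n L : ℕ} (h : n ∈ CL L) : ∃ o : ℕ, o ≤ L ∧ n ∈ Lv (L - o) o := by
  obtain ⟨k, hk, hL⟩ := T_of_C L n h
  refine ⟨oN k n, by omega, ?_⟩
  have : L - oN k n = k := by omega
  rw [this]
  exact mem_Lv_of_lev hk

theorem Lv_sub_CL {k o : ℕ} : Lv k o ⊆ CL (k + o) := by
  rintro n ⟨h1, h2, h3⟩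
  have := C_of_T k n h2
  rw [h3] at this
  exact this

theorem CL_finite (L : ℕ) : (CL L).Finite := by
  refine (ncard_le_sum (range (L + 1)) (fun o => Lv (L - o) o) (fun o _ => (Lv_fin _ o).1)
    (CL L) ?_).1
  intro n hn
  obtain ⟨o, ho, hn'⟩ := mem_CL hn
  exact ⟨o, mem_range.2 (by omega), hn'⟩

/-- the general upper bound on the levels of the Collatz map -/
theorem core3 {κ z : ℝ} (h0 : 2 / 3 < z) (h1 : z < 1) {c₀ : ℝ} (hc₀ : 0 ≤ c₀) {ε : ℝ} (hε : 0 < ε) :
    ∃ L₀ : ℕ, ∀ L : ℕ, L₀ ≤ L → ∀ S : Set ℕ, (∀ n ∈ S, ∃ o : ℕ, o ≤ L ∧ n ∈ Lv (L - o) o ∧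
      (o : ℝ) * (-Real.log (3 * (1 - z) / z) + Real.log z) ≤
        κ * L * (-Real.log (3 * (1 - z) / z) + Real.log z) + c₀ * Real.log (L + 1)) →
      (S.ncard : ℝ) ≤ Real.exp
        ((-Real.log z + κ * (-Real.log (3 * (1 - z) / z) + Real.log z) + ε) * L) := by
  obtain ⟨C, hC, hup⟩ := Lv_upper h0 h1 (show 0 < ε / 3 by positivity)
  obtain ⟨K', hK'0, hK'⟩ := log_lin (show 0 < ε / (3 * (1 + c₀)) by positivity)
  obtain ⟨k₀, hk₀⟩ := exists_nat_ge (3 * ((1 + c₀) * K' + |Real.log C|) / ε)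
  refine ⟨k₀, fun L hL S hS => ?_⟩
  have hL' : 3 * ((1 + c₀) * K' + |Real.log C|) / ε ≤ L := hk₀.trans (by exact_mod_cast hL)
  have hLn : (0 : ℝ) ≤ L := Nat.cast_nonneg L
  set b : ℝ := -Real.log (3 * (1 - z) / z) with hb
  classical
  set F : Finset ℕ := (range (L + 1)).filter fun o =>
    (o : ℝ) * (b + Real.log z) ≤ κ * L * (b + Real.log z) + c₀ * Real.log (L + 1) with hF
  have hcov : ∀ n ∈ S, ∃ o ∈ F, n ∈ Lv (L - o) o := by
    intro n hn
    obtain ⟨o, ho, hn1, hn2⟩ := hS n hn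
    refine ⟨o, ?_, hn1⟩
    rw [hF, mem_filter, mem_range]
    exact ⟨by omega, hn2⟩
  have hncard := (ncard_le_sum F (fun o => Lv (L - o) o) (fun o _ => (Lv_fin _ o).1) S hcov).2
  have hncard' : (S.ncard : ℝ) ≤ ∑ o ∈ F, ((Lv (L - o) o).ncard : ℝ) := by exact_mod_cast hncard
  set B : ℝ := C * Real.exp (ε / 3 * L + (L * (-Real.log z) +
    (κ * L * (b + Real.log z) + c₀ * Real.log (L + 1)))) with hB
  have hB0 : 0 ≤ B := by positivity
  have hterm : ∀ o ∈ F, ((Lv (L - o) o).ncard : ℝ) ≤ B := by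
    intro o ho
    rw [hF, mem_filter, mem_range] at ho
    refine (hup (L - o) o).trans ?_
    apply mul_le_mul_of_nonneg_left _ hC.le
    apply Real.exp_le_exp.2
    have hoL : o ≤ L := by omega
    rw [Nat.cast_sub hoL]
    have ho0 : (0 : ℝ) ≤ o := Nat.cast_nonneg o
    have h5 : ε / 3 * ((L : ℝ) - o) ≤ ε / 3 * L := by
      apply mul_le_mul_of_nonneg_left _ (by positivity)
      linarith
    have h6 : ((L : ℝ) - o) * (-Real.log z) + o * b = L * (-Real.log z) + o * (b + Real.log z) := by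
      ring
    linarith [ho.2]
  have hsum : ∑ o ∈ F, ((Lv (L - o) o).ncard : ℝ) ≤ ((L : ℝ) + 1) * B := by
    calc ∑ o ∈ F, ((Lv (L - o) o).ncard : ℝ) ≤ ∑ o ∈ F, B := sum_le_sum hterm
      _ = F.card * B := by rw [sum_const, nsmul_eq_mul]
      _ ≤ ((L : ℝ) + 1) * B := by
          apply mul_le_mul_of_nonneg_right _ hB0
          have : F.card ≤ L + 1 := by
            refine (card_filter_le _ _).trans ?_
            rw [card_range]
          exact_mod_cast this
  refine hncard'.trans (hsum.trans ?_)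
  have hK1 : (0 : ℝ) < (L : ℝ) + 1 := by positivity
  have e3 : ((L : ℝ) + 1) * B = Real.exp (Real.log ((L : ℝ) + 1) + (Real.log C +
      (ε / 3 * L + (L * (-Real.log z) +
        (κ * L * (b + Real.log z) + c₀ * Real.log (L + 1)))))) := by
    rw [Real.exp_add, Real.exp_add, Real.exp_log hK1, Real.exp_log hC, hB]
  rw [e3]
  apply Real.exp_le_exp.2
  have h10 := hK' L hLn
  have h13 : (1 + c₀) * Real.log ((L : ℝ) + 1) ≤ ε / 3 * L + (1 + c₀) * K' := by
    have h11 : (1 + c₀) * Real.log ((L : ℝ) + 1) ≤ (1 + c₀) * (ε / (3 * (1 + c₀)) * L + K') :=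
      mul_le_mul_of_nonneg_left h10 (by positivity)
    have h12 : (1 + c₀) * (ε / (3 * (1 + c₀)) * L + K') = ε / 3 * L + (1 + c₀) * K' := by
      field_simp
    linarith
  have h15 : (1 + c₀) * K' + |Real.log C| ≤ ε / 3 * L := by
    rw [div_le_iff₀ hε] at hL'
    linarith
  have h16 := le_abs_self (Real.log C)
  nlinarith

/-- the growth constant -/
noncomputable def lam : ℝ := (3 + Real.sqrt 21) / 6

theorem sqrt21 : Real.sqrt 21 ^ 2 = 21 := Real.sq_sqrt (by norm_num)

theorem lam_eq : 3 * lam * (lam - 1) = 1 := by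
  unfold lam
  have := sqrt21
  nlinarith

theorem sqrt21_bounds : 4.58 < Real.sqrt 21 ∧ Real.sqrt 21 < 4.59 := by
  constructor
  · rw [Real.lt_sqrt (by norm_num)]
    norm_num
  · rw [Real.sqrt_lt' (by norm_num)]
    norm_num

theorem lam_bounds : 1.263 < lam ∧ lam < 1.265 := by
  unfold lam
  have := sqrt21_bounds
  constructor <;> linarith

/-- the typical frequency of odd terms -/
noncomputable def r0 : ℝ := 1 - 1 / lam

theorem r0_bounds : 0.208 < r0 ∧ r0 < 0.21 := by
  unfold r0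
  obtain ⟨h1, h2⟩ := lam_bounds
  have hl : 0 < lam := by linarith
  constructor
  · have : 1 / lam < 0.792 := by
      rw [div_lt_iff₀ hl]
      linarith
    linarith
  · have : 0.79 < 1 / lam := by
      rw [lt_div_iff₀ hl]
      linarith
    linarith

theorem lam_theta : 3 * (1 - 1 / lam) / (1 / lam) = 1 / lam := by
  have hl : 0 < lam := by linarith [lam_bounds.1]
  have := lam_eq
  field_simp
  linarith

/-- Gibbs inequality -/
theorem gibbs {ρ r : ℝ} (h0 : 0 < ρ) (h1 : ρ < 1) (g0 : 0 < r) (g1 : r < 1) (hne : ρ ≠ r) :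
    Real.binEntropy ρ < -(ρ * Real.log r) - (1 - ρ) * Real.log (1 - r) := by
  have h2 : 0 < 1 - ρ := by linarith
  have g2 : 0 < 1 - r := by linarith
  have e1 : Real.log (r / ρ) = Real.log r - Real.log ρ := Real.log_div g0.ne' h0.ne'
  have e2 : Real.log ((1 - r) / (1 - ρ)) = Real.log (1 - r) - Real.log (1 - ρ) :=
    Real.log_div g2.ne' h2.ne'
  have i1 : Real.log (r / ρ) < r / ρ - 1 := by
    apply Real.log_lt_sub_one_of_pos (by positivity)
    intro h
    rw [div_eq_one_iff_eq h0.ne'] at h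
    exact hne h.symm
  have i2 := Real.log_le_sub_one_of_pos (show 0 < (1 - r) / (1 - ρ) by positivity)
  have j1 : ρ * Real.log (r / ρ) < ρ * (r / ρ - 1) := mul_lt_mul_of_pos_left i1 h0
  have j2 := mul_le_mul_of_nonneg_left i2 h2.le
  have k1 : ρ * (r / ρ - 1) = r - ρ := by field_simp
  have k2 : (1 - ρ) * ((1 - r) / (1 - ρ) - 1) = (1 - r) - (1 - ρ) := by field_simp
  rw [e1, k1] at j1
  rw [e2, k2] at j2
  unfold Real.binEntropy
  rw [Real.log_inv, Real.log_inv]
  nlinarith

theorem log_lam : Real.log (1 - r0) = -Real.log lam ∧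
    Real.log r0 = -Real.log 3 - 2 * Real.log lam := by
  have hl : 0 < lam := by linarith [lam_bounds.1]
  constructor
  · unfold r0
    rw [show 1 - (1 - 1 / lam) = lam⁻¹ by rw [one_div]; ring, Real.log_inv]
  · have : r0 = (3 * lam ^ 2)⁻¹ := by
      unfold r0
      have := lam_eq
      field_simp
      nlinarith
    rw [this, Real.log_inv, Real.log_mul (by norm_num) (by positivity), Real.log_pow]
    push_cast
    ring

theorem FF_r0 : FF r0 = (1 + r0) * Real.log lam := by
  obtain ⟨h1, h2⟩ := log_lam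
  unfold FF Real.binEntropy
  rw [Real.log_inv, Real.log_inv, h1, h2]
  ring

theorem FF_lt_r0 {ρ : ℝ} (h0 : 0 < ρ) (h1 : ρ < 1) (hne : ρ ≠ r0) :
    FF ρ < (1 + ρ) * Real.log lam := by
  have := gibbs h0 h1 (show 0 < r0 by linarith [r0_bounds.1])
    (show r0 < 1 by linarith [r0_bounds.2]) hne
  obtain ⟨g1, g2⟩ := log_lam
  rw [g1, g2] at this
  unfold FF
  linarith

end Pool.Agent.Y966.LD
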