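import Pool.Agent.Y966.LD.Main3

/-!
Growth of the level sets of the Collatz map, and concentration.
-/

set_option autoImplicit false
set_option linter.unusedVariables false

namespace Pool.Agent.Y966.LD

open Finset Filter Topology Pool.Agent.H395R2.G3

theorem FF_lt_one {ρ : ℝ} (h0 : 0 < ρ) : FF ρ < 1 := by
  have h1 := Real.binEntropy_le_log_two (p := ρ)
  have h2 := Real.log_two_lt_d9
  have h3 : 0 < Real.log 3 := Real.log_pos (by norm_num)
  unfold FF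
  have : 0 < ρ * Real.log 3 := by positivity
  norm_num at h2
  linarith

/-- lower bound on the levels of the Collatz map -/
theorem cl_lower {r : ℝ} (h0 : 0 < r) (h1 : r < 1) (hF : 0 < FF r) {δ : ℝ} (hδ : 0 < δ)
    (hδ1 : δ ≤ 1) :
    ∃ L₀ : ℕ, ∀ L : ℕ, L₀ ≤ L → ∃ o : ℕ, o ≤ L ∧ |(o : ℝ) - r / (1 + r) * L| ≤ δ * L ∧
      Real.exp ((FF r / (1 + r) - δ) * L) ≤ ((Lv (L - o) o).ncard : ℝ) := by
  obtain ⟨k₀, hk₀⟩ := level_lower h0 h1 hF (show 0 < δ / 4 by positivity)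
  set c : ℝ := 1 + r + δ / 4 with hc
  have hc0 : 0 < c := by positivity
  have hc3 : c ≤ 3 := by
    rw [hc]
    linarith
  obtain ⟨L₁, hL₁⟩ := exists_nat_ge (max (c * (k₀ + 1)) (6 / δ))
  refine ⟨L₁, fun L hL => ?_⟩
  have hL' : (L₁ : ℝ) ≤ L := by exact_mod_cast hL
  have hLa : c * (k₀ + 1) ≤ L := (le_max_left _ _).trans (hL₁.trans hL')
  have hLb : 6 ≤ δ * L := by
    have h5 : 6 / δ ≤ L := (le_max_right _ _).trans (hL₁.trans hL')
    rw [div_le_iff₀ hδ] at h5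
    linarith
  have hLn : (0 : ℝ) ≤ L := Nat.cast_nonneg L
  set k : ℕ := ⌊(L : ℝ) / c⌋₊ with hk
  have hk1 : (k : ℝ) * c ≤ L := by
    rw [← le_div_iff₀ hc0]
    exact Nat.floor_le (by positivity)
  have hk2 : (L : ℝ) < (k + 1) * c := by
    rw [← div_lt_iff₀ hc0]
    exact Nat.lt_floor_add_one _
  have hk3 : k₀ ≤ k := by
    have h5 : ((k₀ : ℝ) + 1) * c < (k + 1) * c := by linarith
    have h6 := lt_of_mul_lt_mul_right h5 hc0.le
    have : (k₀ : ℝ) < k := by linarith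
    exact_mod_cast this.le
  obtain ⟨o, ho1, ho2⟩ := hk₀ k hk3
  have hkn : (0 : ℝ) ≤ k := Nat.cast_nonneg k
  obtain ⟨ho3, ho4⟩ := abs_le.1 ho1
  have hkL : (k : ℝ) ≤ L := by
    have h5 : (k : ℝ) * 1 ≤ k * c := mul_le_mul_of_nonneg_left (by rw [hc]; linarith) hkn
    linarith
  have hko : (k : ℝ) + o ≤ L := by
    have h5 : (k : ℝ) * c = k + r * k + δ / 4 * k := by
      rw [hc]
      ring
    linarith
  have hko' : k + o ≤ L := by exact_mod_cast hko
  have hu : 0 < 1 + r := by linarith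
  have hδk : δ / 4 * k ≤ δ / 4 * L := mul_le_mul_of_nonneg_left hkL (by positivity)
  have hku : (k : ℝ) * (1 + r) ≤ L := by
    have h5 : (k : ℝ) * c = k * (1 + r) + δ / 4 * k := by
      rw [hc]
      ring
    have : 0 ≤ δ / 4 * k := by positivity
    linarith
  have hku2 : (L : ℝ) - 3 - δ / 4 * L ≤ k * (1 + r) := by
    have h5 : ((k : ℝ) + 1) * c = k * (1 + r) + δ / 4 * k + c := by
      rw [hc]
      ring
    linarith
  have hkr : (k : ℝ) * r ≤ r / (1 + r) * L := by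
    rw [div_mul_eq_mul_div, le_div_iff₀ hu]
    have : r * (k * (1 + r)) ≤ r * L := mul_le_mul_of_nonneg_left hku h0.le
    linarith
  have hkr2 : r / (1 + r) * L - 3 - δ / 4 * L ≤ k * r := by
    have h5 : r / (1 + r) * (L - 3 - δ / 4 * L) ≤ r / (1 + r) * (k * (1 + r)) :=
      mul_le_mul_of_nonneg_left hku2 (by positivity)
    have h6 : r / (1 + r) * (k * (1 + r)) = k * r := by field_simp
    have h7 : r / (1 + r) ≤ 1 := by
      rw [div_le_one hu]
      linarith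
    have h8 : 0 ≤ 3 + δ / 4 * L := by positivity
    have h9 : r / (1 + r) * (3 + δ / 4 * L) ≤ 1 * (3 + δ / 4 * L) :=
      mul_le_mul_of_nonneg_right h7 h8
    nlinarith
  refine ⟨o, by omega, ?_, ?_⟩
  · rw [abs_le]
    constructor <;> nlinarith
  · have h5 : ((Lv k o).ncard : ℝ) ≤ ((Lv (L - o) o).ncard : ℝ) := by
      exact_mod_cast Lv_mono (show k ≤ L - o by omega)
    refine le_trans (Real.exp_le_exp.2 ?_) (ho2.trans h5)
    have hF1 := FF_lt_one h0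
    have hG : FF r / (1 + r) ≤ 1 := by
      rw [div_le_one hu]
      linarith
    have hG0 : 0 ≤ FF r / (1 + r) := by positivity
    have h6 : FF r / (1 + r) * (L - 3 - δ / 4 * L) ≤ FF r / (1 + r) * (k * (1 + r)) :=
      mul_le_mul_of_nonneg_left hku2 hG0
    have h7 : FF r / (1 + r) * (k * (1 + r)) = FF r * k := by field_simp
    have h8 : 0 ≤ 3 + δ / 4 * L := by positivity
    have h9 : FF r / (1 + r) * (3 + δ / 4 * L) ≤ 1 * (3 + δ / 4 * L) :=
      mul_le_mul_of_nonneg_right hG h8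
    nlinarith

/-- upper bound for the growth -/
theorem growth_upper {ε : ℝ} (hε : 0 < ε) : ∃ L₀ : ℕ, ∀ L : ℕ, L₀ ≤ L →
    ((CL L).ncard : ℝ) ≤ Real.exp ((Real.log lam + ε) * L) := by
  have hl : 0 < lam := by linarith [lam_bounds.1]
  have hz0 : 2 / 3 < 1 / lam := by
    rw [lt_div_iff₀ hl]
    linarith [lam_bounds.2]
  have hz1 : 1 / lam < 1 := by
    rw [div_lt_one hl]
    linarith [lam_bounds.1]
  obtain ⟨L₀, hL₀⟩ := core3 (κ := 0) hz0 hz1 (c₀ := 0) le_rfl hε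
  refine ⟨L₀, fun L hL => ?_⟩
  have h := hL₀ L hL (CL L) (by
    intro n hn
    obtain ⟨o, ho, hn'⟩ := mem_CL hn
    refine ⟨o, ho, hn', ?_⟩
    rw [lam_theta]
    simp)
  refine h.trans (Real.exp_le_exp.2 ?_)
  apply mul_le_mul_of_nonneg_right _ (Nat.cast_nonneg L)
  rw [one_div, Real.log_inv]
  linarith

/-- lower bound for the growth -/
theorem growth_lower {ε : ℝ} (hε : 0 < ε) : ∃ L₀ : ℕ, ∀ L : ℕ, L₀ ≤ L →
    Real.exp ((Real.log lam - ε) * L) ≤ ((CL L).ncard : ℝ) := by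
  obtain ⟨h1, h2⟩ := r0_bounds
  have hr0 : 0 < r0 := by linarith
  have hlog : 0 < Real.log lam := Real.log_pos (by linarith [lam_bounds.1])
  have hF : 0 < FF r0 := by
    rw [FF_r0]
    positivity
  obtain ⟨L₀, hL₀⟩ := cl_lower hr0 (by linarith) hF (show 0 < min ε 1 from lt_min hε one_pos)
    (min_le_right _ _)
  refine ⟨L₀, fun L hL => ?_⟩
  obtain ⟨o, ho, _, h3⟩ := hL₀ L hL
  have hsub : Lv (L - o) o ⊆ CL L := by
    have := Lv_sub_CL (k := L - o) (o := o)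
    rwa [Nat.sub_add_cancel ho] at this
  have h4 : ((Lv (L - o) o).ncard : ℝ) ≤ ((CL L).ncard : ℝ) := by
    exact_mod_cast Set.ncard_le_ncard hsub (CL_finite L)
  refine le_trans (Real.exp_le_exp.2 ?_) (h3.trans h4)
  apply mul_le_mul_of_nonneg_right _ (Nat.cast_nonneg L)
  have h5 : FF r0 / (1 + r0) = Real.log lam := by
    rw [FF_r0]
    field_simp
  rw [h5]
  linarith [min_le_left ε 1]

theorem tilt_sign {ρ : ℝ} (h0 : 0 < ρ) (h1 : ρ < 1) :
    -Real.log (3 * (1 - (1 - ρ)) / (1 - ρ)) + Real.log (1 - ρ) =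
      -Real.log (3 * ρ / (1 - ρ) ^ 2) := by
  have h2 : 0 < 1 - ρ := by linarith
  rw [show 1 - (1 - ρ) = ρ by ring, Real.log_div (by positivity) h2.ne',
    Real.log_div (by positivity) (by positivity), Real.log_pow]
  push_cast
  ring

theorem r0_eq : 3 * r0 = (1 - r0) ^ 2 := by
  have hl : 0 < lam := by linarith [lam_bounds.1]
  have := lam_eq
  unfold r0
  field_simp
  nlinarith

theorem exponent_eq {ρ : ℝ} (h0 : 0 < ρ) (h1 : ρ < 1) :
    -Real.log (1 - ρ) + ρ / (1 + ρ) * (-Real.log (3 * (1 - (1 - ρ)) / (1 - ρ)) +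
      Real.log (1 - ρ)) = FF ρ / (1 + ρ) := by
  have h2 := phi_eq h0 h1
  unfold phi at h2
  rw [← h2]
  have : 0 < 1 + ρ := by linarith
  field_simp
  ring

theorem cl_small_upper {ρ : ℝ} (h0 : r0 ≤ ρ) (h1 : ρ < 1 / 3) {ε : ℝ} (hε : 0 < ε) :
    ∃ L₀ : ℕ, ∀ L : ℕ, L₀ ≤ L → ({n : ℕ | IsLeast {j : ℕ | fC^[j] n = 1} L ∧
      Real.log n ≤ (Real.log 2 - ρ * Real.log 3) / (1 + ρ) * L}.ncard : ℝ) ≤
      Real.exp ((FF ρ / (1 + ρ) + ε) * L) := by
  have hl6 : 0 < Real.log 6 := Real.log_pos (by norm_num)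
  have e6 : Real.log 6 = Real.log 2 + Real.log 3 := by
    rw [← Real.log_mul (by norm_num) (by norm_num)]
    norm_num
  have hr0 := r0_bounds
  have hρ : 0 < ρ := by linarith
  have hρ1 : ρ < 1 := by linarith
  have hu : 0 < 1 + ρ := by linarith
  set b : ℝ := -Real.log (3 * (1 - (1 - ρ)) / (1 - ρ)) + Real.log (1 - ρ) with hb
  have hb0 : b ≤ 0 := by
    rw [hb, tilt_sign hρ hρ1]
    have : 0 ≤ Real.log (3 * ρ / (1 - ρ) ^ 2) := by
      apply Real.log_nonneg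
      rw [le_div_iff₀ (by nlinarith)]
      have := r0_eq
      nlinarith
    linarith
  obtain ⟨L₀, hL₀⟩ := core3 (z := 1 - ρ) (κ := ρ / (1 + ρ)) (by linarith) (by linarith)
    (c₀ := -b / Real.log 6) (div_nonneg (by linarith) hl6.le) hε
  refine ⟨L₀, fun L hL => ?_⟩
  have hLn : (0 : ℝ) ≤ L := Nat.cast_nonneg L
  refine (hL₀ L hL _ ?_).trans ?_
  · rintro n ⟨hn1, hn2⟩
    obtain ⟨o, ho, hn3, hn4, hn5⟩ := mem_CL hn1
    refine ⟨o, ho, ⟨hn3, hn4, hn5⟩, ?_⟩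
    rw [← hb]
    obtain ⟨hs1, hs2⟩ := log_size hn3 hn4
    rw [hn5, Nat.cast_sub ho] at hs2
    have hoL : (o : ℝ) ≤ L := by exact_mod_cast ho
    have h5 : Real.log ((o : ℝ) + 1) ≤ Real.log ((L : ℝ) + 1) :=
      Real.log_le_log (by positivity) (by linarith)
    have e7 : (Real.log 2 - ρ * Real.log 3) / (1 + ρ) = Real.log 2 - ρ / (1 + ρ) * Real.log 6 := by
      rw [e6]
      field_simp
      ring
    rw [e7] at hn2
    have h6 : (ρ / (1 + ρ) * L - Real.log ((L : ℝ) + 1) / Real.log 6) * Real.log 6 ≤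
        o * Real.log 6 := by
      have e8 : (ρ / (1 + ρ) * L - Real.log ((L : ℝ) + 1) / Real.log 6) * Real.log 6 =
          ρ / (1 + ρ) * L * Real.log 6 - Real.log ((L : ℝ) + 1) := by
        field_simp
      rw [e8, e6]
      rw [e6] at hn2
      nlinarith
    have h7 := le_of_mul_le_mul_right h6 hl6
    have h8 := mul_le_mul_of_nonpos_right h7 hb0
    have h9 : (ρ / (1 + ρ) * L - Real.log ((L : ℝ) + 1) / Real.log 6) * b =
        ρ / (1 + ρ) * L * b + -b / Real.log 6 * Real.log ((L : ℝ) + 1) := by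
      ring
    linarith
  · rw [← hb, hb, exponent_eq hρ hρ1]

theorem cl_large_upper {ρ : ℝ} (h0 : 0 < ρ) (h1 : ρ ≤ r0) {ε : ℝ} (hε : 0 < ε) :
    ∃ L₀ : ℕ, ∀ L : ℕ, L₀ ≤ L → ({n : ℕ | IsLeast {j : ℕ | fC^[j] n = 1} L ∧
      (Real.log 2 - ρ * Real.log 3) / (1 + ρ) * L ≤ Real.log n}.ncard : ℝ) ≤
      Real.exp ((FF ρ / (1 + ρ) + ε) * L) := by
  have hl6 : 0 < Real.log 6 := Real.log_pos (by norm_num)
  have e6 : Real.log 6 = Real.log 2 + Real.log 3 := by
    rw [← Real.log_mul (by norm_num) (by norm_num)]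
    norm_num
  have hr0 := r0_bounds
  have hρ1 : ρ < 1 := by linarith
  have hu : 0 < 1 + ρ := by linarith
  set b : ℝ := -Real.log (3 * (1 - (1 - ρ)) / (1 - ρ)) + Real.log (1 - ρ) with hb
  have hb0 : 0 ≤ b := by
    rw [hb, tilt_sign h0 hρ1]
    have : Real.log (3 * ρ / (1 - ρ) ^ 2) ≤ 0 := by
      apply Real.log_nonpos (by positivity)
      rw [div_le_one (by nlinarith)]
      have := r0_eq
      nlinarith
    linarith
  obtain ⟨L₀, hL₀⟩ := core3 (z := 1 - ρ) (κ := ρ / (1 + ρ)) (by linarith) (by linarith)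
    (c₀ := 0) le_rfl hε
  refine ⟨L₀, fun L hL => ?_⟩
  have hLn : (0 : ℝ) ≤ L := Nat.cast_nonneg L
  refine (hL₀ L hL _ ?_).trans ?_
  · rintro n ⟨hn1, hn2⟩
    obtain ⟨o, ho, hn3, hn4, hn5⟩ := mem_CL hn1
    refine ⟨o, ho, ⟨hn3, hn4, hn5⟩, ?_⟩
    rw [← hb]
    obtain ⟨hs1, hs2⟩ := log_size hn3 hn4
    rw [hn5, Nat.cast_sub ho] at hs1
    have e7 : (Real.log 2 - ρ * Real.log 3) / (1 + ρ) = Real.log 2 - ρ / (1 + ρ) * Real.log 6 := by
      rw [e6]
      field_simp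
      ring
    rw [e7] at hn2
    have h6 : o * Real.log 6 ≤ (ρ / (1 + ρ) * L) * Real.log 6 := by
      rw [e6]
      rw [e6] at hn2
      nlinarith
    have h7 := le_of_mul_le_mul_right h6 hl6
    have h8 := mul_le_mul_of_nonneg_right h7 hb0
    linarith
  · rw [← hb, hb, exponent_eq h0 hρ1]

end Pool.Agent.Y966.LD
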