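import Pool.Agent.Y966.LD.Main3b

/-!
Concentration inside the level sets of the Collatz map.
-/

set_option autoImplicit false
set_option linter.unusedVariables false

namespace Pool.Agent.Y966.LD

open Finset Filter Topology Pool.Agent.H395R2.G3

theorem kappa_size {κ : ℝ} (h0 : κ < 1) :
    (Real.log 2 - κ / (1 - κ) * Real.log 3) / (1 + κ / (1 - κ)) =
      Real.log 2 - κ * Real.log 6 := by
  have e6 : Real.log 6 = Real.log 2 + Real.log 3 := by
    rw [← Real.log_mul (by norm_num) (by norm_num)]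
    norm_num
  have h1 : 0 < 1 - κ := by linarith
  have h2 : 1 + κ / (1 - κ) = 1 / (1 - κ) := by
    field_simp
    ring
  rw [h2, e6]
  field_simp
  ring

theorem concentration_C {η : ℝ} (hη : 0 < η) : ∃ c : ℝ, 0 < c ∧ ∃ L₀ : ℕ, ∀ L : ℕ, L₀ ≤ L →
    ({n : ℕ | IsLeast {j : ℕ | fC^[j] n = 1} L ∧
      η < |(L : ℝ) / Real.log n - (2 * lam - 1) / (lam * Real.log 2 - (lam - 1) * Real.log 3)|}.ncard
        : ℝ) ≤
      Real.exp (-(c * L)) * ({n : ℕ | IsLeast {j : ℕ | fC^[j] n = 1} L}.ncard : ℝ) := by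
  have hl3 : 0 < Real.log 3 := Real.log_pos (by norm_num)
  have hl2 : 0 < Real.log 2 := Real.log_pos (by norm_num)
  have hl6 : 0 < Real.log 6 := Real.log_pos (by norm_num)
  have e6 : Real.log 6 = Real.log 2 + Real.log 3 := by
    rw [← Real.log_mul (by norm_num) (by norm_num)]
    norm_num
  have l2a := Real.log_two_gt_d9
  have l3b := Real.log_three_lt_d9
  norm_num at l2a l3b
  obtain ⟨hlam1, hlam2⟩ := lam_bounds
  have hlam : 0 < lam := by linarith
  obtain ⟨hr1, hr2⟩ := r0_bounds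
  have hr0 : r0 = 1 - 1 / lam := rfl
  set κ₀ : ℝ := r0 / (1 + r0) with hκ₀
  have hκa : 0.17 < κ₀ := by
    rw [hκ₀, lt_div_iff₀ (by linarith)]
    linarith
  have hκb : κ₀ < 0.18 := by
    rw [hκ₀, div_lt_iff₀ (by linarith)]
    linarith
  have hD : 0 < lam * Real.log 2 - (lam - 1) * Real.log 3 := by nlinarith
  set a : ℝ := (2 * lam - 1) / (lam * Real.log 2 - (lam - 1) * Real.log 3) with ha
  have ha0 : 0 < a := div_pos (by linarith) hD
  set t : ℝ := Real.log 2 - κ₀ * Real.log 6 with ht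
  have hta : a * t = 1 := by
    have h1 : κ₀ = (lam - 1) / (2 * lam - 1) := by
      rw [hκ₀, hr0]
      have h2 : (2 * lam - 1) ≠ 0 := by
        have : 0 < 2 * lam - 1 := by linarith
        exact this.ne'
      have h3 : 1 + (1 - 1 / lam) ≠ 0 := by
        have : 1 / lam < 1 := by
          rw [div_lt_one hlam]
          linarith
        have : 0 < 1 + (1 - 1 / lam) := by linarith
        exact this.ne'
      rw [div_eq_div_iff h3 h2]
      field_simp
      ring
    have h2 : (2 * lam - 1) ≠ 0 := by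
      have : 0 < 2 * lam - 1 := by linarith
      exact this.ne'
    rw [ha, ht, h1, e6, div_mul_eq_mul_div, div_eq_one_iff_eq hD.ne']
    field_simp
    ring
  have ht0 : 0 < t := by
    by_contra hcon
    have : a * t ≤ 0 := mul_nonpos_of_nonneg_of_nonpos ha0.le (not_lt.1 hcon)
    linarith
  set κ : ℝ := η * t / (a + η) with hκ
  have hκ0 : 0 < κ := by positivity
  set d : ℝ := min (κ / Real.log 6) 0.05 with hd
  have hd0 : 0 < d := lt_min (by positivity) (by norm_num)
  have hd1 : d * Real.log 6 ≤ κ := by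
    have : d ≤ κ / Real.log 6 := min_le_left _ _
    rwa [le_div_iff₀ hl6] at this
  have hd2 : d ≤ 0.05 := min_le_right _ _
  norm_num at hd2 hκa hκb hr1 hr2
  -- the two frequencies
  set κ₁ : ℝ := κ₀ + d with hκ₁
  set κ₂ : ℝ := κ₀ - d with hκ₂
  have hκ₁0 : 0 < 1 - κ₁ := by linarith
  have hκ₂0 : 0 < 1 - κ₂ := by linarith
  have hκ₀0 : 0 < 1 - κ₀ := by linarith
  have hrκ : r0 = κ₀ / (1 - κ₀) := by
    rw [eq_div_iff hκ₀0.ne', hκ₀]
    have : (1 + r0) ≠ 0 := by
      have : 0 < 1 + r0 := by linarith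
      exact this.ne'
    field_simp
    ring
  have hρ₁ : r0 < κ₁ / (1 - κ₁) := by
    rw [hrκ, div_lt_div_iff₀ hκ₀0 hκ₁0]
    nlinarith
  have hρ₁' : κ₁ / (1 - κ₁) < 1 / 3 := by
    rw [div_lt_div_iff₀ hκ₁0 (by norm_num)]
    linarith
  have hρ₂ : κ₂ / (1 - κ₂) < r0 := by
    rw [hrκ, div_lt_div_iff₀ hκ₂0 hκ₀0]
    nlinarith
  have hρ₂' : 0 < κ₂ / (1 - κ₂) := div_pos (by linarith) hκ₂0
  have hM1 : FF (κ₁ / (1 - κ₁)) / (1 + κ₁ / (1 - κ₁)) < Real.log lam := by
    rw [div_lt_iff₀ (by linarith)]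
    have := FF_lt_r0 (ρ := κ₁ / (1 - κ₁)) (by linarith) (by linarith) hρ₁.ne'
    linarith
  have hM2 : FF (κ₂ / (1 - κ₂)) / (1 + κ₂ / (1 - κ₂)) < Real.log lam := by
    rw [div_lt_iff₀ (by linarith)]
    have := FF_lt_r0 (ρ := κ₂ / (1 - κ₂)) (by linarith) (by linarith) hρ₂.ne
    linarith
  set M : ℝ := max (FF (κ₁ / (1 - κ₁)) / (1 + κ₁ / (1 - κ₁)))
    (FF (κ₂ / (1 - κ₂)) / (1 + κ₂ / (1 - κ₂))) with hM
  have hMlt : M < Real.log lam := max_lt hM1 hM2
  set g : ℝ := (Real.log lam - M) / 4 with hg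
  have hg0 : 0 < g := by
    rw [hg]
    linarith
  obtain ⟨L₁, hL₁⟩ := cl_small_upper hρ₁.le hρ₁' hg0
  obtain ⟨L₂, hL₂⟩ := cl_large_upper hρ₂' hρ₂.le hg0
  obtain ⟨L₃, hL₃⟩ := growth_lower hg0
  obtain ⟨L₄, hL₄⟩ := exists_nat_ge (Real.log 2 / g)
  rw [kappa_size (by linarith)] at hL₁ hL₂
  refine ⟨g, hg0, max 1 (max L₁ (max L₂ (max L₃ L₄))), fun L hL => ?_⟩
  have hLL1 : 1 ≤ L := (le_max_left _ _).trans hL
  have hLL2 : L₁ ≤ L := ((le_max_left _ _).trans (le_max_right _ _)).trans hL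
  have hLL3 : L₂ ≤ L := (((le_max_left _ _).trans (le_max_right _ _)).trans
    (le_max_right _ _)).trans hL
  have hLL4 : L₃ ≤ L := ((((le_max_left _ _).trans (le_max_right _ _)).trans
    (le_max_right _ _)).trans (le_max_right _ _)).trans hL
  have hLL5 : L₄ ≤ L := ((((le_max_right _ _).trans (le_max_right _ _)).trans
    (le_max_right _ _)).trans (le_max_right _ _)).trans hL
  have hLn : (1 : ℝ) ≤ L := by exact_mod_cast hLL1
  have hLn0 : (0 : ℝ) ≤ L := by linarith
  have hu1 := hL₁ L hLL2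
  have hu2 := hL₂ L hLL3
  have hlev := hL₃ L hLL4
  have hlog2 : Real.log 2 ≤ g * L := by
    have : Real.log 2 / g ≤ L := hL₄.trans (by exact_mod_cast hLL5)
    rw [div_le_iff₀ hg0] at this
    linarith
  set S : Set ℕ := {n : ℕ | IsLeast {j : ℕ | fC^[j] n = 1} L ∧
      η < |(L : ℝ) / Real.log n - a|} with hS
  set S₁ : Set ℕ := {n : ℕ | IsLeast {j : ℕ | fC^[j] n = 1} L ∧
      Real.log n ≤ (Real.log 2 - κ₁ * Real.log 6) * L} with hS₁
  set S₂ : Set ℕ := {n : ℕ | IsLeast {j : ℕ | fC^[j] n = 1} L ∧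
      (Real.log 2 - κ₂ * Real.log 6) * L ≤ Real.log n} with hS₂
  have hsub : S ⊆ S₁ ∪ S₂ := by
    rintro n ⟨hn1, hn2⟩
    have hn3 : 2 ≤ n := by
      obtain ⟨o, ho, hn3, _⟩ := mem_CL hn1
      by_contra hlt
      have h1 : n = 1 := by omega
      subst h1
      have := hn1.2 (show (0 : ℕ) ∈ {j : ℕ | fC^[j] 1 = 1} from rfl)
      omega
    have hlog : 0 < Real.log n := Real.log_pos (by exact_mod_cast hn3)
    rcases lt_abs.1 hn2 with h | h
    · left
      refine ⟨hn1, ?_⟩
      have h5 : (a + η) * Real.log n < L := by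
        have : a + η < (L : ℝ) / Real.log n := by linarith
        rwa [lt_div_iff₀ hlog] at this
      have h6 : (t - κ) * (a + η) = 1 := by
        rw [hκ]
        have : a + η ≠ 0 := by positivity
        field_simp
        linarith
      have h7 : Real.log n ≤ (t - κ) * L := by
        have h8 : Real.log n * (a + η) ≤ (t - κ) * L * (a + η) := by
          have : (t - κ) * L * (a + η) = L * ((t - κ) * (a + η)) := by ring
          rw [this, h6]
          linarith
        exact le_of_mul_le_mul_right h8 (by positivity)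
      have h9 : (t - κ) * L ≤ (Real.log 2 - κ₁ * Real.log 6) * L := by
        apply mul_le_mul_of_nonneg_right _ hLn0
        rw [ht, hκ₁]
        linarith
      linarith
    · right
      refine ⟨hn1, ?_⟩
      have h5 : (L : ℝ) < (a - η) * Real.log n := by
        have : (L : ℝ) / Real.log n < a - η := by linarith
        rwa [div_lt_iff₀ hlog] at this
      have haη : 0 < a - η := by
        by_contra hcon
        have : (a - η) * Real.log n ≤ 0 := mul_nonpos_of_nonpos_of_nonneg (not_lt.1 hcon) hlog.le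
        linarith
      have h6 : (t + κ) * (a - η) ≤ 1 := by
        have e : (t + κ) * (a - η) = a * t - η * t + κ * (a - η) := by ring
        rw [e, hta]
        have h7 : κ * (a - η) ≤ κ * (a + η) := mul_le_mul_of_nonneg_left (by linarith) hκ0.le
        have h8 : κ * (a + η) = η * t := by
          rw [hκ]
          have : a + η ≠ 0 := by positivity
          field_simp
        linarith
      have h7 : (t + κ) * L ≤ Real.log n := by
        have h8 : (t + κ) * L ≤ (t + κ) * ((a - η) * Real.log n) :=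
          mul_le_mul_of_nonneg_left h5.le (by positivity)
        have h9 : (t + κ) * ((a - η) * Real.log n) = (t + κ) * (a - η) * Real.log n := by ring
        have h10 : (t + κ) * (a - η) * Real.log n ≤ 1 * Real.log n :=
          mul_le_mul_of_nonneg_right h6 hlog.le
        linarith
      have h9 : (Real.log 2 - κ₂ * Real.log 6) * L ≤ (t + κ) * L := by
        apply mul_le_mul_of_nonneg_right _ hLn0
        rw [ht, hκ₂]
        linarith
      linarith
  have hfin1 : S₁.Finite := (CL_finite L).subset fun n hn => hn.1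
  have hfin2 : S₂.Finite := (CL_finite L).subset fun n hn => hn.1
  have hcard : (S.ncard : ℝ) ≤ Real.exp ((M + g) * L) + Real.exp ((M + g) * L) := by
    have h5 : S.ncard ≤ S₁.ncard + S₂.ncard :=
      (Set.ncard_le_ncard hsub (hfin1.union hfin2)).trans (Set.ncard_union_le _ _)
    have h6 : (S.ncard : ℝ) ≤ (S₁.ncard : ℝ) + (S₂.ncard : ℝ) := by exact_mod_cast h5
    refine h6.trans (add_le_add (hu1.trans ?_) (hu2.trans ?_))
    · apply Real.exp_le_exp.2
      apply mul_le_mul_of_nonneg_right _ hLn0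
      have := le_max_left (FF (κ₁ / (1 - κ₁)) / (1 + κ₁ / (1 - κ₁)))
        (FF (κ₂ / (1 - κ₂)) / (1 + κ₂ / (1 - κ₂)))
      linarith
    · apply Real.exp_le_exp.2
      apply mul_le_mul_of_nonneg_right _ hLn0
      have := le_max_right (FF (κ₁ / (1 - κ₁)) / (1 + κ₁ / (1 - κ₁)))
        (FF (κ₂ / (1 - κ₂)) / (1 + κ₂ / (1 - κ₂)))
      linarith
  refine hcard.trans (le_trans ?_ (mul_le_mul_of_nonneg_left hlev (Real.exp_pos _).le))
  rw [← Real.exp_add]
  have h20 : Real.exp ((M + g) * L) + Real.exp ((M + g) * L) =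
      Real.exp (Real.log 2 + (M + g) * L) := by
    rw [Real.exp_add, Real.exp_log (by norm_num)]
    ring
  rw [h20]
  apply Real.exp_le_exp.2
  have h21 : Real.log lam = M + 4 * g := by
    rw [hg]
    ring
  rw [h21]
  nlinarith

/-- growth in the form of powers of the constant -/
theorem growth_C {ε : ℝ} (hε : 0 < ε) : ∃ L₀ : ℕ, ∀ L : ℕ, L₀ ≤ L →
    lam ^ ((1 - ε) * (L : ℝ)) ≤ ((CL L).ncard : ℝ) ∧
      ((CL L).ncard : ℝ) ≤ lam ^ ((1 + ε) * (L : ℝ)) := by
  have hlam : 0 < lam := by linarith [lam_bounds.1]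
  have hlog : 0 < Real.log lam := Real.log_pos (by linarith [lam_bounds.1])
  obtain ⟨L₁, hL₁⟩ := growth_lower (show 0 < ε * Real.log lam by positivity)
  obtain ⟨L₂, hL₂⟩ := growth_upper (show 0 < ε * Real.log lam by positivity)
  refine ⟨max L₁ L₂, fun L hL => ⟨?_, ?_⟩⟩
  · refine le_trans (le_of_eq ?_) (hL₁ L ((le_max_left _ _).trans hL))
    rw [Real.rpow_def_of_pos hlam]
    congr 1
    ring
  · refine (hL₂ L ((le_max_right _ _).trans hL)).trans (le_of_eq ?_)
    rw [Real.rpow_def_of_pos hlam]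
    congr 1
    ring

end Pool.Agent.Y966.LD
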