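import Pool.Agent.Y966.LD.Ht

/-!
The number of odd integers up to `x` with a given height.
-/

set_option autoImplicit false
set_option linter.unusedVariables false

namespace Pool.Agent.Y966.LD

open Finset Filter Topology Pool.Agent.H395R2.G3

/-- the odd integers `m ≤ x` of height `k` -/
def HS (x : ℝ) (k : ℕ) : Set ℕ := {m : ℕ | m % 2 = 1 ∧ (m : ℝ) ≤ x ∧ IsHeight m k}

theorem HS_finite (x : ℝ) (k : ℕ) : (HS x k).Finite := by
  apply (Set.finite_Iic ⌊x⌋₊).subset
  rintro m ⟨_, hm, _⟩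
  exact Nat.le_floor hm

/-- number of steps per `log x` -/
noncomputable def SS (β : ℝ) : ℝ := (1 + β * Real.log 3) / Real.log 2

/-- the exponent -/
noncomputable def ee (β : ℝ) : ℝ := SS β * Real.binEntropy (β / SS β) - β * Real.log 3

/-- the exponent of the tilt -/
noncomputable def uu (β z : ℝ) : ℝ :=
  SS β * (-Real.log z) + β * (-Real.log (3 * (1 - z) / z))

theorem SS_pos {β : ℝ} (h : 0 ≤ β) : 0 < SS β := by
  have hl2 : 0 < Real.log 2 := Real.log_pos (by norm_num)
  have hl3 : 0 < Real.log 3 := Real.log_pos (by norm_num)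
  unfold SS
  positivity

theorem ht_upper_core {z : ℝ} (h0 : 2 / 3 < z) (h1 : z < 1) {ε : ℝ} (hε : 0 < ε) :
    ∃ X₀ : ℝ, 1 < X₀ ∧ ∀ x : ℝ, X₀ ≤ x → ∀ k : ℕ, (k : ℝ) ≤ 2 * Real.log x →
      ((HS x k).ncard : ℝ) ≤ Real.exp (Real.log x * (uu (k / Real.log x) z + ε)) := by
  have hl2 : 0 < Real.log 2 := Real.log_pos (by norm_num)
  have hl3 : 0 < Real.log 3 := Real.log_pos (by norm_num)
  have hl23 : Real.log 2 < Real.log 3 := Real.log_lt_log (by norm_num) (by norm_num)
  obtain ⟨ha, hab⟩ := tilt_facts h0 h1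
  set W : ℝ := (3 + 2 * Real.log 3) / Real.log 2 with hW
  have hW0 : 0 < W := by positivity
  obtain ⟨C, hC, hup⟩ := Lv_upper h0 h1 (show 0 < ε / (4 * W) by positivity)
  set A : ℝ := -Real.log z / Real.log 2 with hA
  have hA0 : 0 < A := by positivity
  obtain ⟨K₁, hK₁0, hK₁⟩ := log_lin (show 0 < ε / (8 * A) by positivity)
  obtain ⟨K₂, hK₂0, hK₂⟩ := log_lin (show 0 < ε / (4 * W) by positivity)
  set L₀ : ℝ := max 1 (4 * (A * K₁ + K₂ + |Real.log C| + Real.log 2) / ε) with hL₀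
  refine ⟨Real.exp L₀, ?_, fun x hx k hk => ?_⟩
  · have : 1 ≤ L₀ := le_max_left _ _
    have h2 := Real.add_one_le_exp L₀
    linarith
  have hx0 : 0 < x := lt_of_lt_of_le (Real.exp_pos _) hx
  have hL : L₀ ≤ Real.log x := by
    rw [Real.le_log_iff_exp_le hx0]
    exact hx
  set L : ℝ := Real.log x with hLdef
  have hL1 : 1 ≤ L := (le_max_left _ _).trans hL
  have hL2 : 4 * (A * K₁ + K₂ + |Real.log C| + Real.log 2) / ε ≤ L := (le_max_right _ _).trans hL
  have hkn : (0 : ℝ) ≤ k := Nat.cast_nonneg k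
  set a : ℝ := -Real.log z with hadef
  set b : ℝ := -Real.log (3 * (1 - z) / z) with hbdef
  -- the number of steps
  set Sr : ℝ := (L + k * Real.log 3 + Real.log (k + 1)) / Real.log 2 with hSr
  have hlogk : 0 ≤ Real.log ((k : ℝ) + 1) := Real.log_nonneg (by linarith)
  have hlogk2 : Real.log ((k : ℝ) + 1) ≤ Real.log (2 * L + 1) :=
    Real.log_le_log (by positivity) (by linarith)
  have hlogL : Real.log (2 * L + 1) ≤ 2 * L := by
    have := Real.log_le_sub_one_of_pos (show 0 < 2 * L + 1 by linarith)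
    linarith
  have hSr0 : 0 ≤ Sr := by positivity
  have hSrW : Sr ≤ W * L := by
    rw [hSr, hW, div_mul_eq_mul_div]
    apply div_le_div_of_nonneg_right _ hl2.le
    have : k * Real.log 3 ≤ 2 * L * Real.log 3 := mul_le_mul_of_nonneg_right hk hl3.le
    linarith
  set K : ℕ := ⌊Sr⌋₊ with hK
  have hKle : (K : ℝ) ≤ Sr := Nat.floor_le hSr0
  classical
  have hcov : ∀ m ∈ HS x k \ {1}, ∃ s ∈ range (K + 1), m ∈ Lv s k := by
    rintro m ⟨⟨hm1, hm2, hm3⟩, hm4⟩
    have hmne : m ≠ 1 := hm4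
    obtain ⟨s, hs, ho⟩ := lev_of_ht k m hm1 hmne hm3
    have hm1' : 1 ≤ m := by omega
    refine ⟨s, ?_, hm1', hs, ho⟩
    rw [mem_range, Nat.lt_succ_iff]
    apply Nat.le_floor
    obtain ⟨_, g2⟩ := log_size hm1' hs
    rw [ho] at g2
    have g3 : Real.log m ≤ L := Real.log_le_log (by exact_mod_cast hm1') hm2
    rw [hSr, le_div_iff₀ hl2]
    linarith
  obtain ⟨hfin, hncard⟩ := ncard_le_sum (range (K + 1)) (fun s => Lv s k)
    (fun s _ => (Lv_fin s k).1) (HS x k \ {1}) hcov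
  have hncard' : ((HS x k \ {1}).ncard : ℝ) ≤ ∑ s ∈ range (K + 1), ((Lv s k).ncard : ℝ) := by
    exact_mod_cast hncard
  set B : ℝ := C * Real.exp (ε / (4 * W) * Sr + Sr * a + k * b) with hB
  have hB0 : 0 ≤ B := by positivity
  have hterm : ∀ s ∈ range (K + 1), ((Lv s k).ncard : ℝ) ≤ B := by
    intro s hs
    have hsK : s ≤ K := by
      rw [mem_range] at hs
      omega
    have hsS : (s : ℝ) ≤ Sr := (by exact_mod_cast hsK : (s : ℝ) ≤ K).trans hKle
    refine (hup s k).trans ?_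
    apply mul_le_mul_of_nonneg_left _ hC.le
    apply Real.exp_le_exp.2
    have g1 : ε / (4 * W) * (s : ℝ) ≤ ε / (4 * W) * Sr := mul_le_mul_of_nonneg_left hsS (by positivity)
    have g2 : (s : ℝ) * a ≤ Sr * a := mul_le_mul_of_nonneg_right hsS ha.le
    linarith
  have hsum : ∑ s ∈ range (K + 1), ((Lv s k).ncard : ℝ) ≤ (Sr + 1) * B := by
    calc ∑ s ∈ range (K + 1), ((Lv s k).ncard : ℝ) ≤ ∑ s ∈ range (K + 1), B := sum_le_sum hterm
      _ = ((K : ℝ) + 1) * B := by
          rw [sum_const, card_range, nsmul_eq_mul]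
          push_cast
          ring
      _ ≤ (Sr + 1) * B := by
          apply mul_le_mul_of_nonneg_right _ hB0
          linarith
  have htot : ((HS x k).ncard : ℝ) ≤ (Sr + 1) * B + 1 := by
    have h5 : (HS x k).ncard ≤ (HS x k \ {1}).ncard + ({1} : Set ℕ).ncard :=
      (Set.ncard_le_ncard (fun m hm => by
        by_cases h : m = 1
        · exact Or.inr h
        · exact Or.inl ⟨hm, h⟩) (hfin.union (Set.finite_singleton 1))).trans
        (Set.ncard_union_le _ _)
    rw [Set.ncard_singleton] at h5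
    have h6 : ((HS x k).ncard : ℝ) ≤ ((HS x k \ {1}).ncard : ℝ) + 1 := by exact_mod_cast h5
    linarith
  refine htot.trans ?_
  -- exponents
  have hSa : Sr * a = L * (SS (k / L) * a) + A * Real.log (k + 1) := by
    rw [hSr, hA]
    unfold SS
    have : L ≠ 0 := by linarith
    field_simp
  have hkb : (k : ℝ) * b = L * (k / L * b) := by
    have : L ≠ 0 := by linarith
    field_simp
  have huu : L * uu (k / L) z = L * (SS (k / L) * a) + L * (k / L * b) := by
    unfold uu
    ring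
  have hL0 : 0 < L := by linarith
  have huu0 : 0 ≤ L * uu (k / L) z := by
    rw [huu, ← hkb]
    unfold SS
    have e1 : L * ((1 + k / L * Real.log 3) / Real.log 2 * a) =
        (L + k * Real.log 3) / Real.log 2 * a := by
      field_simp
    rw [e1]
    have e2 : k * a ≤ (L + k * Real.log 3) / Real.log 2 * a := by
      apply mul_le_mul_of_nonneg_right _ ha.le
      rw [le_div_iff₀ hl2]
      nlinarith
    have e3 : (k : ℝ) * (-a) ≤ k * b := mul_le_mul_of_nonneg_left (by rw [hadef]; linarith) hkn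
    linarith
  have hS1 : (0 : ℝ) < Sr + 1 := by linarith
  have e3 : (Sr + 1) * B = Real.exp (Real.log (Sr + 1) + (Real.log C +
      (ε / (4 * W) * Sr + Sr * a + k * b))) := by
    rw [Real.exp_add, Real.exp_add, Real.exp_log hS1, Real.exp_log hC, hB]
  have g1 : A * Real.log ((k : ℝ) + 1) ≤ ε / 4 * L + A * K₁ := by
    have g2 := hK₁ (2 * L) (by linarith)
    have g3 : A * Real.log ((k : ℝ) + 1) ≤ A * (ε / (8 * A) * (2 * L) + K₁) :=
      mul_le_mul_of_nonneg_left (by linarith) hA0.le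
    have g4 : A * (ε / (8 * A) * (2 * L) + K₁) = ε / 4 * L + A * K₁ := by
      field_simp
      ring
    linarith
  have g5 : Real.log (Sr + 1) ≤ ε / 4 * L + K₂ := by
    have g6 := hK₂ Sr hSr0
    have g7 : ε / (4 * W) * Sr ≤ ε / (4 * W) * (W * L) :=
      mul_le_mul_of_nonneg_left hSrW (by positivity)
    have g8 : ε / (4 * W) * (W * L) = ε / 4 * L := by field_simp
    linarith
  have g9 : ε / (4 * W) * Sr ≤ ε / 4 * L := by
    have g7 : ε / (4 * W) * Sr ≤ ε / (4 * W) * (W * L) :=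
      mul_le_mul_of_nonneg_left hSrW (by positivity)
    have g8 : ε / (4 * W) * (W * L) = ε / 4 * L := by field_simp
    linarith
  have g10 : A * K₁ + K₂ + |Real.log C| + Real.log 2 ≤ ε / 4 * L := by
    rw [div_le_iff₀ hε] at hL2
    linarith
  have g11 := le_abs_self (Real.log C)
  have g12 : Real.log (Sr + 1) + (Real.log C + (ε / (4 * W) * Sr + Sr * a + k * b)) ≤
      L * (uu (k / L) z + ε) - Real.log 2 := by
    rw [hSa, hkb]
    have : L * (uu (k / L) z + ε) = L * uu (k / L) z + ε * L := by ring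
    rw [this, huu]
    linarith
  have g13 : 0 ≤ L * (uu (k / L) z + ε) - Real.log 2 := by
    have g14 : L * (uu (k / L) z + ε) = L * uu (k / L) z + ε * L := by ring
    have g15 : 0 ≤ A * K₁ + K₂ + |Real.log C| := by positivity
    have g16 : 0 ≤ ε / 4 * L := by positivity
    linarith
  calc (Sr + 1) * B + 1 ≤ Real.exp (L * (uu (k / L) z + ε) - Real.log 2) +
        Real.exp (L * (uu (k / L) z + ε) - Real.log 2) := by
        rw [e3]
        exact add_le_add (Real.exp_le_exp.2 g12) (Real.one_le_exp g13)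
    _ = Real.exp (L * (uu (k / L) z + ε)) := by
        rw [Real.exp_sub, Real.exp_log (by norm_num)]
        ring

theorem SS_cont : Continuous SS := by
  unfold SS
  fun_prop

theorem SS_rho {β : ℝ} (h : 0 < β) (h1 : β ≤ 1 / Real.log (8 / 3)) : 0 < β / SS β ∧
    β / SS β ≤ 1 / 3 := by
  have hS := SS_pos h.le
  have hl2 : 0 < Real.log 2 := Real.log_pos (by norm_num)
  have hl3 : 0 < Real.log 3 := Real.log_pos (by norm_num)
  have h83 : 0 < Real.log (8 / 3) := Real.log_pos (by norm_num)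
  refine ⟨by positivity, ?_⟩
  rw [div_le_iff₀ hS]
  have e : Real.log (8 / 3) = 3 * Real.log 2 - Real.log 3 := by
    rw [Real.log_div (by norm_num) (by norm_num), show (8 : ℝ) = 2 ^ 3 by norm_num, Real.log_pow]
    norm_num
  rw [le_div_iff₀ h83, e] at h1
  unfold SS
  have : 1 / 3 * ((1 + β * Real.log 3) / Real.log 2) = (1 + β * Real.log 3) / (3 * Real.log 2) := by
    field_simp
  rw [this, le_div_iff₀ (by positivity)]
  linarith

theorem ee_eq {β : ℝ} (h : 0 ≤ β) : ee β = SS β * FF (β / SS β) := by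
  have hS := SS_pos h
  unfold ee FF
  field_simp

theorem uu_eq {β z : ℝ} (h : 0 ≤ β) : uu β z = SS β * phi (β / SS β) z := by
  have hS := SS_pos h
  unfold uu phi
  field_simp

theorem ee_contAt {β : ℝ} (h : 0 ≤ β) : ContinuousAt ee β := by
  have hS := SS_pos h
  unfold ee
  have h1 : ContinuousAt SS β := SS_cont.continuousAt
  have h2 : ContinuousAt (fun x => Real.binEntropy (x / SS x)) β := by
    have h3 : ContinuousAt (fun x => x / SS x) β := continuousAt_id.div h1 hS.ne'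
    exact (Real.binEntropy_continuous.continuousAt).comp h3
  exact (h1.mul h2).sub (by fun_prop)

theorem uu_cont (z : ℝ) : Continuous fun β => uu β z := by
  unfold uu SS
  fun_prop

theorem ee_zero : ee 0 = 0 := by
  unfold ee
  simp

/-- the choice of the tilt for heights -/
theorem exists_tilt {β : ℝ} (h : 0 ≤ β) (h1 : β ≤ 1 / Real.log (8 / 3)) {ε : ℝ} (hε : 0 < ε) :
    ∃ z : ℝ, 2 / 3 < z ∧ z < 1 ∧ uu β z < ee β + ε := by
  have hl2 : 0 < Real.log 2 := Real.log_pos (by norm_num)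
  rcases eq_or_lt_of_le h with rfl | h0
  · rw [ee_zero, zero_add]
    have hc : ContinuousAt (fun z : ℝ => -Real.log z / Real.log 2) 1 :=
      ((Real.continuousAt_log one_ne_zero).neg).div_const _
    have h2 : ∀ᶠ z in 𝓝[<] (1 : ℝ), -Real.log z / Real.log 2 < ε := by
      refine (hc.mono_left nhdsWithin_le_nhds).eventually (gt_mem_nhds ?_)
      simpa using hε
    have h3 : ∀ᶠ z in 𝓝[<] (1 : ℝ), 2 / 3 < z :=
      (lt_mem_nhds (by norm_num : (2 / 3 : ℝ) < 1)).filter_mono nhdsWithin_le_nhds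
    obtain ⟨z, hz1, hz2, hz3⟩ := (h2.and (h3.and self_mem_nhdsWithin)).exists
    refine ⟨z, hz2, hz3, ?_⟩
    unfold uu SS
    have : (1 + 0 * Real.log 3) / Real.log 2 * -Real.log z + 0 * -Real.log (3 * (1 - z) / z) =
        -Real.log z / Real.log 2 := by ring
    rw [this]
    exact hz1
  · obtain ⟨g1, g2⟩ := SS_rho h0 h1
    have hS := SS_pos h
    obtain ⟨z, hz0, hz1, hz2, _⟩ := exists_z g1 g2 (show 0 < ε / (2 * SS β) by positivity)
    refine ⟨z, hz0, hz1, ?_⟩
    rw [uu_eq h, ee_eq h]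
    have g3 : SS β * phi (β / SS β) z ≤ SS β * (FF (β / SS β) + ε / (2 * SS β)) :=
      mul_le_mul_of_nonneg_left hz2 hS.le
    have g4 : SS β * (FF (β / SS β) + ε / (2 * SS β)) = SS β * FF (β / SS β) + ε / 2 := by
      field_simp
    linarith

/-- local upper bound -/
theorem ht_upper_local {β : ℝ} (h : 0 ≤ β) (h1 : β ≤ 1 / Real.log (8 / 3)) {ε : ℝ} (hε : 0 < ε) :
    ∃ δ : ℝ, 0 < δ ∧ ∃ X₀ : ℝ, 1 < X₀ ∧ ∀ x : ℝ, X₀ ≤ x → ∀ k : ℕ, (k : ℝ) ≤ 2 * Real.log x →
      |(k : ℝ) / Real.log x - β| < δ →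
      ((HS x k).ncard : ℝ) ≤ Real.exp (Real.log x * (ee (k / Real.log x) + ε)) := by
  obtain ⟨z, hz0, hz1, hz2⟩ := exists_tilt h h1 (show 0 < ε / 4 by positivity)
  have c1 := (uu_cont z).continuousAt (x := β)
  have c2 := ee_contAt h
  have e1 : ∀ᶠ y in 𝓝 β, uu y z < uu β z + ε / 4 := c1.eventually (gt_mem_nhds (by linarith))
  have e2 : ∀ᶠ y in 𝓝 β, ee β - ε / 4 < ee y := c2.eventually (lt_mem_nhds (by linarith))
  obtain ⟨δ, hδ, hball⟩ := Metric.eventually_nhds_iff.1 (e1.and e2)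
  obtain ⟨X₀, hX₀, hup⟩ := ht_upper_core hz0 hz1 (show 0 < ε / 4 by positivity)
  refine ⟨δ, hδ, X₀, hX₀, fun x hx k hk hkβ => ?_⟩
  have hlog : 0 < Real.log x := Real.log_pos (by linarith)
  obtain ⟨g1, g2⟩ := hball (y := (k : ℝ) / Real.log x) (by rw [Real.dist_eq]; exact hkβ)
  refine (hup x hx k hk).trans (Real.exp_le_exp.2 ?_)
  apply mul_le_mul_of_nonneg_left _ hlog.le
  linarith

end Pool.Agent.Y966.LD
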