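import Pool.Agent.Y966.LD.Main4

/-!
The number of odd integers up to `x` with a given height: lower bound and the uniform theorem.
-/

set_option autoImplicit false
set_option linter.unusedVariables false

namespace Pool.Agent.Y966.LD

open Finset Filter Topology Pool.Agent.H395R2.G3

/-- the nodes above `8` give odd integers of given height -/
theorem eight_HS {x : ℝ} {s k : ℕ} (hk : 1 ≤ k) (hx : 0 < x)
    (hsize : ((s : ℝ) + 3) * Real.log 2 - k * Real.log 3 ≤ Real.log x) :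
    {m : ℕ | m ∈ Lv (s + 3) k ∧ m % 2 = 1} ⊆ HS x k := by
  rintro m ⟨⟨hm1, hm2, hm3⟩, hm4⟩
  have hne : m ≠ 1 := by
    rintro rfl
    have := hm2.2 (show 0 ∈ {j : ℕ | fT^[j] 1 = 1} from rfl)
    omega
  obtain ⟨g1, _⟩ := log_size hm1 hm2
  rw [hm3] at g1
  push_cast at g1
  have hm0 : (0 : ℝ) < m := by exact_mod_cast hm1
  refine ⟨hm4, ?_, ?_⟩
  · rw [← Real.log_le_log_iff hm0 hx]
    linarith
  · have := ht_of_lev (s + 3) m hm4 hne hm2
    rwa [hm3] at this

/-- all small heights occur below `x` -/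
theorem small_heights : ∃ δ : ℝ, 0 < δ ∧ ∃ X₀ : ℝ, 1 < X₀ ∧ ∀ x : ℝ, X₀ ≤ x → ∀ k : ℕ, 1 ≤ k →
    (k : ℝ) ≤ δ * Real.log x → (HS x k).Nonempty := by
  have hl2 : 0 < Real.log 2 := Real.log_pos (by norm_num)
  have hl3 : 0 < Real.log 3 := Real.log_pos (by norm_num)
  have hF : 0 < FF (1 / 4) := FF_pos_of (by norm_num) (by norm_num : (1 / 4 : ℝ) < 4771 / 7833)
    (by norm_num) FF_low.le
  obtain ⟨n₀, hn₀⟩ := eight_lower (r := 1 / 4) (by norm_num) (by norm_num) hF one_pos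
  -- representatives of the heights below `n₀`
  choose f hf using exists_height
  set M : ℕ := ∑ i ∈ range n₀, f i with hM
  refine ⟨1 / (5 * Real.log 2 + 1), by positivity,
    max 2 (max (M + 1) (Real.exp (3 * Real.log 2 * (5 * Real.log 2 + 1)))), by
      exact lt_of_lt_of_le (by norm_num) (le_max_left _ _), fun x hx k hk1 hk2 => ?_⟩
  have hx2 : 2 ≤ x := (le_max_left _ _).trans hx
  have hx0 : 0 < x := by linarith
  have hxM : (M : ℝ) + 1 ≤ x := ((le_max_left _ _).trans (le_max_right _ _)).trans hx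
  have hxe : Real.exp (3 * Real.log 2 * (5 * Real.log 2 + 1)) ≤ x :=
    ((le_max_right _ _).trans (le_max_right _ _)).trans hx
  have hlx : 3 * Real.log 2 * (5 * Real.log 2 + 1) ≤ Real.log x := by
    rw [Real.le_log_iff_exp_le hx0]
    exact hxe
  rcases Nat.lt_or_ge k n₀ with hlt | hge
  · obtain ⟨k', rfl⟩ : ∃ k', k = k' + 1 := ⟨k - 1, by omega⟩
    obtain ⟨g1, g2, g3, g4⟩ := hf k'
    refine ⟨f k', g1, ?_, g4⟩
    have : f k' ≤ M := single_le_sum (f := f) (fun i _ => Nat.zero_le _) (mem_range.2 (by omega))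
    have h' : (f k' : ℝ) ≤ M := by exact_mod_cast this
    linarith
  · obtain ⟨s, hs1, hs2⟩ := hn₀ k hge
    have hpos : 0 < {m : ℕ | m ∈ Lv (s + 3) k ∧ m % 2 = 1}.ncard := by
      have := (Real.exp_pos ((FF (1 / 4) / (1 / 4) - 1) * k)).trans_le hs2
      exact_mod_cast this
    obtain ⟨m, hm⟩ := Set.nonempty_of_ncard_ne_zero hpos.ne'
    refine ⟨m, eight_HS hk1 hx0 ?_ hm⟩
    have hs3 := (abs_le.1 hs1).2
    have hs4 : (s : ℝ) ≤ 5 * k := by
      have : (k : ℝ) / (1 / 4) = 4 * k := by ring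
      linarith
    have hk3 : (k : ℝ) * (5 * Real.log 2 + 1) ≤ Real.log x := by
      rw [div_mul_eq_mul_div, one_mul, le_div_iff₀ (by positivity)] at hk2
      exact hk2
    have hkn : (0 : ℝ) ≤ k := Nat.cast_nonneg k
    have h5 : (s : ℝ) * Real.log 2 ≤ 5 * k * Real.log 2 := mul_le_mul_of_nonneg_right hs4 hl2.le
    have h6 : 0 ≤ (k : ℝ) * Real.log 3 := by positivity
    -- `5 k log 2 + 3 log 2 ≤ log x`
    have h7 : 5 * (k : ℝ) * Real.log 2 * (5 * Real.log 2 + 1) ≤ 5 * Real.log 2 * Real.log x := by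
      have : 5 * Real.log 2 * (k * (5 * Real.log 2 + 1)) ≤ 5 * Real.log 2 * Real.log x :=
        mul_le_mul_of_nonneg_left hk3 (by positivity)
      linarith
    have h8 : (5 * (k : ℝ) * Real.log 2 + 3 * Real.log 2) * (5 * Real.log 2 + 1) ≤
        Real.log x * (5 * Real.log 2 + 1) := by
      linarith
    have h9 := le_of_mul_le_mul_right h8 (by positivity)
    linarith

/-- local lower bound away from `0` -/
theorem ht_lower_pos {β : ℝ} (h : 0 < β) (h1 : β ≤ 1 / Real.log (8 / 3)) {ε : ℝ} (hε : 0 < ε) :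
    ∃ δ : ℝ, 0 < δ ∧ ∃ X₀ : ℝ, 1 < X₀ ∧ ∀ x : ℝ, X₀ ≤ x → ∀ k : ℕ, 1 ≤ k →
      |(k : ℝ) / Real.log x - β| < δ →
      Real.exp (Real.log x * (ee (k / Real.log x) - ε)) ≤ ((HS x k).ncard : ℝ) := by
  have hl2 : 0 < Real.log 2 := Real.log_pos (by norm_num)
  have hl3 : 0 < Real.log 3 := Real.log_pos (by norm_num)
  obtain ⟨g1, g2⟩ := SS_rho h h1
  have hS := SS_pos h.le
  set ρ : ℝ := β / SS β with hρ
  -- the choice of `r`
  have hval : β * (FF ρ / ρ) = ee β := by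
    rw [ee_eq h.le, hρ]
    field_simp
  have hval2 : β * (Real.log 2 / ρ - Real.log 3) = 1 := by
    rw [hρ]
    unfold SS
    field_simp
    ring
  have c1 : ContinuousAt (fun r => β * (FF r / r)) ρ :=
    continuousAt_const.mul (FF_cont.continuousAt.div continuousAt_id g1.ne')
  have e1 : ∀ᶠ r in 𝓝[>] ρ, ee β - ε / 4 < β * (FF r / r) := by
    refine (c1.mono_left nhdsWithin_le_nhds).eventually (lt_mem_nhds ?_)
    change ee β - ε / 4 < β * (FF ρ / ρ)
    rw [hval]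
    linarith
  have e2 : ∀ᶠ r in 𝓝[>] ρ, r < 4771 / 7833 :=
    (gt_mem_nhds (lt_of_le_of_lt g2 third_lt)).filter_mono nhdsWithin_le_nhds
  obtain ⟨r, hr1, hr2, hr3⟩ := (e1.and (e2.and self_mem_nhdsWithin)).exists
  have hr3' : ρ < r := hr3
  have hr0 : 0 < r := by linarith
  have hr11 : r < 1 := by
    norm_num at hr2
    linarith
  have hFr : 0 < FF r := FF_pos_of hr0 hr2 (by norm_num) FF_low.le
  have hsz : β * (Real.log 2 / r - Real.log 3) < 1 := by
    rw [← hval2]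
    apply mul_lt_mul_of_pos_left _ h
    have : Real.log 2 / r < Real.log 2 / ρ := div_lt_div_of_pos_left hl2 g1 hr3'
    linarith
  -- the choice of `δ`
  have c2 := ee_contAt h.le
  have e3 : ∀ᶠ y in 𝓝 β, ee y < ee β + ε / 4 := c2.eventually (gt_mem_nhds (by linarith))
  have e4 : ∀ᶠ y in 𝓝 β, 0 < y := lt_mem_nhds h
  -- one function of two variables for the remaining conditions
  have c3 : ContinuousAt (fun q : ℝ × ℝ => q.1 * ((1 / r + q.2) * Real.log 2 - Real.log 3) + q.2)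
      (β, 0) := by fun_prop
  have e5 : ∀ᶠ q in 𝓝 ((β, 0) : ℝ × ℝ), q.1 * ((1 / r + q.2) * Real.log 2 - Real.log 3) + q.2 < 1 := by
    refine c3.eventually (gt_mem_nhds ?_)
    have : β * ((1 / r + 0) * Real.log 2 - Real.log 3) + 0 = β * (Real.log 2 / r - Real.log 3) := by
      ring
    change β * ((1 / r + 0) * Real.log 2 - Real.log 3) + 0 < 1
    rw [this]
    exact hsz
  have c4 : ContinuousAt (fun q : ℝ × ℝ => q.1 * (FF r / r - q.2)) (β, 0) := by fun_prop
  have e6 : ∀ᶠ q in 𝓝 ((β, 0) : ℝ × ℝ), ee β - ε / 2 < q.1 * (FF r / r - q.2) := by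
    refine c4.eventually (lt_mem_nhds ?_)
    change ee β - ε / 2 < β * (FF r / r - 0)
    rw [sub_zero]
    linarith
  obtain ⟨δ₁, hδ₁, hball₁⟩ := Metric.eventually_nhds_iff.1 (e3.and e4)
  obtain ⟨δ₂, hδ₂, hball₂⟩ := Metric.eventually_nhds_iff.1 (e5.and e6)
  set d : ℝ := δ₂ / 2 with hd
  have hd0 : 0 < d := by positivity
  obtain ⟨n₀, hn₀⟩ := eight_lower hr0 hr11 hFr hd0
  set δ : ℝ := min (min δ₁ δ₂) (β / 2) with hδ
  have hδ0 : 0 < δ := lt_min (lt_min hδ₁ hδ₂) (by positivity)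
  refine ⟨δ, hδ0, Real.exp (max 1 (max (2 * n₀ / β) (3 * Real.log 2 / d))), ?_,
    fun x hx k hk1 hkβ => ?_⟩
  · have h5 := Real.add_one_le_exp (max 1 (max (2 * n₀ / β) (3 * Real.log 2 / d)))
    have h6 : (1 : ℝ) ≤ max 1 (max (2 * n₀ / β) (3 * Real.log 2 / d)) := le_max_left _ _
    linarith
  have hx0 : 0 < x := lt_of_lt_of_le (Real.exp_pos _) hx
  have hL : max 1 (max (2 * n₀ / β) (3 * Real.log 2 / d)) ≤ Real.log x := by
    rw [Real.le_log_iff_exp_le hx0]
    exact hx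
  set L : ℝ := Real.log x with hLdef
  have hL1 : 1 ≤ L := (le_max_left _ _).trans hL
  have hL2 : 2 * n₀ / β ≤ L := ((le_max_left _ _).trans (le_max_right _ _)).trans hL
  have hL3 : 3 * Real.log 2 / d ≤ L := ((le_max_right _ _).trans (le_max_right _ _)).trans hL
  have hL0 : 0 < L := by linarith
  set y : ℝ := (k : ℝ) / L with hy
  have hky : (k : ℝ) = L * y := by
    rw [hy]
    field_simp
  have hδa : δ ≤ δ₁ := (min_le_left _ _).trans (min_le_left _ _)
  have hδb : δ ≤ δ₂ := (min_le_left _ _).trans (min_le_right _ _)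
  have hδc : δ ≤ β / 2 := min_le_right _ _
  obtain ⟨p1, p2⟩ := hball₁ (y := y) (by rw [Real.dist_eq]; linarith)
  have hdist : dist ((y, d) : ℝ × ℝ) (β, 0) < δ₂ := by
    rw [Prod.dist_eq, max_lt_iff]
    constructor
    · rw [Real.dist_eq]
      change |y - β| < δ₂
      linarith
    · rw [Real.dist_eq]
      change |d - 0| < δ₂
      rw [sub_zero, abs_of_pos hd0, hd]
      linarith
  obtain ⟨p3, p4⟩ := hball₂ hdist
  change y * ((1 / r + d) * Real.log 2 - Real.log 3) + d < 1 at p3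
  change ee β - ε / 2 < y * (FF r / r - d) at p4
  have hkn0 : n₀ ≤ k := by
    have h5 : β / 2 ≤ y := by
      have := (abs_lt.1 hkβ).1
      linarith
    have h6 : (n₀ : ℝ) ≤ k := by
      rw [hky]
      rw [div_le_iff₀ h] at hL2
      nlinarith
    exact_mod_cast h6
  obtain ⟨s, hs1, hs2⟩ := hn₀ k hkn0
  have hs3 := (abs_le.1 hs1).2
  have hsize : ((s : ℝ) + 3) * Real.log 2 - k * Real.log 3 ≤ Real.log x := by
    have h5 : (s : ℝ) ≤ k * (1 / r + d) := by
      have : (k : ℝ) / r + d * k = k * (1 / r + d) := by ring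
      linarith
    have h6 : (s : ℝ) * Real.log 2 ≤ k * (1 / r + d) * Real.log 2 :=
      mul_le_mul_of_nonneg_right h5 hl2.le
    have h7 : 3 * Real.log 2 ≤ d * L := by
      rw [div_le_iff₀ hd0] at hL3
      linarith
    have h8 : L * (y * ((1 / r + d) * Real.log 2 - Real.log 3) + d) ≤ L * 1 :=
      mul_le_mul_of_nonneg_left p3.le hL0.le
    have h9 : k * (1 / r + d) * Real.log 2 - k * Real.log 3 =
        L * (y * ((1 / r + d) * Real.log 2 - Real.log 3)) := by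
      rw [hky]
      ring
    rw [← hLdef]
    linarith
  have hcard : ({m : ℕ | m ∈ Lv (s + 3) k ∧ m % 2 = 1}.ncard : ℝ) ≤ ((HS x k).ncard : ℝ) := by
    exact_mod_cast Set.ncard_le_ncard (eight_HS hk1 hx0 hsize) (HS_finite x k)
  refine le_trans (Real.exp_le_exp.2 ?_) (hs2.trans hcard)
  rw [hky]
  have h10 : (FF r / r - d) * (L * y) = L * (y * (FF r / r - d)) := by ring
  rw [h10]
  apply mul_le_mul_of_nonneg_left _ hL0.le
  linarith

/-- local lower bound -/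
theorem ht_lower_local {β : ℝ} (h : 0 ≤ β) (h1 : β ≤ 1 / Real.log (8 / 3)) {ε : ℝ} (hε : 0 < ε) :
    ∃ δ : ℝ, 0 < δ ∧ ∃ X₀ : ℝ, 1 < X₀ ∧ ∀ x : ℝ, X₀ ≤ x → ∀ k : ℕ, 1 ≤ k →
      |(k : ℝ) / Real.log x - β| < δ →
      Real.exp (Real.log x * (ee (k / Real.log x) - ε)) ≤ ((HS x k).ncard : ℝ) := by
  rcases eq_or_lt_of_le h with rfl | h0
  · have c2 := ee_contAt (le_refl (0 : ℝ))
    have e3 : ∀ᶠ y in 𝓝 (0 : ℝ), ee y < ε := c2.eventually (gt_mem_nhds (by rw [ee_zero]; exact hε))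
    obtain ⟨δ₁, hδ₁, hball₁⟩ := Metric.eventually_nhds_iff.1 e3
    obtain ⟨δ₂, hδ₂, X₀, hX₀, hne⟩ := small_heights
    refine ⟨min δ₁ δ₂, lt_min hδ₁ hδ₂, X₀, hX₀, fun x hx k hk hkβ => ?_⟩
    have hlog : 0 < Real.log x := Real.log_pos (by linarith)
    have h5 := hball₁ (y := (k : ℝ) / Real.log x) (by
      rw [Real.dist_eq]
      exact hkβ.trans_le (min_le_left _ _))
    have h6 : (k : ℝ) ≤ δ₂ * Real.log x := by
      have h7 := (le_abs_self _).trans (hkβ.trans_le (min_le_right _ _)).le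
      rw [sub_zero, div_le_iff₀ hlog] at h7
      exact h7
    have h8 : 1 ≤ (HS x k).ncard := by
      have := (Set.ncard_pos (HS_finite x k)).2 (hne x hx k hk h6)
      omega
    have h9 : (1 : ℝ) ≤ ((HS x k).ncard : ℝ) := by exact_mod_cast h8
    refine le_trans ?_ h9
    rw [Real.exp_le_one_iff]
    apply mul_nonpos_of_nonneg_of_nonpos hlog.le
    linarith
  · exact ht_lower_pos h0 h1 hε

/-- THE UNIFORM THEOREM -/
theorem main_heights {ε : ℝ} (hε : 0 < ε) : ∃ X₀ : ℝ, 1 < X₀ ∧ ∀ x : ℝ, X₀ ≤ x → ∀ k : ℕ, 1 ≤ k →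
    (k : ℝ) ≤ 1 / Real.log (8 / 3) * Real.log x →
    x ^ (ee (k / Real.log x) - ε) ≤ ((HS x k).ncard : ℝ) ∧
      ((HS x k).ncard : ℝ) ≤ x ^ (ee (k / Real.log x) + ε) := by
  have h83 : 0 < Real.log (8 / 3) := Real.log_pos (by norm_num)
  have h83' : 1 / 2 ≤ Real.log (8 / 3) := by
    have e : Real.log (8 / 3) = 3 * Real.log 2 - Real.log 3 := by
      rw [Real.log_div (by norm_num) (by norm_num), show (8 : ℝ) = 2 ^ 3 by norm_num, Real.log_pow]
      norm_num
    have l2a := Real.log_two_gt_d9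
    have l3b := Real.log_three_lt_d9
    norm_num at l2a l3b
    rw [e]
    linarith
  have hB2 : 1 / Real.log (8 / 3) ≤ 2 := by
    rw [div_le_iff₀ h83]
    linarith
  set B : ℝ := 1 / Real.log (8 / 3) with hB
  have hcomp : IsCompact (Set.Icc (0 : ℝ) B) := isCompact_Icc
  have key := hcomp.induction_on (p := fun S : Set ℝ => ∃ X₀ : ℝ, 1 < X₀ ∧ ∀ x : ℝ, X₀ ≤ x →
      ∀ k : ℕ, 1 ≤ k → (k : ℝ) / Real.log x ∈ S ∩ Set.Icc (0 : ℝ) B →
      Real.exp (Real.log x * (ee (k / Real.log x) - ε)) ≤ ((HS x k).ncard : ℝ) ∧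
      ((HS x k).ncard : ℝ) ≤ Real.exp (Real.log x * (ee (k / Real.log x) + ε)))
    ⟨2, by norm_num, fun x _ k _ hk => absurd hk.1 (Set.notMem_empty _)⟩
    (by
      rintro s t hst ⟨X₀, hX, h⟩
      exact ⟨X₀, hX, fun x hx k hk hks => h x hx k hk ⟨hst hks.1, hks.2⟩⟩)
    (by
      rintro s t ⟨X₀, hX, h⟩ ⟨X₁, hX', h'⟩
      refine ⟨max X₀ X₁, lt_max_of_lt_left hX, fun x hx k hk hks => ?_⟩
      rcases hks.1 with h5 | h5
      · exact h x ((le_max_left _ _).trans hx) k hk ⟨h5, hks.2⟩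
      · exact h' x ((le_max_right _ _).trans hx) k hk ⟨h5, hks.2⟩)
    (by
      intro β hβ
      obtain ⟨δ₁, hδ₁, X₁, hX₁, h₁⟩ := ht_upper_local hβ.1 hβ.2 hε
      obtain ⟨δ₂, hδ₂, X₂, hX₂, h₂⟩ := ht_lower_local hβ.1 hβ.2 hε
      refine ⟨Metric.ball β (min δ₁ δ₂), mem_nhdsWithin_of_mem_nhds
        (Metric.ball_mem_nhds β (lt_min hδ₁ hδ₂)), max X₁ X₂, lt_max_of_lt_left hX₁,
        fun x hx k hk hks => ?_⟩
      have hlog : 0 < Real.log x := Real.log_pos (by
        have := (le_max_left X₁ X₂).trans hx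
        linarith)
      have hd : |(k : ℝ) / Real.log x - β| < min δ₁ δ₂ := by
        have := hks.1
        rwa [Metric.mem_ball, Real.dist_eq] at this
      have hk2 : (k : ℝ) ≤ 2 * Real.log x := by
        have := hks.2.2
        rw [div_le_iff₀ hlog] at this
        have h5 : B * Real.log x ≤ 2 * Real.log x := mul_le_mul_of_nonneg_right hB2 hlog.le
        linarith
      exact ⟨h₂ x ((le_max_right _ _).trans hx) k hk (hd.trans_le (min_le_right _ _)),
        h₁ x ((le_max_left _ _).trans hx) k hk2 (hd.trans_le (min_le_left _ _))⟩)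
  obtain ⟨X₀, hX₀, h⟩ := key
  refine ⟨X₀, hX₀, fun x hx k hk hkB => ?_⟩
  have hx0 : 0 < x := by linarith
  have hlog : 0 < Real.log x := Real.log_pos (by linarith)
  have hmem : (k : ℝ) / Real.log x ∈ Set.Icc (0 : ℝ) B := by
    refine ⟨by positivity, ?_⟩
    rw [div_le_iff₀ hlog]
    exact hkB
  rw [Real.rpow_def_of_pos hx0, Real.rpow_def_of_pos hx0]
  exact h x hx k hk ⟨hmem, hmem⟩

end Pool.Agent.Y966.LD
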