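import Pool.Agent.Y966.LD.Main2

/-!
The shape of the trajectories of the members of a level set.
-/

set_option autoImplicit false
set_option linter.unusedVariables false

namespace Pool.Agent.Y966.LD

open Finset Filter Topology Pool.Agent.H395R2.G3

/-- uniform upper bound for the number of `n` with `T^j n = a` -/
theorem sup_level {ε : ℝ} (hε : 0 < ε) : ∃ C : ℝ, 0 < C ∧ ∀ j a : ℕ,
    {n : ℕ | fT^[j] n = a}.Finite ∧
      ({n : ℕ | fT^[j] n = a}.ncard : ℝ) ≤ C * Real.exp ((Real.log (4 / 3) + ε) * j) := by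
  obtain ⟨C, hC, hup⟩ := joint_upper (z := 3 / 4) (by norm_num) (by norm_num)
    (show 0 < ε / 2 by positivity)
  obtain ⟨K', hK'0, hK'⟩ := log_lin (show 0 < ε / 2 by positivity)
  refine ⟨C * Real.exp K', by positivity, fun j a => ?_⟩
  classical
  have hcov : ∀ n ∈ {n : ℕ | fT^[j] n = a}, ∃ o ∈ range (j + 1),
      n ∈ {n : ℕ | fT^[j] n = a ∧ oN j n = o} := by
    intro n hn
    exact ⟨oN j n, mem_range.2 (by have := oN_le j n; omega), hn, rfl⟩
  have hmaps : ∀ o : ℕ, ∀ m ∈ {n : ℕ | fT^[j] n = a ∧ oN j n = o},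
      (m : ℤ) ∈ {n : ℤ | TZ^[j] n = a ∧ oc j n = o} := by
    rintro o m ⟨hm, ho⟩
    refine ⟨?_, ?_⟩
    · rw [← cast_fT_iter, hm]
    · rw [← oN_eq, ho]
  have hfin : ∀ o : ℕ, {n : ℕ | fT^[j] n = a ∧ oN j n = o}.Finite := fun o =>
    Set.Finite.of_injOn (hmaps o) (Nat.cast_injective.injOn) (ncard_le_WO j o a).1
  have hle : ∀ o : ℕ, ({n : ℕ | fT^[j] n = a ∧ oN j n = o}.ncard : ℝ) ≤
      C * Real.exp (ε / 2 * j) * (4 / 3) ^ j := by
    intro o
    have h1 : {n : ℕ | fT^[j] n = a ∧ oN j n = o}.ncard ≤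
        {n : ℤ | TZ^[j] n = a ∧ oc j n = o}.ncard :=
      Set.ncard_le_ncard_of_injOn (fun m : ℕ => (m : ℤ)) (hmaps o) (Nat.cast_injective.injOn)
        (ncard_le_WO j o a).1
    have h1' : ({n : ℕ | fT^[j] n = a ∧ oN j n = o}.ncard : ℝ) ≤
        ({n : ℤ | TZ^[j] n = a ∧ oc j n = o}.ncard : ℝ) := by exact_mod_cast h1
    have h2 := hup j o a
    have hth : Pool.Agent.Y966.NZ.th 3 (3 / 4) = 1 := by
      unfold Pool.Agent.Y966.NZ.th
      norm_num
    rw [hth, one_pow, one_mul] at h2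
    have h3 : (3 / 4 : ℝ) ^ j * (4 / 3) ^ j = 1 := by
      rw [← mul_pow]
      norm_num
    have h4 : ({n : ℤ | TZ^[j] n = a ∧ oc j n = o}.ncard : ℝ) =
        (3 / 4 : ℝ) ^ j * ({n : ℤ | TZ^[j] n = a ∧ oc j n = o}.ncard : ℝ) * (4 / 3) ^ j := by
      rw [mul_right_comm, h3, one_mul]
    rw [h4] at h1'
    exact h1'.trans (mul_le_mul_of_nonneg_right h2 (by positivity))
  obtain ⟨hf, hc⟩ := ncard_le_sum (range (j + 1)) (fun o => {n : ℕ | fT^[j] n = a ∧ oN j n = o})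
    (fun o _ => hfin o) {n : ℕ | fT^[j] n = a} hcov
  refine ⟨hf, ?_⟩
  have hc' : ({n : ℕ | fT^[j] n = a}.ncard : ℝ) ≤
      ∑ o ∈ range (j + 1), ({n : ℕ | fT^[j] n = a ∧ oN j n = o}.ncard : ℝ) := by exact_mod_cast hc
  refine hc'.trans ((sum_le_sum fun o _ => hle o).trans ?_)
  rw [sum_const, card_range, nsmul_eq_mul]
  push_cast
  have h5 : (j : ℝ) + 1 ≤ Real.exp (ε / 2 * j + K') := by
    have h6 := hK' j (Nat.cast_nonneg j)
    rw [← Real.log_le_iff_le_exp (by positivity)]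
    exact h6
  have h7 : (4 / 3 : ℝ) ^ j = Real.exp (Real.log (4 / 3) * j) := by
    rw [mul_comm, Real.exp_nat_mul, Real.exp_log (by norm_num)]
  calc ((j : ℝ) + 1) * (C * Real.exp (ε / 2 * j) * (4 / 3) ^ j)
      ≤ Real.exp (ε / 2 * j + K') * (C * Real.exp (ε / 2 * j) * (4 / 3) ^ j) :=
        mul_le_mul_of_nonneg_right h5 (by positivity)
    _ = C * Real.exp K' * Real.exp ((Real.log (4 / 3) + ε) * j) := by
        rw [h7, Real.exp_add]
        have : Real.exp ((Real.log (4 / 3) + ε) * j) =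
            Real.exp (ε / 2 * j) * Real.exp (ε / 2 * j) * Real.exp (Real.log (4 / 3) * j) := by
          rw [← Real.exp_add, ← Real.exp_add]
          congr 1
          ring
        rw [this]
        ring

theorem lev_iter {k j n : ℕ} (h : n ∈ Lev k) (hj : j ≤ k) : fT^[j] n ∈ Lev (k - j) := by
  refine ⟨?_, ?_⟩
  · change fT^[k - j] (fT^[j] n) = 1
    rw [← Function.iterate_add_apply, Nat.sub_add_cancel hj]
    exact h.1
  · intro i hi
    have hi' : fT^[i] (fT^[j] n) = 1 := hi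
    rw [← Function.iterate_add_apply] at hi'
    have := h.2 (show i + j ∈ {j : ℕ | fT^[j] n = 1} from hi')
    omega

/-- counting through an intermediate level -/
theorem pair_count {ε : ℝ} (hε : 0 < ε) : ∃ C : ℝ, 0 < C ∧ ∀ k j o : ℕ, j ≤ k →
    {n : ℕ | n ∈ Lev k ∧ oN (k - j) (fT^[j] n) = o}.Finite ∧
    ({n : ℕ | n ∈ Lev k ∧ oN (k - j) (fT^[j] n) = o}.ncard : ℝ) ≤
      ((Lv (k - j) o).ncard : ℝ) * (C * Real.exp ((Real.log (4 / 3) + ε) * j)) := by
  obtain ⟨C, hC, hup⟩ := sup_level hε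
  refine ⟨C, hC, fun k j o hj => ?_⟩
  classical
  have hfinL := (Lv_fin (k - j) o).1
  obtain ⟨hf, hc⟩ := ncard_le_sum hfinL.toFinset (fun a => {n : ℕ | fT^[j] n = a})
    (fun a _ => (hup j a).1) {n : ℕ | n ∈ Lev k ∧ oN (k - j) (fT^[j] n) = o} (by
      rintro n ⟨hn1, hn2⟩
      refine ⟨fT^[j] n, ?_, rfl⟩
      rw [Set.Finite.mem_toFinset]
      have := lev_iter hn1 hj
      exact ⟨pos_of_least this, this, hn2⟩)
  refine ⟨hf, ?_⟩
  have hc' : ({n : ℕ | n ∈ Lev k ∧ oN (k - j) (fT^[j] n) = o}.ncard : ℝ) ≤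
      ∑ a ∈ hfinL.toFinset, ({n : ℕ | fT^[j] n = a}.ncard : ℝ) := by exact_mod_cast hc
  refine hc'.trans ((sum_le_sum fun a _ => (hup j a).2).trans ?_)
  rw [sum_const, nsmul_eq_mul, Set.ncard_eq_toFinset_card _ hfinL]

/-- deviation of the number of odd terms after time `j`: large -/
theorem dev_pos {η : ℝ} (hη : 0 < η) : ∃ c : ℝ, 0 < c ∧ ∃ C : ℝ, 0 < C ∧ ∀ i o k : ℕ, i ≤ k →
    (1 / 4 * (i : ℝ) + η * k ≤ o ∨ (o : ℝ) ≤ 1 / 4 * i - η * k) →
      ((Lv i o).ncard : ℝ) ≤ C * Real.exp (Real.log (4 / 3) * i - c * k) := by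
  set d : ℝ := min (η / 2) (1 / 24) with hd
  have hd0 : 0 < d := lt_min (by positivity) (by norm_num)
  have hd1 : d ≤ η / 2 := min_le_left _ _
  have hd2 : d ≤ 1 / 24 := min_le_right _ _
  have F1 : FF (1 / 4 + d) < Real.log (4 / 3) := FF_lt (by linarith) (by linarith) (by linarith)
  have F2 : FF (1 / 4 - d) < Real.log (4 / 3) := FF_lt (by linarith) (by linarith) (by linarith)
  -- the two tilts
  set z₁ : ℝ := 1 - (1 / 4 + d) with hz₁
  set z₂ : ℝ := 1 - (1 / 4 - d) with hz₂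
  set b₁ : ℝ := -Real.log (3 * (1 - z₁) / z₁) with hb₁
  set b₂ : ℝ := -Real.log (3 * (1 - z₂) / z₂) with hb₂
  have hb₁0 : b₁ < 0 := by
    have : 0 < Real.log (3 * (1 - z₁) / z₁) := by
      apply Real.log_pos
      rw [lt_div_iff₀ (by rw [hz₁]; linarith), hz₁]
      linarith
    linarith
  have hb₂0 : 0 < b₂ := by
    have : Real.log (3 * (1 - z₂) / z₂) < 0 := by
      apply Real.log_neg
      · apply div_pos _ (by rw [hz₂]; linarith)
        rw [hz₂]
        linarith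
      · rw [div_lt_one (by rw [hz₂]; linarith), hz₂]
        linarith
    linarith
  have P1 : -Real.log z₁ + (1 / 4 + d) * b₁ = FF (1 / 4 + d) := by
    have := phi_eq (ρ := 1 / 4 + d) (by linarith) (by linarith)
    unfold phi at this
    exact this
  have P2 : -Real.log z₂ + (1 / 4 - d) * b₂ = FF (1 / 4 - d) := by
    have := phi_eq (ρ := 1 / 4 - d) (by linarith) (by linarith)
    unfold phi at this
    exact this
  set c : ℝ := min (η / 4 * (-b₁)) (η / 4 * b₂) with hc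
  have hc0 : 0 < c := by
    apply lt_min
    · have : 0 < -b₁ := by linarith
      positivity
    · positivity
  have hc1 : c ≤ η / 4 * (-b₁) := min_le_left _ _
  have hc2 : c ≤ η / 4 * b₂ := min_le_right _ _
  obtain ⟨C₁, hC₁, hup₁⟩ := Lv_upper (z := z₁) (by rw [hz₁]; linarith) (by rw [hz₁]; linarith) hc0
  obtain ⟨C₂, hC₂, hup₂⟩ := Lv_upper (z := z₂) (by rw [hz₂]; linarith) (by rw [hz₂]; linarith) hc0
  refine ⟨c, hc0, max C₁ C₂, lt_max_of_lt_left hC₁, fun i o k hik hdev => ?_⟩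
  have hik' : (i : ℝ) ≤ k := by exact_mod_cast hik
  have hi0 : (0 : ℝ) ≤ i := Nat.cast_nonneg i
  have hk0 : (0 : ℝ) ≤ k := Nat.cast_nonneg k
  have hci : c * i ≤ c * k := mul_le_mul_of_nonneg_left hik' hc0.le
  rcases hdev with h | h
  · refine (hup₁ i o).trans (mul_le_mul (le_max_left _ _) (Real.exp_le_exp.2 ?_) (Real.exp_pos _).le
      (hC₁.le.trans (le_max_left _ _)))
    rw [← hb₁]
    have h1 : (o : ℝ) * b₁ ≤ (1 / 4 * i + η * k) * b₁ := mul_le_mul_of_nonpos_right h hb₁0.le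
    have h2 : d * (-b₁) * i ≤ η / 2 * (-b₁) * k := by
      have h3 : d * (-b₁) ≤ η / 2 * (-b₁) := mul_le_mul_of_nonneg_right hd1 (by linarith)
      have h4 : 0 ≤ η / 2 * (-b₁) := by
        have : 0 < -b₁ := by linarith
        positivity
      calc d * (-b₁) * i ≤ η / 2 * (-b₁) * i := mul_le_mul_of_nonneg_right h3 hi0
        _ ≤ η / 2 * (-b₁) * k := mul_le_mul_of_nonneg_left hik' h4
    have h5 : (i : ℝ) * (-Real.log z₁) = i * FF (1 / 4 + d) - (1 / 4 + d) * b₁ * i := by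
      rw [← P1]
      ring
    have h6 : (i : ℝ) * FF (1 / 4 + d) ≤ i * Real.log (4 / 3) :=
      mul_le_mul_of_nonneg_left F1.le hi0
    have h7 : c * k ≤ η / 4 * (-b₁) * k := mul_le_mul_of_nonneg_right hc1 hk0
    rw [h5]
    linarith
  · refine (hup₂ i o).trans (mul_le_mul (le_max_right _ _) (Real.exp_le_exp.2 ?_) (Real.exp_pos _).le
      (hC₁.le.trans (le_max_left _ _)))
    rw [← hb₂]
    have h1 : (o : ℝ) * b₂ ≤ (1 / 4 * i - η * k) * b₂ := mul_le_mul_of_nonneg_right h hb₂0.le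
    have h2 : d * b₂ * i ≤ η / 2 * b₂ * k := by
      have h3 : d * b₂ ≤ η / 2 * b₂ := mul_le_mul_of_nonneg_right hd1 hb₂0.le
      calc d * b₂ * i ≤ η / 2 * b₂ * i := mul_le_mul_of_nonneg_right h3 hi0
        _ ≤ η / 2 * b₂ * k := mul_le_mul_of_nonneg_left hik' (by positivity)
    have h5 : (i : ℝ) * (-Real.log z₂) = i * FF (1 / 4 - d) - (1 / 4 - d) * b₂ * i := by
      rw [← P2]
      ring
    have h6 : (i : ℝ) * FF (1 / 4 - d) ≤ i * Real.log (4 / 3) :=
      mul_le_mul_of_nonneg_left F2.le hi0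
    have h7 : c * k ≤ η / 4 * b₂ * k := mul_le_mul_of_nonneg_right hc2 hk0
    rw [h5]
    linarith

/-- THE SHAPE THEOREM -/
theorem shape {η : ℝ} (hη : 0 < η) : ∃ c : ℝ, 0 < c ∧ ∃ k₀ : ℕ, ∀ k : ℕ, k₀ ≤ k →
    ({n : ℕ | n ∈ Lev k ∧ ∃ j : ℕ, j ≤ k ∧
      η * k < |Real.log ((fT^[j] n : ℕ) : ℝ) - (Real.log (16 / 3) / 4) * (k - j)|}.ncard : ℝ) ≤
      Real.exp (-(c * k)) * ((Lev k).ncard : ℝ) := by
  have hl3 : 0 < Real.log 3 := Real.log_pos (by norm_num)
  have e16 : Real.log (16 / 3) = 4 * Real.log 2 - Real.log 3 := by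
    rw [Real.log_div (by norm_num) (by norm_num), show (16 : ℝ) = 2 ^ 4 by norm_num, Real.log_pow]
    norm_num
  set η' : ℝ := η / (2 * Real.log 3) with hη'
  have hη'0 : 0 < η' := by positivity
  obtain ⟨c, hc, C, hC, hdev⟩ := dev_pos hη'0
  obtain ⟨C₂, hC₂, hpair⟩ := pair_count (show 0 < c / 4 by positivity)
  obtain ⟨k₁, hk₁⟩ := level_lower (r := 1 / 4) (by norm_num) (by norm_num) (by
    rw [FF_quarter]
    exact Real.log_pos (by norm_num)) (show 0 < c / 4 by positivity)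
  obtain ⟨k₂, hk₂⟩ := log_small (show 0 < η / 2 by positivity) 0
  obtain ⟨K', hK'0, hK'⟩ := log_lin (show 0 < c / 16 by positivity)
  obtain ⟨k₃, hk₃⟩ := exists_nat_ge (16 * (2 * K' + |Real.log C| + |Real.log C₂|) / c)
  refine ⟨c / 8, by positivity, max k₁ (max k₂ k₃), fun k hk => ?_⟩
  have hkk1 : k₁ ≤ k := (le_max_left _ _).trans hk
  have hkk2 : k₂ ≤ k := ((le_max_left _ _).trans (le_max_right _ _)).trans hk
  have hkk3 : k₃ ≤ k := ((le_max_right _ _).trans (le_max_right _ _)).trans hk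
  have hk0 : (0 : ℝ) ≤ k := Nat.cast_nonneg k
  obtain ⟨o₀, _, hl⟩ := hk₁ k hkk1
  rw [FF_quarter] at hl
  have hlog := hk₂ k hkk2
  have hlev : Real.exp ((Real.log (4 / 3) - c / 4) * k) ≤ ((Lev k).ncard : ℝ) := by
    refine hl.trans ?_
    have hsub0 : Lv k o₀ ⊆ Lev k := fun n hn => hn.2.1
    exact_mod_cast Set.ncard_le_ncard hsub0 (Lev_finite k)
  classical
  set F : Finset (ℕ × ℕ) := ((range (k + 1)) ×ˢ (range (k + 1))).filter fun q =>
    (1 / 4 * ((k - q.1 : ℕ) : ℝ) + η' * k ≤ q.2 ∨ (q.2 : ℝ) ≤ 1 / 4 * ((k - q.1 : ℕ) : ℝ) - η' * k)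
    with hF
  set S : Set ℕ := {n : ℕ | n ∈ Lev k ∧ ∃ j : ℕ, j ≤ k ∧
      η * k < |Real.log ((fT^[j] n : ℕ) : ℝ) - (Real.log (16 / 3) / 4) * (k - j)|} with hS
  have hcov : ∀ n ∈ S, ∃ q ∈ F, n ∈ {n : ℕ | n ∈ Lev k ∧ oN (k - q.1) (fT^[q.1] n) = q.2} := by
    rintro n ⟨hn, j, hj, hjn⟩
    refine ⟨(j, oN (k - j) (fT^[j] n)), ?_, hn, rfl⟩
    have hlevj := lev_iter hn hj
    have hpos := pos_of_least hlevj
    obtain ⟨hs1, hs2⟩ := log_size hpos hlevj
    have hole := oN_le (k - j) (fT^[j] n)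
    set o : ℕ := oN (k - j) (fT^[j] n) with ho
    rw [hF, mem_filter, mem_product, mem_range, mem_range]
    refine ⟨⟨by omega, by omega⟩, ?_⟩
    dsimp only
    have hcast : ((k - j : ℕ) : ℝ) = k - j := Nat.cast_sub hj
    rw [hcast] at hs1 hs2
    rw [hcast]
    have hlog2 : Real.log ((o : ℝ) + 1) ≤ Real.log ((k : ℝ) + 1) := by
      apply Real.log_le_log (by positivity)
      have : (o : ℝ) ≤ k := by exact_mod_cast (hole.trans (Nat.sub_le k j))
      linarith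
    by_contra hcon
    push Not at hcon
    obtain ⟨h1, h2⟩ := hcon
    rw [e16] at hjn
    have h3 : η' * k * Real.log 3 = η / 2 * k := by
      rw [hη']
      field_simp
    have h4 : (o : ℝ) * Real.log 3 < (1 / 4 * (k - j) + η' * k) * Real.log 3 :=
      mul_lt_mul_of_pos_right h1 hl3
    have h5 : (1 / 4 * ((k : ℝ) - j) - η' * k) * Real.log 3 < o * Real.log 3 :=
      mul_lt_mul_of_pos_right h2 hl3
    have h6 : |Real.log ((fT^[j] n : ℕ) : ℝ) - ((4 * Real.log 2 - Real.log 3) / 4) * (k - j)| ≤ η * k := by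
      rw [abs_le]
      constructor
      · nlinarith
      · nlinarith
    linarith
  obtain ⟨hf, hcs⟩ := ncard_le_sum F (fun q => {n : ℕ | n ∈ Lev k ∧ oN (k - q.1) (fT^[q.1] n) = q.2})
    (fun q hq => by
      rw [hF, mem_filter, mem_product, mem_range, mem_range] at hq
      exact (hpair k q.1 q.2 (by omega)).1) S hcov
  have hcs' : (S.ncard : ℝ) ≤ ∑ q ∈ F,
      ({n : ℕ | n ∈ Lev k ∧ oN (k - q.1) (fT^[q.1] n) = q.2}.ncard : ℝ) := by exact_mod_cast hcs
  set B : ℝ := C * C₂ * Real.exp ((Real.log (4 / 3) + c / 4) * k - c * k) with hB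
  have hB0 : 0 ≤ B := by positivity
  have hterm : ∀ q ∈ F, ({n : ℕ | n ∈ Lev k ∧ oN (k - q.1) (fT^[q.1] n) = q.2}.ncard : ℝ) ≤ B := by
    intro q hq
    rw [hF, mem_filter, mem_product, mem_range, mem_range] at hq
    obtain ⟨⟨hq1, hq2⟩, hq3⟩ := hq
    have hj : q.1 ≤ k := by omega
    refine (hpair k q.1 q.2 hj).2.trans ?_
    have h1 := hdev (k - q.1) q.2 k (Nat.sub_le _ _) hq3
    refine (mul_le_mul_of_nonneg_right h1 (by positivity)).trans ?_
    have h2 : C * Real.exp (Real.log (4 / 3) * ((k - q.1 : ℕ) : ℝ) - c * k) *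
        (C₂ * Real.exp ((Real.log (4 / 3) + c / 4) * q.1)) =
        C * C₂ * Real.exp ((Real.log (4 / 3) * ((k - q.1 : ℕ) : ℝ) - c * k) +
          ((Real.log (4 / 3) + c / 4) * q.1)) := by
      rw [Real.exp_add]
      ring
    rw [h2, hB]
    apply mul_le_mul_of_nonneg_left _ (by positivity)
    apply Real.exp_le_exp.2
    rw [Nat.cast_sub hj]
    have h3 : (q.1 : ℝ) ≤ k := by exact_mod_cast hj
    have h4 : c / 4 * (q.1 : ℝ) ≤ c / 4 * k := mul_le_mul_of_nonneg_left h3 (by positivity)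
    linarith
  have hsum : ∑ q ∈ F, ({n : ℕ | n ∈ Lev k ∧ oN (k - q.1) (fT^[q.1] n) = q.2}.ncard : ℝ) ≤
      ((k : ℝ) + 1) ^ 2 * B := by
    calc _ ≤ ∑ q ∈ F, B := sum_le_sum hterm
      _ = F.card * B := by rw [sum_const, nsmul_eq_mul]
      _ ≤ ((k : ℝ) + 1) ^ 2 * B := by
          apply mul_le_mul_of_nonneg_right _ hB0
          have : F.card ≤ (k + 1) * (k + 1) := by
            refine (card_filter_le _ _).trans ?_
            rw [card_product, card_range]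
          have h' : (F.card : ℝ) ≤ ((k + 1) * (k + 1) : ℕ) := by exact_mod_cast this
          push_cast at h'
          linarith [h', sq ((k : ℝ) + 1)]
  refine (hcs'.trans hsum).trans (le_trans ?_ (mul_le_mul_of_nonneg_left hlev (Real.exp_pos _).le))
  rw [← Real.exp_add]
  have hK1 : (0 : ℝ) < (k : ℝ) + 1 := by positivity
  have e3 : ((k : ℝ) + 1) ^ 2 * B = Real.exp (2 * Real.log ((k : ℝ) + 1) + (Real.log C +
      (Real.log C₂ + ((Real.log (4 / 3) + c / 4) * k - c * k)))) := by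
    rw [Real.exp_add, Real.exp_add, Real.exp_add, Real.exp_log hC, Real.exp_log hC₂, hB,
      show (2 : ℝ) * Real.log ((k : ℝ) + 1) = ((2 : ℕ) : ℝ) * Real.log ((k : ℝ) + 1) by norm_num,
      Real.exp_nat_mul, Real.exp_log hK1]
    ring
  rw [e3]
  apply Real.exp_le_exp.2
  have h10 := hK' k hk0
  have h11 : 2 * K' + |Real.log C| + |Real.log C₂| ≤ c / 16 * k := by
    have h12 : 16 * (2 * K' + |Real.log C| + |Real.log C₂|) / c ≤ k :=
      hk₃.trans (by exact_mod_cast hkk3)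
    rw [div_le_iff₀ hc] at h12
    linarith
  have h13 := le_abs_self (Real.log C)
  have h14 := le_abs_self (Real.log C₂)
  nlinarith

end Pool.Agent.Y966.LD
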