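import Pool.Agent.Y966.LD.Low

/-!
Trajectories of positive integers: size of the starting point in terms of the number of steps and
of odd steps before reaching `1`.
-/

set_option autoImplicit false
set_option linter.unusedVariables false

namespace Pool.Agent.Y966.LD

open Finset Pool.Agent.H395R2.G3

/-- number of odd terms among the first `k` terms of the trajectory (natural numbers) -/
def oN (k : ℕ) (n : ℕ) : ℕ := ((range k).filter fun i => fT^[i] n % 2 = 1).card

theorem cast_fT (n : ℕ) : ((fT n : ℕ) : ℤ) = TZ (n : ℤ) := by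
  unfold fT TZ
  by_cases h : n % 2 = 0
  · have h' : (n : ℤ) % 2 = 0 := by omega
    rw [if_pos h, if_pos h']
    push_cast
    rfl
  · have h' : ¬ (n : ℤ) % 2 = 0 := by omega
    rw [if_neg h, if_neg h']
    push_cast
    rfl

theorem cast_fT_iter (k n : ℕ) : ((fT^[k] n : ℕ) : ℤ) = TZ^[k] (n : ℤ) := by
  induction k generalizing n with
  | zero => rfl
  | succ k ih => rw [Function.iterate_succ_apply, Function.iterate_succ_apply, ih, cast_fT]

theorem oN_eq (k n : ℕ) : oN k n = oc k (n : ℤ) := by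
  unfold oN oc
  congr 1
  ext i
  simp only [mem_filter, ← cast_fT_iter]
  refine and_congr_right fun _ => ?_
  omega

theorem oN_zero (n : ℕ) : oN 0 n = 0 := by simp [oN]

theorem oN_succ' (k : ℕ) (n : ℕ) : oN (k + 1) n = (if n % 2 = 1 then 1 else 0) + oN k (fT n) := by
  rw [oN_eq, oc_succ', oN_eq, cast_fT]
  congr 1
  by_cases h : n % 2 = 1
  · rw [if_pos h, if_pos (by omega)]
  · rw [if_neg h, if_neg (by omega)]

theorem oN_add (j k : ℕ) (n : ℕ) : oN (j + k) n = oN j n + oN k (fT^[j] n) := by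
  rw [oN_eq, oc_add, oN_eq, oN_eq, cast_fT_iter]

theorem oN_le (k n : ℕ) : oN k n ≤ k := by
  rw [oN_eq]
  exact oc_le _ _

theorem fT_pos {n : ℕ} (h : 1 ≤ n) : 1 ≤ fT n := by
  unfold fT
  split_ifs <;> omega

theorem fT_iter_pos {n : ℕ} (h : 1 ≤ n) (k : ℕ) : 1 ≤ fT^[k] n := by
  induction k with
  | zero => exact h
  | succ k ih => rw [Function.iterate_succ_apply']; exact fT_pos ih

theorem size_id {n : ℕ} (h : 1 ≤ n) (k : ℕ) :
    (2 : ℝ) ^ k * (fT^[k] n : ℕ) = 3 ^ oN k n * n *
      ∏ i ∈ (range k).filter (fun i => fT^[i] n % 2 = 1), (1 + 1 / (3 * ((fT^[i] n : ℕ) : ℝ))) := by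
  induction k with
  | zero => simp [oN]
  | succ k ih =>
    have hx := fT_iter_pos h k
    have hoN : oN (k + 1) n = oN k n + if fT^[k] n % 2 = 1 then 1 else 0 := by
      rw [oN_add]
      congr 1
      rw [oN_succ', oN_zero, add_zero]
    rw [hoN, range_add_one, filter_insert, Function.iterate_succ_apply', pow_succ]
    set x := fT^[k] n with hxdef
    have hx0 : (0 : ℝ) < (x : ℝ) := by exact_mod_cast hx
    by_cases hodd : x % 2 = 1
    · rw [if_pos hodd, if_pos hodd, prod_insert (by simp)]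
      have h1 : 2 * fT x = 3 * x + 1 := by
        unfold fT
        rw [if_neg (by omega)]
        omega
      have h1' : 2 * ((fT x : ℕ) : ℝ) = 3 * x + 1 := by exact_mod_cast h1
      rw [← hxdef, pow_succ]
      calc (2 : ℝ) ^ k * 2 * ((fT x : ℕ) : ℝ) = 2 ^ k * (2 * ((fT x : ℕ) : ℝ)) := by ring
        _ = (2 ^ k * x) * (3 * (1 + 1 / (3 * (x : ℝ)))) := by
            rw [h1']
            field_simp
        _ = _ := by rw [ih]; ring
    · rw [if_neg hodd, if_neg hodd, add_zero]
      have h1 : 2 * fT x = x := by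
        unfold fT
        rw [if_pos (by omega)]
        omega
      have h1' : 2 * ((fT x : ℕ) : ℝ) = x := by exact_mod_cast h1
      rw [← ih, mul_assoc, h1']

/-- the terms before the first visit of `1` are distinct -/
theorem distinct {n k : ℕ} (hk : IsLeast {j : ℕ | fT^[j] n = 1} k) :
    Set.InjOn (fun i => fT^[i] n) (Set.Iio k) := by
  have key : ∀ i j : ℕ, i < j → j < k → fT^[i] n ≠ fT^[j] n := by
    intro i j hij hjk heq
    have h1 : fT^[k - (j - i)] n = 1 := by
      have e1 : k - (j - i) = (k - j) + i := by omega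
      have e2 : k = (k - j) + j := by omega
      rw [e1, Function.iterate_add_apply, heq, ← Function.iterate_add_apply, ← e2]
      exact hk.1
    have h2 := hk.2 (show k - (j - i) ∈ {j : ℕ | fT^[j] n = 1} from h1)
    omega
  intro i hi j hj heq
  rcases lt_trichotomy i j with h | h | h
  · exact absurd heq (key i j h hj)
  · exact h
  · exact absurd heq.symm (key j i h hi)

/-- size of the starting point -/
theorem size_bounds {n k : ℕ} (h : 1 ≤ n) (hk : IsLeast {j : ℕ | fT^[j] n = 1} k) :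
    (3 : ℝ) ^ oN k n * n ≤ 2 ^ k ∧ (2 : ℝ) ^ k ≤ 3 ^ oN k n * n * (oN k n + 1) := by
  have hid := size_id h k
  have h1 : fT^[k] n = 1 := hk.1
  rw [h1] at hid
  have hS := distinct hk
  have himg : ∏ i ∈ (range k).filter (fun i => fT^[i] n % 2 = 1),
      (1 + 1 / (3 * ((fT^[i] n : ℕ) : ℝ))) =
      ∏ b ∈ ((range k).filter (fun i => fT^[i] n % 2 = 1)).image (fun i => fT^[i] n),
        (1 + 1 / (3 * (b : ℝ))) := by
    rw [prod_image]
    intro i hi j hj hij
    have hi' := mem_range.1 (mem_filter.1 hi).1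
    have hj' := mem_range.1 (mem_filter.1 hj).1
    exact hS hi' hj' hij
  have hcard : (((range k).filter (fun i => fT^[i] n % 2 = 1)).image (fun i => fT^[i] n)).card =
      oN k n := by
    unfold oN
    apply card_image_of_injOn
    intro i hi j hj hij
    have hi' := mem_range.1 (mem_filter.1 hi).1
    have hj' := mem_range.1 (mem_filter.1 hj).1
    exact hS hi' hj' hij
  have hone : (1 : ℝ) ≤ ∏ i ∈ (range k).filter (fun i => fT^[i] n % 2 = 1),
      (1 + 1 / (3 * ((fT^[i] n : ℕ) : ℝ))) := by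
    calc (1 : ℝ) = ∏ i ∈ (range k).filter (fun i => fT^[i] n % 2 = 1), 1 := by simp
      _ ≤ _ := by
          apply prod_le_prod
          · intro i _
            norm_num
          · intro i _
            have : (0 : ℝ) ≤ 1 / (3 * ((fT^[i] n : ℕ) : ℝ)) := by positivity
            linarith
  have h0 : (0 : ℝ) ≤ 3 ^ oN k n * n := by positivity
  constructor
  · push_cast at hid
    nlinarith
  · push_cast at hid
    rw [mul_one] at hid
    rw [hid]
    apply mul_le_mul_of_nonneg_left _ h0
    rw [himg]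
    refine prod_le (oN k n) _ hcard ?_
    intro b hb
    obtain ⟨i, _, rfl⟩ := mem_image.1 hb
    exact fT_iter_pos h i

/-- logarithmic form -/
theorem log_size {n k : ℕ} (h : 1 ≤ n) (hk : IsLeast {j : ℕ | fT^[j] n = 1} k) :
    Real.log n ≤ k * Real.log 2 - oN k n * Real.log 3 ∧
    k * Real.log 2 - oN k n * Real.log 3 ≤ Real.log n + Real.log (oN k n + 1) := by
  obtain ⟨h1, h2⟩ := size_bounds h hk
  have hn : (0 : ℝ) < n := by exact_mod_cast h
  constructor
  · have h3 := Real.log_le_log (by positivity) h1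
    rw [Real.log_mul (by positivity) hn.ne', Real.log_pow, Real.log_pow] at h3
    linarith
  · have h3 := Real.log_le_log (by positivity) h2
    rw [Real.log_mul (by positivity) (by positivity), Real.log_mul (by positivity) hn.ne',
      Real.log_pow, Real.log_pow] at h3
    linarith

/-- the numbers with total stopping time `k` and `o` odd terms before reaching `1` -/
def Lv (k o : ℕ) : Set ℕ := {n : ℕ | 1 ≤ n ∧ IsLeast {j : ℕ | fT^[j] n = 1} k ∧ oN k n = o}

theorem Lv_fin (k o : ℕ) : (Lv k o).Finite ∧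
    (Lv k o).ncard ≤ {n : ℤ | TZ^[k] n = 1 ∧ oc k n = o}.ncard := by
  have hf := (ncard_le_WO k o 1).1
  have hmaps : ∀ m ∈ Lv k o, (m : ℤ) ∈ {n : ℤ | TZ^[k] n = 1 ∧ oc k n = o} := by
    rintro m ⟨_, hm, ho⟩
    refine ⟨?_, ?_⟩
    · rw [← cast_fT_iter, hm.1]
      rfl
    · rw [← oN_eq, ho]
  constructor
  · exact Set.Finite.of_injOn hmaps (Nat.cast_injective.injOn) hf
  · exact Set.ncard_le_ncard_of_injOn (fun m : ℕ => (m : ℤ)) hmaps (Nat.cast_injective.injOn) hf

/-- upper bound for the joint level sets -/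
theorem Lv_upper {z : ℝ} (h0 : 2 / 3 < z) (h1 : z < 1) {ε : ℝ} (hε : 0 < ε) :
    ∃ C : ℝ, 0 < C ∧ ∀ (k o : ℕ),
      ((Lv k o).ncard : ℝ) ≤ C * Real.exp (ε * k + k * (-Real.log z) +
        o * (-Real.log (3 * (1 - z) / z))) := by
  obtain ⟨C, hC, hup⟩ := joint_upper h0 h1 hε
  refine ⟨C, hC, fun k o => ?_⟩
  have hz0 : 0 < z := by linarith
  have hth : Pool.Agent.Y966.NZ.th 3 z = 3 * (1 - z) / z := by
    unfold Pool.Agent.Y966.NZ.th
    push_cast
    rfl
  have hth0 : 0 < 3 * (1 - z) / z := by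
    have : 0 < 1 - z := by linarith
    positivity
  have h2 := hup k o 1
  rw [hth] at h2
  have h3 : ((Lv k o).ncard : ℝ) ≤ ({n : ℤ | TZ^[k] n = 1 ∧ oc k n = o}.ncard : ℝ) := by
    exact_mod_cast (Lv_fin k o).2
  have h4 : (3 * (1 - z) / z) ^ o * z ^ k * ((Lv k o).ncard : ℝ) ≤ C * Real.exp (ε * k) :=
    (mul_le_mul_of_nonneg_left h3 (by positivity)).trans h2
  have h5 : (3 * (1 - z) / z) ^ o * z ^ k =
      Real.exp (-(k * (-Real.log z) + o * (-Real.log (3 * (1 - z) / z)))) := by
    have e1 : (3 * (1 - z) / z) ^ o = Real.exp (o * Real.log (3 * (1 - z) / z)) := by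
      rw [Real.exp_nat_mul, Real.exp_log hth0]
    have e2 : z ^ k = Real.exp (k * Real.log z) := by
      rw [Real.exp_nat_mul, Real.exp_log hz0]
    rw [e1, e2, ← Real.exp_add]
    congr 1
    ring
  rw [h5, Real.exp_neg, inv_mul_le_iff₀ (Real.exp_pos _)] at h4
  refine h4.trans (le_of_eq ?_)
  have e3 : Real.exp (ε * (k : ℝ) + k * (-Real.log z) + o * (-Real.log (3 * (1 - z) / z))) =
      Real.exp (k * (-Real.log z) + o * (-Real.log (3 * (1 - z) / z))) * Real.exp (ε * k) := by
    rw [← Real.exp_add]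
    congr 1
    ring
  rw [e3]
  ring

end Pool.Agent.Y966.LD
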