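import Pool.Agent.Y966.NZ.Upper
import Pool.Agent.H377R2.NK.Fin

/-!
Upper bound for the number of integers which reach `a` in exactly `k` steps of the `3x+1` map, `o`
of them at odd numbers, uniformly in `a`, for every letter weight `z > 2/3`.
-/

set_option autoImplicit false
set_option linter.unusedVariables false

namespace Pool.Agent.Y966.LD

open Finset Pool.Agent.H320R2.PD Pool.Agent.H377R2.NK Pool.Agent.Y966.NZ

/-- the `3x+1` map on the integers -/
def TZ (m : ℤ) : ℤ := if m % 2 = 0 then m / 2 else (3 * m + 1) / 2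

/-- number of odd terms among the first `k` terms of the trajectory -/
def oc (k : ℕ) (n : ℤ) : ℕ := ((range k).filter fun i => TZ^[i] n % 2 = 1).card

theorem oc_zero (n : ℤ) : oc 0 n = 0 := by simp [oc]

theorem oc_succ (k : ℕ) (n : ℤ) : oc (k + 1) n = oc k n + if TZ^[k] n % 2 = 1 then 1 else 0 := by
  unfold oc
  rw [range_add_one, filter_insert]
  split_ifs with h
  · rw [card_insert_of_notMem (by simp)]
  · rfl

/-- counting from the first term -/
theorem oc_succ' (k : ℕ) (n : ℤ) : oc (k + 1) n = (if n % 2 = 1 then 1 else 0) + oc k (TZ n) := by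
  induction k with
  | zero =>
    rw [oc_succ, oc_zero, oc_zero]
    simp
  | succ k ih =>
    rw [oc_succ, ih, oc_succ k (TZ n), Function.iterate_succ_apply]
    ring

theorem oc_add (j k : ℕ) (n : ℤ) : oc (j + k) n = oc j n + oc k (TZ^[j] n) := by
  induction j generalizing n with
  | zero => simp [oc_zero]
  | succ j ih =>
    rw [show j + 1 + k = (j + k) + 1 by ring, oc_succ', ih, oc_succ', Function.iterate_succ_apply]
    ring

theorem oc_le (k : ℕ) (n : ℤ) : oc k n ≤ k := by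
  unfold oc
  calc _ ≤ (range k).card := card_filter_le _ _
    _ = k := card_range k

/-- the words of length `o` and size at most `k` valid at `a` -/
noncomputable def WO (k o : ℕ) (a : ℤ) : Finset (List ℕ) :=
  (C1_WF 3 k a).filter fun w => w.length = o

theorem mem_WO {k o : ℕ} {a : ℤ} {w : List ℕ} : w ∈ WO k o a ↔
    w ∈ C1_WF 3 k a ∧ w.length = o := by
  unfold WO
  rw [mem_filter]

theorem inc_length (w : List ℕ) : (C1_inc w).length = w.length := by
  cases w <;> simp [C1_inc]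

theorem inc_WO {k o : ℕ} {a : ℤ} {w : List ℕ} (hw : w ∈ WO k o (2 * a)) :
    C1_inc w ∈ WO (k + 1) o a := by
  rw [mem_WO] at hw ⊢
  exact ⟨C1_inc_mem hw.1, by rw [inc_length, hw.2]⟩

theorem cons_WO {k o : ℕ} {a b : ℤ} (hb : (3 : ℤ) * b = 2 * a - 1) {w : List ℕ}
    (hw : w ∈ WO k o b) : (1 :: w) ∈ WO (k + 1) (o + 1) a := by
  rw [mem_WO] at hw ⊢
  exact ⟨C1_cons_mem (by exact_mod_cast hb) hw.1, by simp [hw.2]⟩

theorem card_WO_inc (k o : ℕ) (a : ℤ) : (WO k o (2 * a)).card ≤ (WO (k + 1) o a).card := by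
  classical
  rw [← card_image_of_injective _ C1_inc_inj]
  refine card_le_card ?_
  intro w hw
  rw [mem_image] at hw
  obtain ⟨u, hu, rfl⟩ := hw
  exact inc_WO hu

theorem card_WO_both (k o : ℕ) (a b : ℤ) (hb : (3 : ℤ) * b = 2 * a - 1) :
    (WO k (o + 1) (2 * a)).card + (WO k o b).card ≤ (WO (k + 1) (o + 1) a).card := by
  classical
  rw [← card_image_of_injective _ C1_inc_inj,
    ← card_image_of_injective (WO k o b) (f := List.cons 1) (fun u v h => (List.cons.inj h).2),
    ← card_union_of_disjoint]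
  · refine card_le_card ?_
    intro w hw
    rw [mem_union, mem_image, mem_image] at hw
    rcases hw with ⟨u, hu, rfl⟩ | ⟨u, hu, rfl⟩
    · exact inc_WO hu
    · exact cons_WO hb hu
  · refine disjoint_left.mpr fun w hw hw' => ?_
    rw [mem_image] at hw hw'
    obtain ⟨u, hu, rfl⟩ := hw
    obtain ⟨v, hv, h⟩ := hw'
    cases u with
    | nil => simp [C1_inc] at h
    | cons e u =>
      simp only [C1_inc, List.cons.injEq] at h
      have := (C1_mem.mp (mem_WO.1 hu).1).1 e (by simp)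
      omega

theorem ncard_le_WO (k : ℕ) : ∀ (o : ℕ) (a : ℤ),
    {n : ℤ | TZ^[k] n = a ∧ oc k n = o}.Finite ∧
    {n : ℤ | TZ^[k] n = a ∧ oc k n = o}.ncard ≤ (WO k o a).card := by
  induction k with
  | zero =>
    intro o a
    rcases Nat.eq_zero_or_pos o with rfl | ho
    · have : {n : ℤ | TZ^[0] n = a ∧ oc 0 n = 0} = {a} := by
        ext n; simp [oc_zero]
      rw [this]
      refine ⟨Set.finite_singleton a, ?_⟩
      rw [Set.ncard_singleton, Nat.one_le_iff_ne_zero, card_ne_zero]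
      exact ⟨[], mem_WO.2 ⟨C1_mem.mpr (by simp), rfl⟩⟩
    · have : {n : ℤ | TZ^[0] n = a ∧ oc 0 n = o} = ∅ := by
        ext n
        simp only [oc_zero, Set.mem_setOf_eq, Set.mem_empty_iff_false, iff_false]
        omega
      rw [this]
      exact ⟨Set.finite_empty, by simp⟩
  | succ k ih =>
    intro o a
    have hTa : ∀ m : ℤ, TZ m = a → (m = 2 * a ∧ ¬ m % 2 = 1) ∨
        ((3 : ℤ) * m = 2 * a - 1 ∧ m % 2 = 1) := by
      intro m hm
      unfold TZ at hm
      split_ifs at hm with h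
      · left; omega
      · right; omega
    have h0 : {n : ℤ | TZ^[k + 1] n = a ∧ oc (k + 1) n = o} ⊆
        {n | TZ^[k] n = 2 * a ∧ oc k n = o} ∪
        {n | (3 : ℤ) * TZ^[k] n = 2 * a - 1 ∧ oc k n + 1 = o} := by
      rintro n ⟨hn1, hn2⟩
      rw [Function.iterate_succ_apply'] at hn1
      rw [oc_succ] at hn2
      rcases hTa _ hn1 with ⟨h1, h2⟩ | ⟨h1, h2⟩
      · left
        rw [if_neg h2] at hn2
        exact ⟨h1, by omega⟩
      · right
        rw [if_pos h2] at hn2
        exact ⟨h1, by omega⟩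
    by_cases hdiv : ∃ (b : ℤ) (o' : ℕ), (3 : ℤ) * b = 2 * a - 1 ∧ o = o' + 1
    · obtain ⟨b, o', hb, rfl⟩ := hdiv
      have hsub : {n : ℤ | TZ^[k + 1] n = a ∧ oc (k + 1) n = o' + 1} ⊆
          {n | TZ^[k] n = 2 * a ∧ oc k n = o' + 1} ∪ {n | TZ^[k] n = b ∧ oc k n = o'} := by
        intro n hn
        rcases h0 hn with h | ⟨h1, h2⟩
        · exact Or.inl h
        · right
          exact ⟨by omega, by omega⟩
      obtain ⟨f1, c1⟩ := ih (o' + 1) (2 * a)
      obtain ⟨f2, c2⟩ := ih o' b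
      refine ⟨(f1.union f2).subset hsub, ?_⟩
      calc {n : ℤ | TZ^[k + 1] n = a ∧ oc (k + 1) n = o' + 1}.ncard ≤
            ({n | TZ^[k] n = 2 * a ∧ oc k n = o' + 1} ∪ {n | TZ^[k] n = b ∧ oc k n = o'}).ncard :=
            Set.ncard_le_ncard hsub (f1.union f2)
        _ ≤ _ := Set.ncard_union_le _ _
        _ ≤ (WO k (o' + 1) (2 * a)).card + (WO k o' b).card := Nat.add_le_add c1 c2
        _ ≤ (WO (k + 1) (o' + 1) a).card := card_WO_both k o' a b hb
    · have hsub : {n : ℤ | TZ^[k + 1] n = a ∧ oc (k + 1) n = o} ⊆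
          {n | TZ^[k] n = 2 * a ∧ oc k n = o} := by
        intro n hn
        rcases h0 hn with h | ⟨h1, h2⟩
        · exact h
        · exact absurd ⟨TZ^[k] n, oc k n, h1, h2.symm⟩ hdiv
      obtain ⟨f1, c1⟩ := ih o (2 * a)
      refine ⟨f1.subset hsub, ?_⟩
      calc {n : ℤ | TZ^[k + 1] n = a ∧ oc (k + 1) n = o}.ncard
          ≤ {n | TZ^[k] n = 2 * a ∧ oc k n = o}.ncard := Set.ncard_le_ncard hsub f1
        _ ≤ (WO k o (2 * a)).card := c1
        _ ≤ (WO (k + 1) o a).card := card_WO_inc k o a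

theorem WO_sub {k o : ℕ} {a : ℤ} : WO k o a ⊆ VW 3 k o a := by
  intro w hw
  rw [mem_WO, C1_mem] at hw
  obtain ⟨⟨h1, h2, h3⟩, h4⟩ := hw
  rw [mem_VW]
  subst h4
  exact ⟨rfl, fun e he => ⟨h1 e he, (C1_le_sum w e he).trans h2⟩, h3⟩

/-- the parameter `th 3 z = 3 (1 - z) / z` -/
theorem zc {z : ℝ} (h0 : 2 / 3 < z) (h1 : z < 1) : ZC 3 z :=
  ⟨by norm_num, by linarith, h1, by push_cast; linarith⟩

/-- JOINT UPPER BOUND, on the integers, uniformly in `a` -/
theorem joint_upper {z : ℝ} (h0 : 2 / 3 < z) (h1 : z < 1) {ε : ℝ} (hε : 0 < ε) :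
    ∃ C : ℝ, 0 < C ∧ ∀ (k o : ℕ) (a : ℤ),
      (th 3 z) ^ o * z ^ k * ({n : ℤ | TZ^[k] n = a ∧ oc k n = o}.ncard : ℝ) ≤
        C * Real.exp (ε * k) := by
  have hzc := zc h0 h1
  haveI : Fact (ZC 3 z) := ⟨hzc⟩
  obtain ⟨C, hC, hup⟩ := Pool.Agent.Y966.NZ.upper (p := 3) (z := z) (Or.inl rfl) hε
  refine ⟨C, hC, fun k o a => ?_⟩
  have hth := th_pos (p := 3) (z := z)
  have hz0 := hzc.pos
  rcases Nat.lt_or_ge k o with hko | hko
  · have : {n : ℤ | TZ^[k] n = a ∧ oc k n = o} = ∅ := by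
      ext n
      simp only [Set.mem_setOf_eq, Set.mem_empty_iff_false, iff_false, not_and]
      intro _ h
      have := oc_le k n
      omega
    rw [this, Set.ncard_empty]
    simp only [Nat.cast_zero, mul_zero]
    positivity
  · have h2 : ({n : ℤ | TZ^[k] n = a ∧ oc k n = o}.ncard : ℝ) ≤ ((WO k o a).card : ℝ) := by
      exact_mod_cast (ncard_le_WO k o a).2
    calc (th 3 z) ^ o * z ^ k * ({n : ℤ | TZ^[k] n = a ∧ oc k n = o}.ncard : ℝ)
        ≤ (th 3 z) ^ o * z ^ k * ((WO k o a).card : ℝ) :=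
          mul_le_mul_of_nonneg_left h2 (by positivity)
      _ = ∑ w ∈ WO k o a, (th 3 z) ^ o * z ^ k := by
          rw [sum_const, nsmul_eq_mul, mul_comm]
      _ ≤ ∑ w ∈ WO k o a, zw 3 z w := by
          refine sum_le_sum fun w hw => ?_
          rw [mem_WO, C1_mem] at hw
          unfold zw
          rw [hw.2]
          exact mul_le_mul_of_nonneg_left (pow_le_pow_of_le_one hz0.le h1.le hw.1.2.1)
            (by positivity)
      _ ≤ Pool.Agent.Y966.NZ.DD 3 z k o a := by
          unfold Pool.Agent.Y966.NZ.DD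
          exact sum_le_sum_of_subset_of_nonneg WO_sub fun w _ _ => zw_nonneg w
      _ ≤ C * Real.exp (ε * o) := hup k o a
      _ ≤ C * Real.exp (ε * k) := by
          apply mul_le_mul_of_nonneg_left _ hC.le
          apply Real.exp_le_exp.2
          apply mul_le_mul_of_nonneg_left _ hε.le
          exact_mod_cast hko

end Pool.Agent.Y966.LD
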